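import Pool.Agent.Lib_helper53.LSPAF.LA12
import Pool.Agent.Lib_helper61.FG.DivB

/-! LSP, part A, block LA13: the remaining conditions and the conclusion. -/

set_option autoImplicit false

namespace Pool.Agent.LSP

open Pool.Agent.LEV Pool.Agent.LVB Pool.Agent.KSL
open Pool.Agent.FG61 (mu phi cc ff AA Lam)
open Finset

theorem la13_sg1_mul {m n : ℕ} (h : m.Coprime n) : sg1 (m * n) = sg1 m * sg1 n := by
  have h1 : ∀ k : ℕ, sg1 k = ((ArithmeticFunction.sigma 1 k : ℕ) : ℝ) := by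
    intro k
    unfold sg1
    rw [ArithmeticFunction.sigma_one_apply]
    push_cast
    rfl
  rw [h1, h1, h1, ArithmeticFunction.isMultiplicative_sigma.map_mul_of_coprime h]
  push_cast
  rfl

theorem la13_mu_sg1 {e : ℕ} (he : 1 ≤ e) : ∑ r ∈ e.divisors, mu (e / r) * sg1 r = (e : ℝ) := by
  have h := (ArithmeticFunction.sum_eq_iff_sum_mul_moebius_eq (R := ℝ)
    (f := fun i => (i : ℝ)) (g := fun n => sg1 n)).mp (fun n _ => rfl) e he
  rw [← h, Nat.sum_divisorsAntidiagonal' (fun a b => ((ArithmeticFunction.moebius a : ℤ) : ℝ) * sg1 b)]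

/-- the sum over the rough part -/
theorem la13_rough {z M : ℕ} (hz : z ≤ M) (hP : (PK M 2).Nonempty) :
    ∑ r ∈ Icc 1 (2 * M), xr z M 2 r * sg1 r / r = 0 := by
  have h1 : ∀ r ∈ Icc 1 (2 * M), xr z M 2 r * sg1 r / r =
      (∑ e ∈ (Icc 1 (2 * M)).filter (fun e => r ∣ e), yE z M 2 e * mu (e / r)) * sg1 r := by
    intro r hr
    rw [Finset.mem_Icc] at hr
    have hr0 : (r : ℝ) ≠ 0 := by exact_mod_cast (by omega : r ≠ 0)
    have h2 := wwf_mult (X := 2 * M) (y := fun e => yE z M 2 e * mu (e / r)) (r := r) (by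
      intro e he
      have h3 : yE z M 2 e ≠ 0 := left_ne_zero_of_mul he
      exact ⟨(wwf_yE h3).2.1, wwf_yE_le (by norm_num) h3⟩) hr.1
    rw [← h2]
    unfold xr
    have h3 : ∑ m ∈ Icc 1 (2 * M), mu m * yE z M 2 (r * m) =
        ∑ m ∈ Icc 1 (2 * M), yE z M 2 (r * m) * mu (r * m / r) := by
      refine Finset.sum_congr rfl fun m _ => ?_
      rw [Nat.mul_div_cancel_left m hr.1, mul_comm]
    rw [h3]
    field_simp
  rw [Finset.sum_congr rfl h1, wwf_swap (2 * M) (yE z M 2) sg1 (fun e r => mu (e / r)),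
    ← wwf_sum_eyE hz hP]
  refine Finset.sum_congr rfl fun e he => ?_
  rw [Finset.mem_Icc] at he
  rw [la13_mu_sg1 he.1, mul_comm]

theorem zero_x {z M A : ℕ} {a : ℕ → ℝ} (ha : Sht z A a) (hz : z ≤ M) (hM : 2 ≤ M)
    (hP : (PK M 2).Nonempty) :
    ∑ e ∈ Icc 1 (QA M 2 A), xX z M 2 a e * sg1 e / e = 0 := by
  classical
  have hkey : ∀ s r : ℕ, a s * Real.sqrt s * sg1 s / s * (xr z M 2 r * sg1 r / r) ≠ 0 →
      smooth z s ∧ rough z r ∧ 1 ≤ r ∧ s ≤ A ∧ r ≤ 2 * M := by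
    intro s r h
    have h1 : a s ≠ 0 := by
      intro h1
      apply h
      rw [h1]
      simp
    have h2 : xr z M 2 r ≠ 0 := by
      intro h2
      apply h
      rw [h2]
      simp
    obtain ⟨h3, h4⟩ := ha.sup _ h1
    obtain ⟨h5, h6, h7⟩ := xr_supp h2
    exact ⟨h3, h5, h6, h4, h7⟩
  have hterm : ∀ e : ℕ, 1 ≤ e → xX z M 2 a e * sg1 e / e =
      a (smp z e) * Real.sqrt (smp z e) * sg1 (smp z e) / (smp z e) *
        (xr z M 2 (rop z e) * sg1 (rop z e) / (rop z e)) := by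
    intro e he
    obtain ⟨h1, h2, h3, h4, h5⟩ := smp_rop (z := z) he
    have h6 : sg1 e = sg1 (smp z e) * sg1 (rop z e) := by
      rw [← la13_sg1_mul h2, h1]
    have h7 : (e : ℝ) = (smp z e : ℝ) * (rop z e : ℝ) := by
      rw [← Nat.cast_mul, h1]
    have h8 : (smp z e : ℝ) ≠ 0 := by exact_mod_cast h3.1
    have h9 : (rop z e : ℝ) ≠ 0 := by exact_mod_cast (by omega : rop z e ≠ 0)
    unfold xX
    rw [if_neg (by omega), h6, h7]
    field_simp
  have hmain : ∑ e ∈ Icc 1 (QA M 2 A), xX z M 2 a e * sg1 e / e =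
      ∑ x ∈ (Icc 1 A) ×ˢ (Icc 1 (2 * M)),
        a x.1 * Real.sqrt x.1 * sg1 x.1 / x.1 * (xr z M 2 x.2 * sg1 x.2 / x.2) := by
    symm
    refine Finset.sum_bij_ne_zero (fun x _ _ => x.1 * x.2) ?_ ?_ ?_ ?_
    · intro x hx h
      rw [Finset.mem_product, Finset.mem_Icc, Finset.mem_Icc] at hx
      rw [Finset.mem_Icc]
      refine ⟨Nat.mul_pos hx.1.1 hx.2.1, ?_⟩
      unfold QA
      calc x.1 * x.2 ≤ A * (2 * M) := Nat.mul_le_mul hx.1.2 hx.2.2
        _ = 2 * M * A := by ring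
    · intro x hx h y hy h' hxy
      obtain ⟨h1, h2, h3, h4⟩ := hkey _ _ h
      obtain ⟨k1, k2, k3, k4⟩ := hkey _ _ h'
      have a1 := smp_mul h1 h2 h3
      have a2 := smp_mul k1 k2 k3
      have e : x.1 * x.2 = y.1 * y.2 := hxy
      rw [e] at a1
      exact Prod.ext (a1.1.symm.trans a2.1) (a1.2.symm.trans a2.2)
    · intro e he h
      rw [Finset.mem_Icc] at he
      rw [hterm e he.1] at h
      obtain ⟨h1, h2, h3, h4, h5⟩ := hkey _ _ h
      obtain ⟨c1, c2, c3, c4, c5⟩ := smp_rop (z := z) he.1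
      refine ⟨(smp z e, rop z e), ?_, h, c1⟩
      rw [Finset.mem_product, Finset.mem_Icc, Finset.mem_Icc]
      exact ⟨⟨Nat.pos_of_ne_zero h1.1, h4⟩, ⟨h3, h5⟩⟩
    · intro x hx h
      obtain ⟨h1, h2, h3, h4, h5⟩ := hkey _ _ h
      have hs : 0 < x.1 := Nat.pos_of_ne_zero h1.1
      have a1 := smp_mul h1 h2 h3
      rw [hterm _ (Nat.mul_pos hs h3), a1.1, a1.2]
  rw [hmain, Finset.sum_product]
  simp only
  rw [← Finset.sum_mul_sum, la13_rough hz hP, mul_zero]

theorem la13_rpow (e : ℝ) (he : 0 < e) (C : ℝ) : ∃ X₀ : ℕ, ∀ X : ℕ, X₀ ≤ X → C ≤ (X : ℝ) ^ e := by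
  have h := ((tendsto_rpow_atTop he).comp tendsto_natCast_atTop_atTop).eventually_ge_atTop C
  exact Filter.eventually_atTop.mp h

/-- powers of the logarithm are small -/
theorem la13_logpow (e : ℝ) (he : 0 < e) (C : ℝ) (k : ℕ) :
    ∃ X₀ : ℕ, ∀ X : ℕ, X₀ ≤ X → C * Real.log X ^ k ≤ (X : ℝ) ^ e := by
  have h1 : (fun x : ℝ => Real.log x ^ (k : ℝ)) =o[Filter.atTop] fun x : ℝ => x ^ e :=
    isLittleO_log_rpow_rpow_atTop _ he
  have h2 := h1.bound (show (0 : ℝ) < 1 / (|C| + 1) by positivity)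
  have h3 := (tendsto_natCast_atTop_atTop (R := ℝ)).eventually h2
  have h4 : ∀ᶠ X : ℕ in Filter.atTop, C * Real.log X ^ k ≤ (X : ℝ) ^ e := by
    filter_upwards [h3, Filter.eventually_ge_atTop 1] with X hX hX1
    have hX1' : (1 : ℝ) ≤ X := by exact_mod_cast hX1
    have hL : 0 ≤ Real.log X := Real.log_nonneg hX1'
    rw [Real.rpow_natCast, Real.norm_of_nonneg (by positivity), Real.norm_of_nonneg (by positivity),
      div_mul_eq_mul_div, one_mul, le_div_iff₀ (by positivity)] at hX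
    have h5 : C * Real.log X ^ k ≤ (|C| + 1) * Real.log X ^ k := by
      apply mul_le_mul_of_nonneg_right _ (by positivity)
      linarith [le_abs_self C]
    linarith [mul_comm (Real.log X ^ k) (|C| + 1)]
  exact Filter.eventually_atTop.mp h4

theorem adm_x_all : ∀ C₀ C₁ : ℕ, ∃ B : ℕ, ∀ B' : ℕ, ∀ κ : ℝ, 0 < κ → κ ≤ 1 / 1000 → ∀ ε₂ : ℝ,
    0 < ε₂ → ε₂ ≤ κ / 100000 → ∃ X₀ : ℕ, ∀ X : ℕ, X₀ ≤ X → ∀ a : ℕ → ℝ,
    Sht (zz X) (KA ε₂ X) a → (∀ k : ℕ, |a k| * Real.sqrt k ≤ Real.log X ^ C₀ * tau k ^ C₁) →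
      Adm κ B B' X (QA (MM (-κ) X) 2 (KA ε₂ X)) (xX (zz X) (MM (-κ) X) 2 a) := by
  intro C₀ C₁
  refine ⟨2 * C₁ + 3, fun B' κ h0 h1 ε₂ h2 h3 => ?_⟩
  obtain ⟨X1, hX1⟩ := mob_x C₀ C₁ B' h0 h1 h2 h3
  obtain ⟨X2, hX2⟩ := la_sizes h0 h1
  obtain ⟨X3, hX3⟩ := xr_bound h0 h1
  have hη : 0 < κ / (4000 * (C₁ + 1)) := by positivity
  obtain ⟨D, hD0, hD⟩ := Pool.Agent.FG61.divisor_bound hη
  obtain ⟨X4, hX4⟩ := la13_logpow (κ / 4000) (by positivity) (4 * D ^ C₁) (C₀ + 1)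
  obtain ⟨X5, hX5⟩ := la13_rpow (κ / 100 - ε₂) (by linarith) 2
  refine ⟨max (max (max X1 X2) (max X3 X4)) (max X5 1), fun X hX a hS hab => ?_⟩
  have g1 : X1 ≤ X := by omega
  have g2 : X2 ≤ X := by omega
  have g3 : X3 ≤ X := by omega
  have g4 : X4 ≤ X := by omega
  have g5 : X5 ≤ X := by omega
  have g6 : 1 ≤ X := by omega
  have hX' : (1 : ℝ) ≤ X := by exact_mod_cast g6
  have hX0 : (0 : ℝ) < X := by linarith
  obtain ⟨s1, s2, s3, s4, s5, s6, s7, s8⟩ := hX2 X g2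
  have hAX : (KA ε₂ X : ℝ) ≤ (X : ℝ) ^ ε₂ := by
    unfold KA
    exact Nat.floor_le (by positivity)
  refine ⟨?_, ?_, ?_, ?_, ?_⟩
  · intro e he
    have he0 : e ≠ 0 := by
      intro h
      apply he
      unfold xX
      rw [if_pos h]
    have he1 : 1 ≤ e := Nat.pos_of_ne_zero he0
    refine ⟨he1, ?_⟩
    unfold xX at he
    rw [if_neg he0] at he
    have h4 : a (smp (zz X) e) ≠ 0 := by
      intro h
      apply he
      rw [h]
      simp
    have h5 : xr (zz X) (MM (-κ) X) 2 (rop (zz X) e) ≠ 0 := right_ne_zero_of_mul he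
    have h6 := (hS.sup _ h4).2
    have h7 := (xr_supp h5).2.2
    have h8 := (smp_rop (z := zz X) he1).1
    unfold QA
    calc e = smp (zz X) e * rop (zz X) e := h8.symm
      _ ≤ KA ε₂ X * (2 * MM (-κ) X) := Nat.mul_le_mul h6 h7
      _ = 2 * MM (-κ) X * KA ε₂ X := by ring
  · unfold QA
    push_cast
    have e1 : (X : ℝ) ^ (1 / 2 + 101 / 100 * κ) =
        (X : ℝ) ^ (κ / 100 - ε₂) * (X : ℝ) ^ (1 / 2 + κ) * (X : ℝ) ^ ε₂ := by
      rw [← Real.rpow_add hX0, ← Real.rpow_add hX0]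
      congr 1
      ring
    rw [e1]
    have h5 := hX5 X g5
    gcongr
  · intro e
    unfold xX
    split_ifs with he
    · rw [abs_zero]
      positivity
    · have he1 : 1 ≤ e := Nat.pos_of_ne_zero he
      obtain ⟨j1, j2, j3, j4, j5⟩ := smp_rop (z := zz X) he1
      by_cases ha0 : a (smp (zz X) e) = 0
      · rw [ha0]
        simp only [zero_mul, abs_zero]
        positivity
      · rw [abs_mul, abs_mul, abs_of_nonneg (Real.sqrt_nonneg _)]
        have h4 := hab (smp (zz X) e)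
        have h5 := hX3 X g3 (rop (zz X) e)
        have h6 := (hS.sup _ ha0).2
        have hs1 : 0 < smp (zz X) e := Nat.pos_of_ne_zero j3.1
        have hs1' : (1 : ℝ) ≤ smp (zz X) e := by exact_mod_cast hs1
        have h7 : (smp (zz X) e : ℝ) ≤ X := by
          calc (smp (zz X) e : ℝ) ≤ KA ε₂ X := by exact_mod_cast h6
            _ ≤ (X : ℝ) ^ ε₂ := hAX
            _ ≤ (X : ℝ) ^ (1 : ℝ) := Real.rpow_le_rpow_of_exponent_le hX' (by linarith)
            _ = X := Real.rpow_one _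
        have h8 : tau (smp (zz X) e) ≤ D * (X : ℝ) ^ (κ / (4000 * (C₁ + 1))) := by
          refine (hD _ hs1).trans ?_
          apply mul_le_mul_of_nonneg_left _ hD0.le
          exact Real.rpow_le_rpow (by positivity) h7 hη.le
        have hτ : 0 ≤ tau (smp (zz X) e) := by unfold tau; positivity
        have h9 : tau (smp (zz X) e) ^ C₁ ≤ D ^ C₁ * (X : ℝ) ^ (κ / 4000) := by
          refine (pow_le_pow_left₀ hτ h8 _).trans ?_
          rw [mul_pow]
          apply mul_le_mul_of_nonneg_left _ (by positivity)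
          rw [← Real.rpow_natCast, ← Real.rpow_mul hX0.le]
          apply Real.rpow_le_rpow_of_exponent_le hX'
          rw [div_mul_eq_mul_div, div_le_div_iff₀ (by positivity) (by norm_num)]
          have : (C₁ : ℝ) ≤ C₁ + 1 := by linarith
          have h10 : κ * (C₁ : ℝ) ≤ κ * (C₁ + 1) := mul_le_mul_of_nonneg_left this h0.le
          nlinarith
        have hL0 : 0 ≤ Real.log X := Real.log_nonneg hX'
        calc |a (smp (zz X) e)| * Real.sqrt (smp (zz X) e) *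
              |xr (zz X) (MM (-κ) X) 2 (rop (zz X) e)|
            ≤ (Real.log X ^ C₀ * (D ^ C₁ * (X : ℝ) ^ (κ / 4000))) * (4 * Real.log X) := by
              refine mul_le_mul (h4.trans (mul_le_mul_of_nonneg_left h9 (by positivity))) h5
                (abs_nonneg _) (by positivity)
          _ = (4 * D ^ C₁ * Real.log X ^ (C₀ + 1)) * (X : ℝ) ^ (κ / 4000) := by ring
          _ ≤ (X : ℝ) ^ (κ / 4000) * (X : ℝ) ^ (κ / 4000) := by
              exact mul_le_mul_of_nonneg_right (hX4 X g4) (by positivity)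
          _ = (X : ℝ) ^ (κ / 4000 + κ / 4000) := by rw [← Real.rpow_add hX0]
          _ ≤ (X : ℝ) ^ (κ / 1000) := by
              apply Real.rpow_le_rpow_of_exponent_le hX'
              linarith
  · exact zero_x hS (by omega) (by omega) s8
  · intro c z₁ z₂ hc hcX hz
    refine hX1 X g1 a hS hab c z₁ z₂ hc (hcX.trans ?_) hz
    apply Real.rpow_le_rpow_of_exponent_le hX'
    linarith

end Pool.Agent.LSP
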