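import Pool.Agent.Lib_helper53.LSPAF.LA6

/-!
# LSPA block LA7: the coefficients of the rough factor
-/

set_option autoImplicit false

namespace Pool.Agent.LSP

open Pool.Agent.LEV Pool.Agent.LVB Pool.Agent.KSL
open Pool.Agent.FG61 (mu phi cc ff AA Lam)
open Finset

theorem la7_rough {z m n : ℕ} (h : rough z (m * n)) : rough z m := fun p hp hpm =>
  h p hp (hpm.mul_right n)

theorem xr_supp {z M r : ℕ} (h : xr z M 2 r ≠ 0) : rough z r ∧ 1 ≤ r ∧ r ≤ 2 * M := by
  unfold xr at h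
  have h1 : ∑ m ∈ Finset.Icc 1 (2 * M), mu m * yE z M 2 (r * m) ≠ 0 := fun h2 => h (by
    rw [h2, mul_zero])
  obtain ⟨m, -, hm⟩ := Finset.exists_ne_zero_of_sum_ne_zero h1
  have h2 : yE z M 2 (r * m) ≠ 0 := fun h3 => hm (by rw [h3, mul_zero])
  obtain ⟨h3, h4, -⟩ := wwf_yE h2
  have h5 := wwf_yE_le (by norm_num) h2
  have hr : 0 < r := Nat.pos_of_ne_zero fun h0 => by
    rw [h0, zero_mul] at h4
    omega
  have hm0 : 0 < m := Nat.pos_of_ne_zero fun h0 => by
    rw [h0, mul_zero] at h4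
    omega
  exact ⟨la7_rough h3, hr, (Nat.le_mul_of_pos_right r hm0).trans h5⟩

theorem la7_mu (n : ℕ) : |mu n| ≤ 1 := by
  unfold mu
  have := ArithmeticFunction.abs_moebius_le_one (n := n)
  exact_mod_cast this

theorem la7_gE {z M e : ℕ} (he : 1 ≤ e) (hb : |be z M 2| ≤ Real.log M) :
    |gE z M 2 e| ≤ Real.log M := by
  have hL : 0 ≤ Real.log M := (abs_nonneg _).trans hb
  unfold gE
  split_ifs with h1 h2
  · have he0 : (0 : ℝ) < e := by exact_mod_cast he
    have hM0 : (0 : ℝ) < M := by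
      have : 0 < M := by omega
      exact_mod_cast this
    have h3 : Real.log ((M : ℝ) / e) = Real.log M - Real.log e := Real.log_div hM0.ne' he0.ne'
    have h4 : 0 ≤ Real.log e := Real.log_nonneg (by exact_mod_cast he)
    have h5 : 0 ≤ Real.log ((M : ℝ) / e) := Real.log_nonneg (by
      rw [le_div_iff₀ he0, one_mul]
      exact_mod_cast h1)
    rw [abs_of_nonneg h5, h3]
    linarith
  · exact hb
  · rw [abs_zero]
    exact hL

theorem la7_yE {z M e : ℕ} (he : 1 ≤ e) (hL : 0 < Real.log M) (hb : |be z M 2| ≤ Real.log M) :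
    |yE z M 2 e| ≤ 1 / e := by
  have he0 : (0 : ℝ) < e := by exact_mod_cast he
  unfold yE
  split_ifs with h1
  · rw [abs_div, abs_mul, abs_of_pos (mul_pos he0 hL)]
    have h2 : |mu e| * |gE z M 2 e| ≤ 1 * Real.log M :=
      mul_le_mul (la7_mu e) (la7_gE he hb) (abs_nonneg _) zero_le_one
    rw [div_le_div_iff₀ (mul_pos he0 hL) he0]
    nlinarith
  · rw [abs_zero]
    positivity

theorem la7_harm (M : ℕ) : ∑ k ∈ Finset.Icc 1 M, 1 / (k : ℝ) ≤ 1 + Real.log M := by
  have h2 := harmonic_le_one_add_log M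
  have h3 : ((harmonic M : ℚ) : ℝ) = ∑ k ∈ Finset.Icc 1 M, 1 / (k : ℝ) := by
    rw [harmonic_eq_sum_Icc]
    push_cast
    simp [one_div]
  rwa [h3] at h2

theorem xr_bound {κ : ℝ} (h0 : 0 < κ) (h1 : κ ≤ 1 / 1000) : ∃ X₀ : ℕ, ∀ X : ℕ, X₀ ≤ X →
    ∀ r : ℕ, |xr (zz X) (MM (-κ) X) 2 r| ≤ 4 * Real.log X := by
  obtain ⟨X₁, hX₁⟩ := la_sizes h0 h1
  obtain ⟨X₂, hX₂⟩ := be_log 0 h0 h1
  refine ⟨max X₁ X₂, fun X hX r => ?_⟩
  obtain ⟨a1, a2, -, -, a5, a6, a7, -⟩ := hX₁ X ((le_max_left _ _).trans hX)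
  have b1 := hX₂ X ((le_max_right _ _).trans hX)
  rw [pow_zero, div_one] at b1
  set M : ℕ := MM (-κ) X with hM
  set z : ℕ := zz X with hz
  have hM9 : 9 ≤ M := by omega
  have hM9' : (9 : ℝ) ≤ M := by exact_mod_cast hM9
  have hlog : 1 ≤ Real.log M := by
    rw [Real.le_log_iff_exp_le (by linarith)]
    have := Real.exp_one_lt_d9
    linarith
  have hb : |be z M 2| ≤ Real.log M := b1.trans hlog
  rcases Nat.eq_zero_or_pos r with hr | hr
  · have : xr z M 2 r = 0 := by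
      unfold xr
      rw [hr, Nat.cast_zero, zero_mul]
    rw [this, abs_zero]
    linarith
  have hr0 : (0 : ℝ) < r := by exact_mod_cast hr
  have h2 : |xr z M 2 r| ≤ ∑ m ∈ Finset.Icc 1 (2 * M), 1 / (m : ℝ) := by
    unfold xr
    rw [abs_mul, abs_of_pos hr0]
    calc (r : ℝ) * |∑ m ∈ Finset.Icc 1 (2 * M), mu m * yE z M 2 (r * m)|
        ≤ (r : ℝ) * ∑ m ∈ Finset.Icc 1 (2 * M), |mu m * yE z M 2 (r * m)| :=
          mul_le_mul_of_nonneg_left (Finset.abs_sum_le_sum_abs _ _) hr0.le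
      _ = ∑ m ∈ Finset.Icc 1 (2 * M), (r : ℝ) * |mu m * yE z M 2 (r * m)| := Finset.mul_sum _ _ _
      _ ≤ ∑ m ∈ Finset.Icc 1 (2 * M), 1 / (m : ℝ) := by
          refine Finset.sum_le_sum fun m hm => ?_
          rw [Finset.mem_Icc] at hm
          have hm0 : (0 : ℝ) < m := by exact_mod_cast hm.1
          have h3 : |yE z M 2 (r * m)| ≤ 1 / ((r * m : ℕ) : ℝ) :=
            la7_yE (Nat.mul_pos hr hm.1) (by linarith) hb
          rw [abs_mul]
          calc (r : ℝ) * (|mu m| * |yE z M 2 (r * m)|)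
              ≤ (r : ℝ) * (1 * (1 / ((r * m : ℕ) : ℝ))) := by
                have := mul_le_mul (la7_mu m) h3 (abs_nonneg _) zero_le_one
                exact mul_le_mul_of_nonneg_left this hr0.le
            _ = 1 / (m : ℝ) := by
                push_cast
                field_simp
  have h4 := la7_harm (2 * M)
  have h5 : Real.log ((2 * M : ℕ) : ℝ) ≤ Real.log X := by
    apply Real.log_le_log
    · push_cast
      linarith
    · push_cast
      exact a7
  linarith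

end Pool.Agent.LSP
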