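import Pool.Agent.Lib_helper53.LSPAF.LA13

/-! LSP, part A: the mollifier is admissible. -/

namespace Pool.Agent.LSP

open Pool.Agent.LEV Pool.Agent.LVB Pool.Agent.KSL
open Pool.Agent.FG61 (mu phi cc ff AA Lam)
open Complex MeasureTheory Filter Topology UpperHalfPlane ModularGroup ProbabilityTheory
open scoped MatrixGroups Modular ENNReal ModularForm ComplexConjugate ContDiff

theorem adm_x : ∀ C₀ C₁ : ℕ, ∃ B : ℕ, ∀ B' : ℕ, ∀ κ : ℝ, 0 < κ → κ ≤ 1 / 1000 → ∀ ε₂ : ℝ, 0 < ε₂ →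
    ε₂ ≤ κ / 100000 → ∃ X₀ : ℕ, ∀ X : ℕ, X₀ ≤ X → ∀ a : ℕ → ℝ, Sht (zz X) (KA ε₂ X) a →
    (∀ k : ℕ, |a k| * Real.sqrt k ≤ Real.log X ^ C₀ * tau k ^ C₁) →
      Adm κ B B' X (QA (MM (-κ) X) 2 (KA ε₂ X)) (xX (zz X) (MM (-κ) X) 2 a) :=
  adm_x_all

end Pool.Agent.LSP
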