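import Pool.Agent.Lib_helper41.LSP.Defs
import Pool.Agent.Lib_helper68.KSLF.SRO
import Pool.Agent.Lib_helper68.KSLF.WWF
import Pool.Agent.Lib_helper68.KSLF.AAX
import Pool.Agent.Lib_helper68.KSLF.BET

/-!
# LSP, part A: the mollifier is admissible. Definitions.
-/

set_option autoImplicit false

namespace Pool.Agent.LSP

open Pool.Agent.LEV Pool.Agent.LVB Pool.Agent.KSL
open Pool.Agent.FG61 (mu phi cc ff AA Lam)
open Finset

/-- the sum of `μ(n)` over `n ≤ x` coprime to `K` -/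
noncomputable def MS (K : ℕ) (x : ℝ) : ℝ :=
  ∑ n ∈ (Icc 1 ⌊x⌋₊).filter (fun n => n.Coprime K), mu n

end Pool.Agent.LSP
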