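import Pool.Agent.Lib_helper53.LSPAF.GlueA
import Pool.Agent.Lib_helper41.LSPG.GOKB
import Pool.Agent.Lib_helper31.LSP.FinO
import Pool.Agent.Lib_helper97.LSPO.WW
import Pool.Agent.Lib_helper15.LSPF.ASM
import Pool.Agent.Lib_helper15.LSPF.CCB
import Pool.Agent.Lib_helper15.LSPF.TAU
import Pool.Agent.Lib_helper98.GAF.Final

/-! LSP: the average of the off-diagonal is small at some prime of every clean range. -/

set_option autoImplicit false

namespace Pool.Agent.LSP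

open Finset Filter
open Pool.Agent.LSPO (ODg GOK b1 Par finite_main weights_char)
open Pool.Agent.LSPP (CK ck_of_adm tau_le p_main)

/-- the powers of the small parameter `Y = X^(κ/8)` -/
theorem glue_pow {X κ : ℝ} (hX : 0 < X) (n : ℕ) :
    (X ^ (κ / 8)) ^ n = X ^ (n * κ / 8) := by
  rw [← Real.rpow_natCast, ← Real.rpow_mul hX.le]
  congr 1
  ring

/-- `A X^a ≤ X^b` for large `X` -/
theorem glue_ev (A : ℝ) {a b : ℝ} (h : a < b) :
    ∀ᶠ X : ℕ in atTop, A * (X : ℝ) ^ a ≤ (X : ℝ) ^ b := by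
  have h1 : Tendsto (fun X : ℕ => (X : ℝ) ^ (b - a)) atTop atTop :=
    (tendsto_rpow_atTop (by linarith)).comp tendsto_natCast_atTop_atTop
  filter_upwards [h1.eventually_ge_atTop A, eventually_gt_atTop 0] with X h2 h3
  have hX : (0 : ℝ) < X := by exact_mod_cast h3
  calc A * (X : ℝ) ^ a ≤ (X : ℝ) ^ (b - a) * (X : ℝ) ^ a :=
        mul_le_mul_of_nonneg_right h2 (by positivity)
    _ = (X : ℝ) ^ b := by rw [← Real.rpow_add hX]; congr 1; ring

/-- `A (log X + 1) ≤ X^b` for large `X` -/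
theorem glue_log (A : ℝ) {b : ℝ} (h : 0 < b) :
    ∀ᶠ X : ℕ in atTop, A * (Real.log X + 1) ≤ (X : ℝ) ^ b := by
  have h1 : ∀ᶠ x : ℝ in atTop, ‖Real.log x‖ ≤ 1 / (2 * (|A| + 1)) * ‖x ^ b‖ :=
    (isLittleO_log_rpow_atTop h).bound (by positivity)
  have h2 : ∀ᶠ X : ℕ in atTop, ‖Real.log (X : ℝ)‖ ≤ 1 / (2 * (|A| + 1)) * ‖(X : ℝ) ^ b‖ :=
    tendsto_natCast_atTop_atTop.eventually h1
  have h3 : Tendsto (fun X : ℕ => (X : ℝ) ^ b) atTop atTop :=
    (tendsto_rpow_atTop h).comp tendsto_natCast_atTop_atTop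
  filter_upwards [h2, h3.eventually_ge_atTop (2 * (|A| + 1)), eventually_ge_atTop 1]
    with X h4 h5 h6
  have hX : (1 : ℝ) ≤ X := by exact_mod_cast h6
  have hl : 0 ≤ Real.log X := Real.log_nonneg hX
  rw [Real.norm_of_nonneg hl, Real.norm_of_nonneg (by positivity)] at h4
  have hA : 0 < |A| + 1 := by positivity
  have h7 : (|A| + 1) * Real.log X ≤ (X : ℝ) ^ b / 2 := by
    calc (|A| + 1) * Real.log X ≤ (|A| + 1) * (1 / (2 * (|A| + 1)) * (X : ℝ) ^ b) :=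
          mul_le_mul_of_nonneg_left h4 hA.le
      _ = (X : ℝ) ^ b / 2 := by field_simp
  have h8 := le_abs_self A
  calc A * (Real.log X + 1) ≤ (|A| + 1) * (Real.log X + 1) :=
        mul_le_mul_of_nonneg_right (by linarith) (by linarith)
    _ = (|A| + 1) * Real.log X + (|A| + 1) := by ring
    _ ≤ (X : ℝ) ^ b / 2 + (X : ℝ) ^ b / 2 := by linarith
    _ = _ := by ring

/-- the parameters of part O -/
theorem glue_par {ρ : ℝ → ℝ} {U c κ : ℝ} (hG : GOK (GG ρ) U c) (h0 : 0 < κ) (h1 : κ ≤ 1 / 1000)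
    {B₀ : ℕ} (hB : U ≤ B₀) (B B' : ℕ) : ∃ X₀ : ℕ, ∀ X : ℕ, X₀ ≤ X → ∀ (E : ℕ) (x : ℕ → ℝ),
    1 ≤ E → Adm κ B B' X E x → ∀ Z : ℝ, X ≤ Z → Z ≤ 2 * X →
      Par (GG ρ) U c ((X : ℝ) ^ (κ / 8)) Z (E ^ 2) (2 * (B₀ + 1) * E) (CC E x) ∧
        2 * ((B₀ + 1) * E : ℝ) < X / 2 := by
  obtain ⟨X1, hX1⟩ := ck_of_adm h0 h1 B B'
  obtain ⟨Ct, hCt, htau⟩ := tau_le (ε := κ / 32) (by linarith)
  have e1 := glue_log (1000 * c * (U + 3)) (b := κ / 8) (by linarith)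
  have e2 := glue_ev (Ct * 4) (a := κ / 16) (b := κ / 8) (by linarith)
  have e3 := glue_ev (4 * ((B₀ : ℝ) + 1) ^ 2) (a := 1 + 101 / 50 * κ) (b := 1 + 9 / 4 * κ)
    (by linarith)
  have e4 := glue_ev (8 * ((B₀ : ℝ) + 1)) (a := 1 / 2 + 101 / 100 * κ) (b := 1) (by linarith)
  obtain ⟨X2, hX2⟩ := eventually_atTop.1 (e1.and (e2.and (e3.and e4)))
  refine ⟨max (max X1 X2) 2, fun X hX E x hE hA Z hZ1 hZ2 => ?_⟩
  have g1 : X1 ≤ X := ((le_max_left _ _).trans (le_max_left _ _)).trans hX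
  have g2 : X2 ≤ X := ((le_max_right _ _).trans (le_max_left _ _)).trans hX
  have g3 : 2 ≤ X := (le_max_right _ _).trans hX
  have hck := hX1 X g1 E x hA
  obtain ⟨f1, f2, f3, f4⟩ := hX2 X g2
  have hX2' : (2 : ℝ) ≤ X := by exact_mod_cast g3
  have hX0 : (0 : ℝ) < X := by linarith
  have hX1' : (1 : ℝ) ≤ X := by linarith
  have hU := hG.one_le
  have hc := hG.one_le'
  have hE0 : (1 : ℝ) ≤ E := by exact_mod_cast hE
  have hEsz := hA.size
  have hE2 : ((E ^ 2 : ℕ) : ℝ) ≤ (X : ℝ) ^ (1 + 101 / 50 * κ) := hck.size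
  have hE2' : (E : ℝ) ^ 2 ≤ (X : ℝ) ^ (1 + 101 / 50 * κ) := by exact_mod_cast hE2
  have hZ0 : 0 < Z := by linarith
  have hB0 : (0 : ℝ) ≤ B₀ := Nat.cast_nonneg _
  have hlX : 0 ≤ Real.log X := Real.log_nonneg hX1'
  constructor
  · refine ⟨hG, by linarith, ?_, ?_, ?_, ?_, ?_, ?_, ?_, ?_⟩
    · refine le_trans ?_ f1
      have h2 : Real.log Z ≤ Real.log X + 1 := by
        have h3 := Real.log_le_log hZ0 hZ2
        rw [Real.log_mul (by norm_num) hX0.ne'] at h3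
        have := Real.log_two_lt_d9
        linarith
      have h3 : Real.log Z + U + 1 ≤ (U + 3) * (Real.log X + 1) := by nlinarith
      calc 1000 * c * (Real.log Z + U + 1) ≤ 1000 * c * ((U + 3) * (Real.log X + 1)) :=
            mul_le_mul_of_nonneg_left h3 (by linarith)
        _ = _ := by ring
    · rw [glue_pow hX0]
      refine le_trans ?_ hZ1
      calc (X : ℝ) ^ (((200 : ℕ) : ℝ) * κ / 8) ≤ (X : ℝ) ^ (1 : ℝ) :=
            Real.rpow_le_rpow_of_exponent_le hX1' (by push_cast; linarith)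
        _ = X := Real.rpow_one _
    · exact Nat.one_le_pow _ _ hE
    · rw [glue_pow hX0]
      refine hE2.trans ?_
      calc (X : ℝ) ^ (1 + 101 / 50 * κ) ≤ (X : ℝ) ^ (1 + ((17 : ℕ) : ℝ) * κ / 8) :=
            Real.rpow_le_rpow_of_exponent_le hX1' (by push_cast; linarith)
        _ = X * (X : ℝ) ^ (((17 : ℕ) : ℝ) * κ / 8) := by
            rw [Real.rpow_add hX0, Real.rpow_one]
        _ ≤ Z * (X : ℝ) ^ (((17 : ℕ) : ℝ) * κ / 8) := by gcongr
    · intro n hn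
      refine (hck.bdd n hn).trans ?_
      have : (X : ℝ) ^ (κ / 100) ≤ (X : ℝ) ^ (κ / 8) :=
        Real.rpow_le_rpow_of_exponent_le hX1' (by linarith)
      gcongr
    · intro m hm hmZ
      refine (htau m).trans ?_
      have hm0 : (0 : ℝ) < m := by exact_mod_cast hm
      have h2 : (m : ℝ) ^ (κ / 32) ≤ 4 * (X : ℝ) ^ (κ / 16) := by
        have h3 : (m : ℝ) ≤ (4 * X ^ 2 : ℝ) := by nlinarith
        calc (m : ℝ) ^ (κ / 32) ≤ (4 * X ^ 2 : ℝ) ^ (κ / 32) :=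
              Real.rpow_le_rpow hm0.le h3 (by linarith)
          _ = (4 : ℝ) ^ (κ / 32) * (X : ℝ) ^ (κ / 16) := by
              rw [Real.mul_rpow (by norm_num) (by positivity), ← Real.rpow_natCast,
                ← Real.rpow_mul hX0.le]
              congr 2
              push_cast; ring
          _ ≤ 4 * (X : ℝ) ^ (κ / 16) := by
              have : (4 : ℝ) ^ (κ / 32) ≤ (4 : ℝ) ^ (1 : ℝ) :=
                Real.rpow_le_rpow_of_exponent_le (by norm_num) (by linarith)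
              rw [Real.rpow_one] at this
              gcongr
      calc Ct * (m : ℝ) ^ (κ / 32) ≤ Ct * (4 * (X : ℝ) ^ (κ / 16)) :=
            mul_le_mul_of_nonneg_left h2 (by linarith)
        _ = Ct * 4 * (X : ℝ) ^ (κ / 16) := by ring
        _ ≤ _ := f2
    · push_cast
      have h2 : 3 * (1 + U) ≤ 4 * ((B₀ : ℝ) + 1) ^ 2 := by nlinarith
      calc 3 * (1 + U) * (E : ℝ) ^ 2 ≤ 4 * ((B₀ : ℝ) + 1) ^ 2 * (E : ℝ) ^ 2 := by gcongr
        _ = _ := by ring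
    · rw [glue_pow hX0]
      push_cast
      calc (2 * ((B₀ : ℝ) + 1) * E) ^ 2 = 4 * ((B₀ : ℝ) + 1) ^ 2 * (E : ℝ) ^ 2 := by ring
        _ ≤ 4 * ((B₀ : ℝ) + 1) ^ 2 * (X : ℝ) ^ (1 + 101 / 50 * κ) := by gcongr
        _ ≤ (X : ℝ) ^ (1 + 9 / 4 * κ) := f3
        _ = X * (X : ℝ) ^ ((18 : ℝ) * κ / 8) := by
            rw [Real.rpow_add hX0, Real.rpow_one]
            congr 2
            ring
        _ ≤ Z * (X : ℝ) ^ ((18 : ℝ) * κ / 8) := by gcongr
  · rw [Real.rpow_one] at f4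
    have h5 : 8 * ((B₀ : ℝ) + 1) * E ≤ X := by
      calc 8 * ((B₀ : ℝ) + 1) * E ≤ 8 * ((B₀ : ℝ) + 1) * (X : ℝ) ^ (1 / 2 + 101 / 100 * κ) := by
            gcongr
        _ ≤ X := f4
    have h6 : 0 < ((B₀ : ℝ) + 1) * E := by positivity
    linarith

end Pool.Agent.LSP
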