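import Pool.Agent.Lib_helper41.LSP.Defs
import Pool.Agent.Lib_helper31.LSP.DefsO

/-! LSP, glue: small lemmas. -/

set_option autoImplicit false

namespace Pool.Agent.LSP

open Finset
open Pool.Agent.LSPO (ODg GOK)

theorem glue_od (ρ : ℝ → ℝ) (B E : ℕ) (x : ℕ → ℝ) (N : ℕ) :
    OD ρ B E x N = ODg (CC E x) (GG ρ) (E ^ 2) (Gs B E) N := rfl

/-- the kernel has the properties used in part O -/
theorem glue_gok {ρ : ℝ → ℝ} {T c₁ c₂ : ℝ} (hc₁ : 0 < c₁) (hc₂ : 0 < c₂)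
    (hs : ∀ u, 1 + T ^ 2 < |u| → GG ρ u = 0)
    (hb : ∀ u : ℝ, u ≠ 0 → u ≠ 1 →
      |GG ρ u| ≤ c₁ * (1 + |Real.log u| + |Real.log (1 - u)|))
    (hl : ∀ u v : ℝ, u ≠ 0 → u ≠ 1 → v ≠ 0 → v ≠ 1 → |GG ρ u - GG ρ v| ≤
      c₂ * |u - v| * (1 / |u| + 1 / |1 - u| + 1 / |v| + 1 / |1 - v|) ^ 3) :
    GOK (GG ρ) (1 + T ^ 2) (c₁ + c₂ + 1) where
  one_le := by nlinarith [sq_nonneg T]
  one_le' := by linarith
  supp := hs
  bd := by
    intro u h0 h1
    refine (hb u h0 h1).trans ?_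
    rw [Real.log_abs, Real.log_abs]
    have h2 : 0 ≤ 1 + |Real.log u| + |Real.log (1 - u)| := by positivity
    nlinarith
  lip := by
    intro u v h0 h1 h2 h3
    refine (hl u v h0 h1 h2 h3).trans ?_
    simp only [one_div]
    have h4 : 0 ≤ |u - v| * (|u|⁻¹ + |1 - u|⁻¹ + |v|⁻¹ + |1 - v|⁻¹) ^ 3 := by positivity
    nlinarith

/-- a prime larger than `E` does not divide the `n` with `C(n) ≠ 0` -/
theorem glue_dvd {E : ℕ} {x : ℕ → ℝ} (hx : ∀ e, x e ≠ 0 → 1 ≤ e ∧ e ≤ E) {N n : ℕ} (hN : N.Prime)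
    (hE : E < N) (hn : N ∣ n) : CC E x n = 0 := by
  unfold CC
  apply Finset.sum_eq_zero
  intro j hj
  have hj1 := (Finset.mem_Icc.1 hj).1
  apply mul_eq_zero_of_right
  apply Finset.sum_eq_zero
  intro p hp
  obtain ⟨h1, h2⟩ := Nat.mem_divisorsAntidiagonal.1 hp
  rw [← h1] at hn
  have key : ∀ a : ℕ, a ≠ 0 → N ∣ a → x (j * a) = 0 := by
    intro a ha h
    by_contra h3
    have h4 := (hx _ h3).2
    have h5 := Nat.le_of_dvd (Nat.pos_of_ne_zero ha) h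
    have h6 : a ≤ j * a := Nat.le_mul_of_pos_left a hj1
    omega
  have hne : p.1 * p.2 ≠ 0 := by rw [h1]; exact h2
  rcases (Nat.Prime.dvd_mul hN).1 hn with h | h
  · rw [key p.1 (left_ne_zero_of_mul hne) h]; simp
  · rw [key p.2 (right_ne_zero_of_mul hne) h]; simp

/-- `C(n) = 0` for `n > E²` -/
theorem glue_supp {E : ℕ} {x : ℕ → ℝ} (hx : ∀ e, x e ≠ 0 → 1 ≤ e ∧ e ≤ E) {n : ℕ}
    (hn : E ^ 2 < n) : CC E x n = 0 := by
  unfold CC
  apply Finset.sum_eq_zero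
  intro j hj
  have hj1 := (Finset.mem_Icc.1 hj).1
  apply mul_eq_zero_of_right
  apply Finset.sum_eq_zero
  intro p hp
  obtain ⟨h1, h2⟩ := Nat.mem_divisorsAntidiagonal.1 hp
  have key : ∀ a : ℕ, E < a → x (j * a) = 0 := by
    intro a ha
    by_contra h3
    have h4 := (hx _ h3).2
    have h6 : a ≤ j * a := Nat.le_mul_of_pos_left a hj1
    omega
  have : E < p.1 ∨ E < p.2 := by
    by_contra h
    push Not at h
    have : p.1 * p.2 ≤ E * E := Nat.mul_le_mul h.1 h.2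
    rw [h1] at this
    nlinarith
  rcases this with h | h
  · rw [key p.1 h]; simp
  · rw [key p.2 h]; simp

/-- the primes of the window lie in `[X/2, 4X]` -/
theorem glue_range {X N : ℕ} {Z ε : ℝ} (hX : 1 ≤ X) (h1 : (X : ℝ) ≤ Z) (h2 : Z ≤ 2 * X)
    (hN : 1 ≤ N) (h : |Real.log ((N : ℝ) / Z)| ≤ ε) (hε : ε ≤ 1 / 2) :
    X ≤ 2 * N ∧ N ≤ 4 * X := by
  have hX0 : (1 : ℝ) ≤ X := by exact_mod_cast hX
  have hZ : 0 < Z := by linarith
  have hN0 : (0 : ℝ) < N := by exact_mod_cast hN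
  have h3 := abs_le.1 (h.trans hε)
  have h4 : Real.log 2 > 1 / 2 := by have := Real.log_two_gt_d9; linarith
  have h5 : (N : ℝ) / Z ≤ 2 := by
    rw [← Real.log_le_log_iff (by positivity) (by norm_num)]
    linarith [h3.2]
  have h6 : 1 / 2 ≤ (N : ℝ) / Z := by
    rw [← Real.log_le_log_iff (by norm_num) (by positivity)]
    have : Real.log (1 / 2) = - Real.log 2 := by rw [one_div, Real.log_inv]
    rw [this]
    linarith [h3.1]
  rw [div_le_iff₀ hZ] at h5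
  rw [le_div_iff₀ hZ] at h6
  constructor
  · have : (X : ℝ) ≤ 2 * N := by linarith
    exact_mod_cast this
  · have : (N : ℝ) ≤ 4 * X := by linarith
    exact_mod_cast this

end Pool.Agent.LSP
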