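import Pool.Agent.Lib_helper53.LSPAF.Glue

/-! LSP: the weighted average of the off-diagonal over the primes of a short window, and
`arith_main`. -/

set_option autoImplicit false

namespace Pool.Agent.LSP

open Finset Filter
open Pool.Agent.LSPO (ODg GOK b1 Par finite_main weights_char)
open Pool.Agent.LSPP (CK ck_of_adm tau_le p_main)

/-- for large `X` some `n` with `X^(50 κ) ≤ n` has `n ^ 2 ≤ X^(124 κ)` -/
theorem glue_R {κ : ℝ} (h0 : 0 < κ) : ∀ᶠ X : ℕ in atTop,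
    (X : ℝ) ^ (50 * κ) ≤ (Nat.sqrt ⌊(X : ℝ) ^ (124 * κ)⌋₊ : ℝ) := by
  filter_upwards [glue_ev 4 (a := 100 * κ) (b := 124 * κ) (by linarith),
    eventually_ge_atTop 1] with X h1 h2
  have hX : (1 : ℝ) ≤ X := by exact_mod_cast h2
  have hX0 : (0 : ℝ) < X := by linarith
  have h3 : (1 : ℝ) ≤ (X : ℝ) ^ (50 * κ) := Real.one_le_rpow hX (by linarith)
  have h4 : (X : ℝ) ^ (50 * κ) ≤ (⌈(X : ℝ) ^ (50 * κ)⌉₊ : ℝ) := Nat.le_ceil _
  have h5 : (⌈(X : ℝ) ^ (50 * κ)⌉₊ : ℝ) < (X : ℝ) ^ (50 * κ) + 1 :=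
    Nat.ceil_lt_add_one (by positivity)
  have h6 : ⌈(X : ℝ) ^ (50 * κ)⌉₊ ≤ Nat.sqrt ⌊(X : ℝ) ^ (124 * κ)⌋₊ := by
    rw [Nat.le_sqrt', Nat.le_floor_iff (by positivity)]
    push_cast
    have h7 : (⌈(X : ℝ) ^ (50 * κ)⌉₊ : ℝ) ^ 2 ≤ (2 * (X : ℝ) ^ (50 * κ)) ^ 2 := by
      gcongr
      linarith
    refine h7.trans (le_trans (le_of_eq ?_) h1)
    rw [mul_pow, ← Real.rpow_natCast ((X : ℝ) ^ (50 * κ)), ← Real.rpow_mul hX0.le]
    norm_num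
    congr 1
    ring
  exact h4.trans (by exact_mod_cast h6)

/-- the weighted average of the off-diagonal over the primes of a short window -/
theorem avg_at {ρ : ℝ → ℝ} {U c κ : ℝ} (hG : GOK (GG ρ) U c) (h0 : 0 < κ) (h1 : κ ≤ 1 / 1000)
    {B₀ : ℕ} (hB : U ≤ B₀) (B B' : ℕ) : ∃ X₀ : ℕ, ∀ X : ℕ, X₀ ≤ X → ∀ (E : ℕ) (x : ℕ → ℝ),
    1 ≤ E → Adm κ B B' X E x → ∀ Z : ℝ, X ≤ Z → Z ≤ 2 * X → ∀ (P : Finset ℕ) (u : ℕ → ℝ),
      (∀ p ∈ P, p.Prime ∧ |Real.log ((p : ℝ) / Z)| ≤ (X : ℝ) ^ (-(16 * κ)) ∧ 0 < u p ∧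
        u p ≤ (X : ℝ) ^ (34 * κ) / X) → ∑ p ∈ P, u p = 1 →
      ∑ q ∈ Icc 1 ⌊(X : ℝ) ^ (124 * κ)⌋₊, ∑ χ ∈ GA.Prm q,
        ‖∑ p ∈ P, ((u p : ℝ) : ℂ) * χ (p : ZMod q)‖ ≤ 1 / 4 →
      (∀ p ∈ P, X ≤ 2 * p ∧ p ≤ 4 * X) ∧
      ∃ b : ℕ → ℝ, (∀ p ∈ P, 0 ≤ b p ∧ b p ≤ 2 * u p) ∧ ∑ p ∈ P, b p = 1 ∧
        |∑ p ∈ P, b p * OD ρ B₀ E x p - b1 (CC E x) (GG ρ) (E ^ 2) (Gs B₀ E)
          (2 * (B₀ + 1) * E) ((X : ℝ) ^ (-(4 * κ))) Z| ≤ (X : ℝ) ^ (-(κ / 8)) := by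
  obtain ⟨X1, hX1⟩ := glue_par hG h0 h1 hB B B'
  obtain ⟨X2, hX2⟩ := eventually_atTop.1 ((glue_R h0).and
    ((glue_ev 4 (a := 34 * κ) (b := 275 * κ / 8) (by linarith)).and
      ((glue_ev 4 (a := 124 * κ) (b := 1) (by linarith)).and
        (glue_ev 2 (a := 0) (b := 16 * κ) (by linarith)))))
  refine ⟨max (max X1 X2) 256, fun X hX E x hE hA Z hZ1 hZ2 P u hP hu1 hS => ?_⟩
  have g1 : X1 ≤ X := ((le_max_left _ _).trans (le_max_left _ _)).trans hX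
  have g2 : X2 ≤ X := ((le_max_right _ _).trans (le_max_left _ _)).trans hX
  have g3 : 256 ≤ X := (le_max_right _ _).trans hX
  obtain ⟨hpar, hDl⟩ := hX1 X g1 E x hE hA Z hZ1 hZ2
  obtain ⟨f1, f2, f3, f4⟩ := hX2 X g2
  rw [Real.rpow_one] at f3
  rw [Real.rpow_zero, mul_one] at f4
  have hXr : (256 : ℝ) ≤ X := by exact_mod_cast g3
  have hX0 : (0 : ℝ) < X := by linarith
  have hX1' : (1 : ℝ) ≤ X := by linarith
  have hZ0 : 0 < Z := by linarith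
  set D : ℕ := ⌊(X : ℝ) ^ (124 * κ)⌋₊ with hD
  set R : ℕ := Nat.sqrt D with hR
  have hR1 : 1 ≤ R := by
    have h2 : (1 : ℝ) ≤ R := (Real.one_le_rpow hX1' (by linarith : 0 ≤ 50 * κ)).trans f1
    exact_mod_cast h2
  have hRD : R ^ 2 ≤ D := by rw [hR]; exact Nat.sqrt_le' D
  have hDX : (D : ℝ) ≤ X / 4 := by
    have h2 : (D : ℝ) ≤ (X : ℝ) ^ (124 * κ) := Nat.floor_le (by positivity)
    linarith
  have hw : ∀ p ∈ P, X ≤ 2 * p ∧ p ≤ 4 * X := by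
    intro p hp
    obtain ⟨k1, k2, -, -⟩ := hP p hp
    refine glue_range (by omega) hZ1 hZ2 k1.one_le k2 ?_
    rw [Real.rpow_neg hX0.le, one_div]
    gcongr
  have hDlp : ∀ p ∈ P, 2 * (B₀ + 1) * E < p := by
    intro p hp
    have h2 : (X : ℝ) ≤ 2 * p := by exact_mod_cast (hw p hp).1
    have h3 : ((2 * (B₀ + 1) * E : ℕ) : ℝ) < p := by
      push_cast
      linarith
    exact_mod_cast h3
  have hpR : ∀ p ∈ P, p.Prime ∧ R ^ 2 < p := by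
    intro p hp
    refine ⟨(hP p hp).1, lt_of_le_of_lt hRD ?_⟩
    have h2 : (X : ℝ) ≤ 2 * p := by exact_mod_cast (hw p hp).1
    have h3 : (D : ℝ) < p := by linarith
    exact_mod_cast h3
  obtain ⟨b, hb, hb1, hv⟩ := weights_char hR1 hRD P hpR u (fun p hp => (hP p hp).2.2.1) hu1 hS
  refine ⟨hw, b, hb, hb1, ?_⟩
  have hY32 : (((X : ℝ) ^ (κ / 8)) ^ 32)⁻¹ = (X : ℝ) ^ (-(4 * κ)) := by
    rw [glue_pow hX0, Real.rpow_neg hX0.le]
    congr 2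
    push_cast
    ring
  have hfin := finite_main (R := R) hpar (Gs B₀ E) (fun g hg => (Finset.mem_erase.1 hg).1) P
    (fun p hp => ⟨(hP p hp).1, hDlp p hp, (hP p hp).2.1.trans ?_⟩)
    (fun p hp n hn hC hpn => hC (glue_dvd hA.supp (hP p hp).1 ?_ hpn)) b
    (fun p hp => ⟨(hb p hp).1, (hb p hp).2.trans ?_⟩) hb1 ?_ hv
  · rw [hY32] at hfin
    refine hfin.trans (le_of_eq ?_)
    rw [Real.rpow_neg hX0.le, one_div]
  · rw [glue_pow hX0, ← Real.rpow_neg hX0.le]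
    refine Real.rpow_le_rpow_of_exponent_le hX1' ?_
    push_cast
    linarith
  · have h2 := hDlp p hp
    have h3 : E ≤ 2 * (B₀ + 1) * E := Nat.le_mul_of_pos_left E (by positivity)
    omega
  · rw [glue_pow hX0]
    have h2 := (hP p hp).2.2.2
    calc 2 * u p ≤ 2 * ((X : ℝ) ^ (34 * κ) / X) := by gcongr
      _ = 4 * (X : ℝ) ^ (34 * κ) / (2 * X) := by field_simp; ring
      _ ≤ (X : ℝ) ^ (275 * κ / 8) / (2 * X) := by gcongr
      _ ≤ (X : ℝ) ^ (((275 : ℕ) : ℝ) * κ / 8) / Z := by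
        push_cast
        gcongr
  · rw [glue_pow hX0]
    refine le_trans (le_of_eq ?_) f1
    congr 1
    push_cast
    ring

/-- in a clean range some prime level has a small off-diagonal (parts O and P) -/
theorem arith_main {c₁ : ℝ} (h1 : 0 < c₁) : ∃ κ₀ : ℝ, 0 < κ₀ ∧ ∀ κ : ℝ, 0 < κ → κ ≤ κ₀ →
    ∀ {T : ℝ} {ρ : ℝ → ℝ}, KerL T ρ → ∀ {B₀ : ℕ}, 1 + T ^ 2 ≤ (B₀ : ℝ) → ∀ B : ℕ, ∃ B' : ℕ,
    ∀ δ : ℝ, 0 < δ → ∃ X₀ : ℕ, ∀ X : ℕ, X₀ ≤ X → GA.Good c₁ ⌊(X : ℝ) ^ (124 * κ)⌋₊ →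
    ∀ (E : ℕ) (x : ℕ → ℝ), Adm κ B B' X E x →
      ∃ N : ℕ, N.Prime ∧ X ≤ 2 * N ∧ N ≤ 4 * X ∧ OD ρ B₀ E x N ≤ δ := by
  obtain ⟨κ₁, hκ₁, hga⟩ := GA.gal_weights_final h1
  refine ⟨min κ₁ (1 / 1000), by positivity, fun κ h0 hκ T ρ hρ B₀ hB B => ?_⟩
  have hκ1 : κ ≤ κ₁ := hκ.trans (min_le_left _ _)
  have hκ2 : κ ≤ 1 / 1000 := hκ.trans (min_le_right _ _)
  obtain ⟨c, hG⟩ := gok_gg hρ
  obtain ⟨B', hB'⟩ := p_main hG (gg_anti_all hρ) hB B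
  refine ⟨B', fun δ hδ => ?_⟩
  obtain ⟨X1, hX1⟩ := hB' κ h0 hκ2 (δ / 2) (by linarith)
  obtain ⟨X2, hX2⟩ := hga κ h0 hκ1
  obtain ⟨X3, hX3⟩ := avg_at hG h0 hκ2 hB B B'
  obtain ⟨X4, hX4⟩ := eventually_atTop.1 (glue_ev (2 / δ) (a := 0) (b := κ / 8) (by linarith))
  refine ⟨max (max X1 X2) (max (max X3 X4) 2), fun X hX hgood E x hA => ?_⟩
  have g1 : X1 ≤ X := ((le_max_left _ _).trans (le_max_left _ _)).trans hX
  have g2 : X2 ≤ X := ((le_max_right _ _).trans (le_max_left _ _)).trans hX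
  have g3 : X3 ≤ X := ((le_max_left _ _).trans ((le_max_left _ _).trans (le_max_right _ _))).trans hX
  have g4 : X4 ≤ X :=
    ((le_max_right _ _).trans ((le_max_left _ _).trans (le_max_right _ _))).trans hX
  have g5 : 2 ≤ X := ((le_max_right _ _).trans (le_max_right _ _)).trans hX
  rcases Nat.eq_zero_or_pos E with hE | hE
  · obtain ⟨p, hp, hp1, hp2⟩ := Nat.exists_prime_lt_and_le_two_mul X (by omega)
    refine ⟨p, hp, by omega, by omega, ?_⟩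
    unfold OD
    rw [hE]
    simpa using hδ.le
  · have hXr : (2 : ℝ) ≤ X := by exact_mod_cast g5
    have hX0 : (0 : ℝ) < X := by linarith
    have hX1' : (1 : ℝ) ≤ X := by linarith
    obtain ⟨Z, hZ1, hZ2, hZ⟩ := hX1 X g1 E x hA
    obtain ⟨P, u, hP, hu1, hS⟩ := hX2 X g2 hgood Z hZ1 hZ2
    have e1 : ((X : ℝ) ^ κ) ^ (34 : ℝ) = (X : ℝ) ^ (34 * κ) := by
      rw [← Real.rpow_mul hX0.le, mul_comm]
    have e2 : ((X : ℝ) ^ κ) ^ (-33 : ℝ) = (X : ℝ) ^ (-33 * κ) := by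
      rw [← Real.rpow_mul hX0.le, mul_comm]
    have hP' : ∀ p ∈ P, p.Prime ∧ |Real.log ((p : ℝ) / Z)| ≤ (X : ℝ) ^ (-(16 * κ)) ∧ 0 < u p ∧
        u p ≤ (X : ℝ) ^ (34 * κ) / X := by
      intro p hp
      obtain ⟨k1, k2, k3, k4⟩ := hP p hp
      rw [e1] at k4
      rw [e2] at k2
      exact ⟨k1, k2.trans (Real.rpow_le_rpow_of_exponent_le hX1' (by linarith)), k3, k4⟩
    obtain ⟨hw, b, hb, hb1, hav⟩ := hX3 X g3 E x hE hA Z hZ1 hZ2 P u hP' hu1 hS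
    have f4 := hX4 X g4
    rw [Real.rpow_zero, mul_one] at f4
    have hY : (X : ℝ) ^ (-(κ / 8)) ≤ δ / 2 := by
      rw [Real.rpow_neg hX0.le, inv_le_comm₀ (by positivity) (by positivity)]
      refine le_trans (le_of_eq ?_) f4
      rw [inv_div]
    have hsum : ∑ p ∈ P, b p * OD ρ B₀ E x p ≤ δ := by
      have := (abs_le.1 hav).2
      linarith
    have hex : ∃ p ∈ P, OD ρ B₀ E x p ≤ δ := by
      by_contra hcon
      push Not at hcon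
      have hlt : ∑ p ∈ P, b p * δ < ∑ p ∈ P, b p * OD ρ B₀ E x p := by
        apply Finset.sum_lt_sum
        · intro p hp
          exact mul_le_mul_of_nonneg_left (hcon p hp).le (hb p hp).1
        · by_contra hno
          push Not at hno
          have hz : ∀ p ∈ P, b p = 0 := by
            intro p hp
            by_contra hne
            have hpos : 0 < b p := lt_of_le_of_ne (hb p hp).1 (Ne.symm hne)
            have h6 := hno p hp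
            have h7 := mul_lt_mul_of_pos_left (hcon p hp) hpos
            linarith
          rw [Finset.sum_eq_zero hz] at hb1
          exact zero_ne_one hb1
      rw [← Finset.sum_mul, hb1, one_mul] at hlt
      linarith
    obtain ⟨p, hp, hpO⟩ := hex
    exact ⟨p, (hP' p hp).1, (hw p hp).1, (hw p hp).2, hpO⟩

end Pool.Agent.LSP
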