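import Pool.Agent.Lib_helper53.LSPAF.Base

set_option autoImplicit false

namespace Pool.Agent.LSP

open Pool.Agent.LEV Pool.Agent.LVB Pool.Agent.KSL
open Pool.Agent.FG61 (mu phi cc ff AA Lam)
open Finset

theorem la1_mulog {n : ℕ} (hn : 0 < n) :
    mu n * Real.log n = - ∑ p ∈ n.divisorsAntidiagonal, mu p.1 * Lam p.2 := by
  have h := (ArithmeticFunction.sum_eq_iff_sum_mul_moebius_eq (R := ℝ)
    (f := fun n => mu n * Real.log n) (g := fun n => - Lam n)).1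
    (fun n _ => ArithmeticFunction.sum_moebius_mul_log_eq) n hn
  change _ = mu n * Real.log n at h
  rw [← h, ← Finset.sum_neg_distrib]
  exact Finset.sum_congr rfl (fun p _ => by simp [mu, Lam])

theorem la1_ms (x : ℝ) : MS 1 x = ∑ n ∈ Icc 1 ⌊x⌋₊, mu n := by
  unfold MS
  rw [Finset.filter_true_of_mem]
  intro n _
  exact Nat.coprime_one_right n

theorem la1_hyper (f g : ℕ → ℝ) {x U : ℝ} (hU : 1 ≤ U) (hx : U ≤ x) :
    ∑ d ∈ Icc 1 ⌊x⌋₊, f d * ∑ m ∈ Icc 1 ⌊x / d⌋₊, g m =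
      ∑ d ∈ Icc 1 ⌊x / U⌋₊, f d * ∑ m ∈ Icc 1 ⌊x / d⌋₊, g m +
      ∑ m ∈ Icc 1 ⌊U⌋₊, g m * ∑ d ∈ Ioc ⌊x / U⌋₊ ⌊x / m⌋₊, f d := by
  have hU0 : 0 < U := by linarith
  have hx0 : 0 < x := by linarith
  have hDN : ⌊x / U⌋₊ ≤ ⌊x⌋₊ := Nat.floor_le_floor (div_le_self hx0.le hU)
  have hsplit : Icc 1 ⌊x⌋₊ = Icc 1 ⌊x / U⌋₊ ∪ Ioc ⌊x / U⌋₊ ⌊x⌋₊ := by
    ext d
    simp only [mem_Icc, mem_union, mem_Ioc]
    omega
  have hdisj : Disjoint (Icc 1 ⌊x / U⌋₊) (Ioc ⌊x / U⌋₊ ⌊x⌋₊) := by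
    rw [Finset.disjoint_left]
    intro d h1 h2
    simp only [mem_Icc, mem_Ioc] at h1 h2
    omega
  rw [hsplit, sum_union hdisj]
  congr 1
  simp_rw [mul_sum]
  rw [sum_comm' (t' := Icc 1 ⌊U⌋₊) (s' := fun m => Ioc ⌊x / U⌋₊ ⌊x / m⌋₊)]
  · exact sum_congr rfl (fun m _ => sum_congr rfl (fun d _ => mul_comm _ _))
  · intro d m
    simp only [mem_Icc, mem_Ioc]
    constructor
    · rintro ⟨⟨h1, h2⟩, h3, h4⟩
      have hd : 0 < (d : ℝ) := by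
        have : 0 < d := by omega
        exact_mod_cast this
      have hm : 0 < (m : ℝ) := by
        have : 0 < m := by omega
        exact_mod_cast this
      have h5 : x / U < d := Nat.lt_of_floor_lt h1
      have h6 : (m : ℝ) ≤ x / d := (Nat.le_floor_iff (by positivity)).1 h4
      have h7 : (m : ℝ) ≤ U := by
        have : x < d * U := (div_lt_iff₀ hU0).1 h5
        have h8 : (m : ℝ) * d ≤ x := (le_div_iff₀ hd).1 h6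
        have h9 : (m : ℝ) * d < U * d := by linarith [mul_comm (d : ℝ) U]
        exact (lt_of_mul_lt_mul_right h9 hd.le).le
      refine ⟨⟨h1, ?_⟩, h3, Nat.le_floor h7⟩
      refine Nat.le_floor ?_
      rw [le_div_iff₀ hm, mul_comm]
      exact (le_div_iff₀ hd).1 h6
    · rintro ⟨⟨h1, h2⟩, h3, h4⟩
      have hd : 0 < (d : ℝ) := by
        have : 0 < d := by omega
        exact_mod_cast this
      have hm : 0 < (m : ℝ) := by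
        have : 0 < m := by omega
        exact_mod_cast this
      have h6 : (d : ℝ) ≤ x / m := (Nat.le_floor_iff (by positivity)).1 h2
      have h8 : (d : ℝ) * m ≤ x := (le_div_iff₀ hm).1 h6
      refine ⟨⟨h1, ?_⟩, h3, ?_⟩
      · refine Nat.le_floor (h6.trans (div_le_self hx0.le ?_))
        exact_mod_cast h3
      · refine Nat.le_floor ?_
        rw [le_div_iff₀ hd, mul_comm]
        exact h8

theorem la1_prod {F G : ArithmeticFunction ℝ} {x : ℝ} :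
    ∑ n ∈ Icc 1 ⌊x⌋₊, (F * G) n = ∑ d ∈ Icc 1 ⌊x⌋₊, F d * ∑ m ∈ Icc 1 ⌊x / d⌋₊, G m := by
  have h := ArithmeticFunction.sum_Ioc_mul_eq_sum_sum F G ⌊x⌋₊
  have e : ∀ N : ℕ, Ioc 0 N = Icc 1 N := by
    intro N; ext n; simp only [mem_Ioc, mem_Icc]; omega
  simp only [e] at h
  rw [h]
  refine sum_congr rfl (fun d _ => ?_)
  rw [Nat.floor_div_natCast]

theorem ms_ident {x U : ℝ} (hU : 1 ≤ U) (hx : U ≤ x) :
    ∑ n ∈ Icc 1 ⌊x⌋₊, mu n * Real.log n =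
      -1 - ∑ d ∈ Icc 1 ⌊x / U⌋₊, mu d * ∑ m ∈ Icc 1 ⌊x / d⌋₊, (Lam m - 1) -
        ∑ m ∈ Icc 1 ⌊U⌋₊, (Lam m - 1) * (MS 1 (x / m) - MS 1 (x / U)) := by
  have hU0 : 0 < U := by linarith
  have hx0 : 0 < x := by linarith
  have hx1 : 1 ≤ ⌊x⌋₊ := Nat.le_floor (by push_cast; linarith)
  have h1 : ∑ n ∈ Icc 1 ⌊x⌋₊, mu n * Real.log n =
      - ∑ d ∈ Icc 1 ⌊x⌋₊, mu d * ∑ m ∈ Icc 1 ⌊x / d⌋₊, Lam m := by
    have h := la1_prod (F := (ArithmeticFunction.moebius : ArithmeticFunction ℝ))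
      (G := ArithmeticFunction.vonMangoldt) (x := x)
    have h2 : ∑ d ∈ Icc 1 ⌊x⌋₊, mu d * ∑ m ∈ Icc 1 ⌊x / d⌋₊, Lam m =
        ∑ d ∈ Icc 1 ⌊x⌋₊, (ArithmeticFunction.moebius : ArithmeticFunction ℝ) d *
          ∑ m ∈ Icc 1 ⌊x / d⌋₊, ArithmeticFunction.vonMangoldt m := by
      refine sum_congr rfl (fun d _ => ?_)
      simp [mu]
    rw [h2, ← h, ← sum_neg_distrib]
    refine sum_congr rfl (fun n hn => ?_)
    rw [la1_mulog (by simp only [mem_Icc] at hn; omega), ArithmeticFunction.mul_apply]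
    congr 1
  have h2 : ∑ d ∈ Icc 1 ⌊x⌋₊, mu d * ∑ m ∈ Icc 1 ⌊x / d⌋₊, (1 : ℝ) = 1 := by
    have h := la1_prod (F := (ArithmeticFunction.moebius : ArithmeticFunction ℝ))
      (G := (ArithmeticFunction.zeta : ArithmeticFunction ℝ)) (x := x)
    have h3 : ∑ d ∈ Icc 1 ⌊x⌋₊, mu d * ∑ m ∈ Icc 1 ⌊x / d⌋₊, (1 : ℝ) =
        ∑ d ∈ Icc 1 ⌊x⌋₊, (ArithmeticFunction.moebius : ArithmeticFunction ℝ) d *
          ∑ m ∈ Icc 1 ⌊x / d⌋₊, (ArithmeticFunction.zeta : ArithmeticFunction ℝ) m := by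
      refine sum_congr rfl (fun d _ => ?_)
      have h4 : ∑ m ∈ Icc 1 ⌊x / d⌋₊, (ArithmeticFunction.zeta : ArithmeticFunction ℝ) m =
          ∑ m ∈ Icc 1 ⌊x / d⌋₊, (1 : ℝ) := by
        refine sum_congr rfl (fun m hm => ?_)
        have : m ≠ 0 := by simp only [mem_Icc] at hm; omega
        simp [this]
      rw [h4]
      simp [mu]
    rw [h3, ← h, ArithmeticFunction.coe_moebius_mul_coe_zeta]
    rw [sum_eq_single_of_mem 1 (by simp only [mem_Icc]; omega)]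
    · simp
    · intro n _ hn1
      simp [ArithmeticFunction.one_apply_ne hn1]
  have h3 : ∑ d ∈ Icc 1 ⌊x⌋₊, mu d * ∑ m ∈ Icc 1 ⌊x / d⌋₊, (Lam m - 1) =
      ∑ d ∈ Icc 1 ⌊x⌋₊, mu d * ∑ m ∈ Icc 1 ⌊x / d⌋₊, Lam m - 1 := by
    have e1 : ∑ d ∈ Icc 1 ⌊x⌋₊, mu d * ∑ m ∈ Icc 1 ⌊x / d⌋₊, (Lam m - 1) =
        ∑ d ∈ Icc 1 ⌊x⌋₊, mu d * ∑ m ∈ Icc 1 ⌊x / d⌋₊, Lam m -
          ∑ d ∈ Icc 1 ⌊x⌋₊, mu d * ∑ m ∈ Icc 1 ⌊x / d⌋₊, (1 : ℝ) := by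
      rw [← sum_sub_distrib]
      refine sum_congr rfl (fun d _ => ?_)
      rw [sum_sub_distrib, mul_sub]
    rw [e1, h2]
  have h4 := la1_hyper mu (fun m => Lam m - 1) hU hx
  have h5 : ∑ m ∈ Icc 1 ⌊U⌋₊, (Lam m - 1) * ∑ d ∈ Ioc ⌊x / U⌋₊ ⌊x / m⌋₊, mu d =
      ∑ m ∈ Icc 1 ⌊U⌋₊, (Lam m - 1) * (MS 1 (x / m) - MS 1 (x / U)) := by
    refine sum_congr rfl (fun m hm => ?_)
    rw [la1_ms, la1_ms]
    have hm' := mem_Icc.1 hm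
    have hm0 : 0 < (m : ℝ) := by exact_mod_cast hm'.1
    have hmU : (m : ℝ) ≤ U := (Nat.le_floor_iff hU0.le).1 hm'.2
    have hle : ⌊x / U⌋₊ ≤ ⌊x / m⌋₊ :=
      Nat.floor_le_floor (div_le_div_of_nonneg_left hx0.le hm0 hmU)
    congr 1
    have hs : Icc 1 ⌊x / m⌋₊ = Icc 1 ⌊x / U⌋₊ ∪ Ioc ⌊x / U⌋₊ ⌊x / m⌋₊ := by
      ext d
      simp only [mem_Icc, mem_union, mem_Ioc]
      omega
    have hd : Disjoint (Icc 1 ⌊x / U⌋₊) (Ioc ⌊x / U⌋₊ ⌊x / m⌋₊) := by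
      rw [Finset.disjoint_left]
      intro d h1 h2
      simp only [mem_Icc, mem_Ioc] at h1 h2
      omega
    rw [hs, sum_union hd]
    ring
  rw [h1]
  have h6 : ∑ d ∈ Icc 1 ⌊x⌋₊, mu d * ∑ m ∈ Icc 1 ⌊x / d⌋₊, Lam m =
      1 + (∑ d ∈ Icc 1 ⌊x / U⌋₊, mu d * ∑ m ∈ Icc 1 ⌊x / d⌋₊, (Lam m - 1) +
        ∑ m ∈ Icc 1 ⌊U⌋₊, (Lam m - 1) * (MS 1 (x / m) - MS 1 (x / U))) := by
    rw [← h5, ← h4, h3]; ring
  rw [h6]; ring

example : type_of% @ms_ident := @ms_ident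

end Pool.Agent.LSP
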