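import Pool.Agent.Lib_helper53.LSPAF.Base

/-!
# LSP, part A, block LA10: divisor sums
-/

set_option autoImplicit false

namespace Pool.Agent.LSP

open Pool.Agent.LEV Pool.Agent.LVB Pool.Agent.KSL
open Pool.Agent.FG61 (mu phi cc ff AA Lam)
open Finset

theorem la10_tau_nonneg (n : ℕ) : 0 ≤ tau n := by
  unfold tau
  exact Nat.cast_nonneg _

theorem la_tau_one {n : ℕ} (hn : 1 ≤ n) : 1 ≤ tau n := by
  unfold tau
  have h : 0 < n.divisors.card := Finset.card_pos.mpr ⟨1, Nat.one_mem_divisors.mpr (by omega)⟩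
  exact_mod_cast h

theorem la_tau_mul {m n : ℕ} (hm : 1 ≤ m) (hn : 1 ≤ n) : tau (m * n) ≤ tau m * tau n := by
  unfold tau
  have _ := hm
  have _ := hn
  rw [Nat.divisors_mul]
  exact_mod_cast Finset.card_mul_le

theorem la_gcd_mul (c m n : ℕ) (hc : 1 ≤ c) :
    Nat.gcd c (m * n) ≤ Nat.gcd c m * Nat.gcd c n := by
  apply Nat.le_of_dvd
  · exact Nat.mul_pos (Nat.gcd_pos_of_pos_left _ (by omega)) (Nat.gcd_pos_of_pos_left _ (by omega))
  · exact Nat.gcd_mul_right_dvd_mul_gcd c m n

/-- regrouping of a sum over pairs `(n, d)` with `d ∣ n` -/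
theorem la10_regroup (x : ℕ) (S : Finset ℕ) (F : ℕ → ℕ → ℝ) (hF : ∀ d m, 0 ≤ F d m)
    (D : ℕ → Finset ℕ) (hD : ∀ n, ∀ d ∈ D n, d ∣ n ∧ d ∈ S) :
    ∑ n ∈ Icc 1 x, ∑ d ∈ D n, F d (n / d) ≤ ∑ d ∈ S, ∑ m ∈ Icc 1 x, F d m := by
  rw [← Finset.sum_product', Finset.sum_sigma']
  have hinj : Set.InjOn (fun a : (Σ _ : ℕ, ℕ) => (a.2, a.1 / a.2))
      (((Icc 1 x).sigma D : Finset (Σ _ : ℕ, ℕ)) : Set (Σ _ : ℕ, ℕ)) := by
    rintro ⟨n, d⟩ hn ⟨n', d'⟩ hn' h
    simp only [Finset.coe_sigma, Set.mem_sigma_iff, Finset.mem_coe] at hn hn'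
    simp only [Prod.mk.injEq] at h
    obtain ⟨h1, h2⟩ := h
    subst h1
    have e1 := Nat.div_mul_cancel (hD n d hn.2).1
    have e2 := Nat.div_mul_cancel (hD n' d hn'.2).1
    have : n = n' := by rw [← e1, ← e2, h2]
    subst this
    rfl
  calc ∑ a ∈ (Icc 1 x).sigma D, F a.2 (a.1 / a.2)
      = ∑ b ∈ ((Icc 1 x).sigma D).image (fun a : (Σ _ : ℕ, ℕ) => (a.2, a.1 / a.2)), F b.1 b.2 := by
        rw [Finset.sum_image hinj]
    _ ≤ ∑ b ∈ S ×ˢ Icc 1 x, F b.1 b.2 := by
        apply Finset.sum_le_sum_of_subset_of_nonneg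
        · intro b hb
          rw [Finset.mem_image] at hb
          obtain ⟨⟨n, d⟩, hnd, rfl⟩ := hb
          rw [Finset.mem_sigma, Finset.mem_Icc] at hnd
          obtain ⟨⟨hn1, hn2⟩, hd⟩ := hnd
          replace hn1 : 1 ≤ n := hn1
          replace hn2 : n ≤ x := hn2
          replace hd : d ∈ D n := hd
          have hdd := hD n d hd
          rw [Finset.mem_product]
          refine ⟨hdd.2, ?_⟩
          rw [Finset.mem_Icc]
          have hdpos : 0 < d := Nat.pos_of_dvd_of_pos hdd.1 (by omega)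
          have hq : 1 ≤ n / d := Nat.div_pos (Nat.le_of_dvd (by omega) hdd.1) hdpos
          exact ⟨hq, le_trans (Nat.div_le_self _ _) hn2⟩
        · intro b _ _
          exact hF _ _

theorem la10_harm (x : ℕ) (hx : 1 ≤ x) : ∑ n ∈ Icc 1 x, (1 : ℝ) / n ≤ 1 + Real.log x := by
  have h := harmonic_le_one_add_log x
  rw [harmonic_eq_sum_Icc] at h
  push_cast at h
  have _ := hx
  simpa [one_div] using h

theorem la_tau_sum (C x : ℕ) (hx : 1 ≤ x) :
    ∑ n ∈ Icc 1 x, tau n ^ C / n ≤ (1 + Real.log x) ^ (2 ^ C) := by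
  induction C with
  | zero => simpa using la10_harm x hx
  | succ C ih =>
    have h0 : 0 ≤ ∑ n ∈ Icc 1 x, tau n ^ C / n :=
      Finset.sum_nonneg fun n _ => div_nonneg (pow_nonneg (la10_tau_nonneg n) _) (Nat.cast_nonneg _)
    calc ∑ n ∈ Icc 1 x, tau n ^ (C + 1) / n
        ≤ ∑ n ∈ Icc 1 x, ∑ d ∈ n.divisors,
            (tau d ^ C / d) * (tau (n / d) ^ C / ((n / d : ℕ) : ℝ)) := by
          apply Finset.sum_le_sum
          intro n hn
          rw [Finset.mem_Icc] at hn
          have e : tau n ^ (C + 1) / n = ∑ d ∈ n.divisors, tau n ^ C / n := by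
            rw [Finset.sum_const, nsmul_eq_mul, pow_succ]
            unfold tau
            ring
          rw [e]
          apply Finset.sum_le_sum
          intro d hd
          have hdn := Nat.dvd_of_mem_divisors hd
          have hdpos : 0 < d := Nat.pos_of_dvd_of_pos hdn (by omega)
          have hq : 1 ≤ n / d := Nat.div_pos (Nat.le_of_dvd (by omega) hdn) hdpos
          have e2 : d * (n / d) = n := Nat.mul_div_cancel' hdn
          have h3 : tau n ≤ tau d * tau (n / d) := by
            have := la_tau_mul (m := d) (n := n / d) hdpos hq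
            rwa [e2] at this
          have h4 : tau n ^ C ≤ tau d ^ C * tau (n / d) ^ C := by
            rw [← mul_pow]
            exact pow_le_pow_left₀ (la10_tau_nonneg n) h3 C
          have h5 : ((d : ℝ) * ((n / d : ℕ) : ℝ)) = (n : ℝ) := by exact_mod_cast e2
          rw [div_mul_div_comm, h5]
          exact div_le_div_of_nonneg_right h4 (Nat.cast_nonneg _)
    _ ≤ ∑ d ∈ Icc 1 x, ∑ m ∈ Icc 1 x, (tau d ^ C / d) * (tau m ^ C / (m : ℝ)) := by
          have hle := la10_regroup x (Icc 1 x)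
            (fun d m => (tau d ^ C / d) * (tau m ^ C / (m : ℝ)))
            (fun d m => mul_nonneg
              (div_nonneg (pow_nonneg (la10_tau_nonneg d) _) (Nat.cast_nonneg _))
              (div_nonneg (pow_nonneg (la10_tau_nonneg m) _) (Nat.cast_nonneg _)))
            (fun n => if n ≤ x then n.divisors else ∅) ?_
          · refine le_trans (le_of_eq ?_) hle
            apply Finset.sum_congr rfl
            intro n hn
            rw [Finset.mem_Icc] at hn
            simp only [if_pos hn.2]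
          · intro n d hd
            by_cases hnx : n ≤ x
            · simp only [if_pos hnx] at hd
              have hdn := Nat.dvd_of_mem_divisors hd
              refine ⟨hdn, ?_⟩
              rw [Finset.mem_Icc]
              have hn0 : n ≠ 0 := (Nat.mem_divisors.mp hd).2
              exact ⟨Nat.pos_of_dvd_of_pos hdn (by omega),
                le_trans (Nat.le_of_dvd (by omega) hdn) hnx⟩
            · simp only [if_neg hnx] at hd
              exact absurd hd (Finset.notMem_empty _)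
    _ = (∑ n ∈ Icc 1 x, tau n ^ C / n) ^ 2 := by
          rw [sq, Finset.sum_mul_sum]
    _ ≤ ((1 + Real.log x) ^ (2 ^ C)) ^ 2 := pow_le_pow_left₀ h0 ih 2
    _ = (1 + Real.log x) ^ (2 ^ (C + 1)) := by
          rw [← pow_mul, pow_succ]

theorem la_gcd_sum (C x c : ℕ) (hx : 1 ≤ x) (hc : 1 ≤ c) :
    ∑ n ∈ Icc 1 x, tau n ^ C * Nat.gcd c n / n ≤
      tau c ^ (C + 1) * (1 + Real.log x) ^ (2 ^ C) := by
  have h0 : 0 ≤ ∑ n ∈ Icc 1 x, tau n ^ C / n :=
    Finset.sum_nonneg fun n _ => div_nonneg (pow_nonneg (la10_tau_nonneg n) _) (Nat.cast_nonneg _)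
  calc ∑ n ∈ Icc 1 x, tau n ^ C * Nat.gcd c n / n
      ≤ ∑ n ∈ Icc 1 x, ∑ d ∈ ({Nat.gcd c n} : Finset ℕ),
          tau d ^ C * (tau (n / d) ^ C / ((n / d : ℕ) : ℝ)) := by
        apply Finset.sum_le_sum
        intro n hn
        rw [Finset.mem_Icc] at hn
        rw [Finset.sum_singleton]
        set g := Nat.gcd c n with hg
        have hgn : g ∣ n := Nat.gcd_dvd_right _ _
        have hgpos : 0 < g := Nat.pos_of_dvd_of_pos hgn (by omega)
        have hq : 1 ≤ n / g := Nat.div_pos (Nat.le_of_dvd (by omega) hgn) hgpos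
        have e2 : g * (n / g) = n := Nat.mul_div_cancel' hgn
        have h3 : tau n ≤ tau g * tau (n / g) := by
          have := la_tau_mul (m := g) (n := n / g) hgpos hq
          rwa [e2] at this
        have h4 : tau n ^ C ≤ tau g ^ C * tau (n / g) ^ C := by
          rw [← mul_pow]
          exact pow_le_pow_left₀ (la10_tau_nonneg n) h3 C
        have h5 : ((g : ℝ) * ((n / g : ℕ) : ℝ)) = (n : ℝ) := by exact_mod_cast e2
        have hg0 : (g : ℝ) ≠ 0 := by exact_mod_cast hgpos.ne'
        have hq0 : (((n / g : ℕ) : ℝ)) ≠ 0 := by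
          have : n / g ≠ 0 := by omega
          exact_mod_cast this
        have e3 : tau n ^ C * (g : ℝ) / n = tau n ^ C / ((n / g : ℕ) : ℝ) := by
          rw [← h5]
          field_simp
        rw [e3, ← mul_div_assoc]
        exact div_le_div_of_nonneg_right h4 (Nat.cast_nonneg _)
    _ ≤ ∑ d ∈ c.divisors, ∑ m ∈ Icc 1 x, tau d ^ C * (tau m ^ C / (m : ℝ)) := by
        apply la10_regroup x c.divisors (fun d m => tau d ^ C * (tau m ^ C / (m : ℝ)))
          (fun d m => mul_nonneg (pow_nonneg (la10_tau_nonneg d) _)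
            (div_nonneg (pow_nonneg (la10_tau_nonneg m) _) (Nat.cast_nonneg _)))
          (fun n => ({Nat.gcd c n} : Finset ℕ))
        intro n d hd
        rw [Finset.mem_singleton] at hd
        subst hd
        exact ⟨Nat.gcd_dvd_right _ _, Nat.mem_divisors.mpr ⟨Nat.gcd_dvd_left _ _, by omega⟩⟩
    _ = (∑ d ∈ c.divisors, tau d ^ C) * ∑ m ∈ Icc 1 x, tau m ^ C / (m : ℝ) := by
        rw [Finset.sum_mul_sum]
    _ ≤ tau c ^ (C + 1) * (1 + Real.log x) ^ (2 ^ C) := by
        apply mul_le_mul _ (la_tau_sum C x hx) h0 (pow_nonneg (la10_tau_nonneg c) _)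
        calc ∑ d ∈ c.divisors, tau d ^ C ≤ ∑ _d ∈ c.divisors, tau c ^ C := by
              apply Finset.sum_le_sum
              intro d hd
              apply pow_le_pow_left₀ (la10_tau_nonneg d)
              unfold tau
              exact_mod_cast Finset.card_le_card
                (Nat.divisors_subset_of_dvd (by omega) (Nat.dvd_of_mem_divisors hd))
          _ = tau c ^ (C + 1) := by
              rw [Finset.sum_const, nsmul_eq_mul, pow_succ]
              unfold tau
              ring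

end Pool.Agent.LSP
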