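import Pool.Agent.Lib_helper53.LSPAF.LA9
import Pool.Agent.Lib_helper53.LSPAF.LA10

/-! LSP, part A, block LA11: the coefficients of the mollifier against Ramanujan sums. -/

set_option autoImplicit false

namespace Pool.Agent.LSP

open Pool.Agent.LEV Pool.Agent.LVB Pool.Agent.KSL
open Pool.Agent.FG61 (mu phi cc ff AA Lam)
open Finset

theorem la11_smooth_mul {z a b : ℕ} (ha : smooth z a) (hb : smooth z b) : smooth z (a * b) := by
  refine ⟨mul_ne_zero ha.1 hb.1, fun p hp h => ?_⟩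
  rcases hp.dvd_mul.mp h with h | h
  · exact ha.2 p hp h
  · exact hb.2 p hp h

theorem la11_rough_mul {z a b : ℕ} (ha : rough z a) (hb : rough z b) : rough z (a * b) := by
  intro p hp h
  rcases hp.dvd_mul.mp h with h | h
  · exact ha p hp h
  · exact hb p hp h

theorem la11_split {z j m : ℕ} (hj : 1 ≤ j) (hm : 1 ≤ m) :
    smp z (j * m) = smp z j * smp z m ∧ rop z (j * m) = rop z j * rop z m := by
  obtain ⟨a1, a2, a3, a4, a5⟩ := smp_rop (z := z) hj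
  obtain ⟨b1, b2, b3, b4, b5⟩ := smp_rop (z := z) hm
  have h := smp_mul (la11_smooth_mul a3 b3) (la11_rough_mul a4 b4) (Nat.mul_pos a5 b5)
  have e : smp z j * smp z m * (rop z j * rop z m) = j * m := by
    calc smp z j * smp z m * (rop z j * rop z m) =
        (smp z j * rop z j) * (smp z m * rop z m) := by ring
      _ = j * m := by rw [a1, b1]
  rwa [e] at h

/-- the terms with given smooth and rough parts -/
noncomputable def la11_T (z M : ℕ) (a : ℕ → ℝ) (j b c s r : ℕ) : ℝ :=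
  a (smp z j * s) * Real.sqrt (smp z j * s : ℕ) * xr z M 2 (rop z j * r) / (s * r) *
    cc c (s * r * b)

theorem la11_xX {z M : ℕ} (a : ℕ → ℝ) {j m : ℕ} (hj : 1 ≤ j) (hm : 1 ≤ m) (b c : ℕ) :
    xX z M 2 a (j * m) / m * cc c (m * b) =
      la11_T z M a j b c (smp z m) (rop z m) := by
  have h1 := la11_split (z := z) hj hm
  have h2 := (smp_rop (z := z) hm).1
  have h3 : j * m ≠ 0 := (Nat.mul_pos hj hm).ne'
  unfold xX la11_T
  rw [if_neg h3, h1.1, h1.2, h2]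
  have h4 : (m : ℝ) = (smp z m : ℝ) * (rop z m : ℝ) := by
    rw [← Nat.cast_mul, h2]
  rw [h4]

theorem la11_sum {z M A : ℕ} {a : ℕ → ℝ} (ha : ∀ k, a k ≠ 0 → smooth z k ∧ k ≤ A) {j b c : ℕ}
    (hj : 1 ≤ j) (U V : ℕ) :
    ∑ m ∈ Ioc U V, xX z M 2 a (j * m) / m * cc c (m * b) =
      ∑ s ∈ Icc 1 A, ∑ r ∈ Ioc (U / s) (V / s), la11_T z M a j b c s r := by
  classical
  rw [Finset.sum_sigma']
  symm
  obtain ⟨j1, j2, j3, j4, j5⟩ := smp_rop (z := z) hj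
  have hkey : ∀ s r : ℕ, la11_T z M a j b c s r ≠ 0 → smooth z s ∧ rough z r ∧ 1 ≤ r ∧ s ≤ A := by
    intro s r h
    have h1 : a (smp z j * s) ≠ 0 := by
      intro h1
      apply h
      unfold la11_T
      rw [h1]
      simp
    have h2 : xr z M 2 (rop z j * r) ≠ 0 := by
      intro h2
      apply h
      unfold la11_T
      rw [h2]
      simp
    obtain ⟨h3, h4⟩ := ha _ h1
    obtain ⟨h5, h6, -⟩ := xr_supp h2
    have hs : s ≠ 0 := right_ne_zero_of_mul h3.1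
    have hr : r ≠ 0 := right_ne_zero_of_mul (Nat.one_le_iff_ne_zero.mp h6)
    refine ⟨⟨hs, fun p hp hd => h3.2 p hp (hd.mul_left _)⟩,
      fun p hp hd => h5 p hp (hd.mul_left _), Nat.pos_of_ne_zero hr, ?_⟩
    have : 1 ≤ smp z j := Nat.pos_of_ne_zero j3.1
    calc s = 1 * s := (one_mul s).symm
      _ ≤ smp z j * s := Nat.mul_le_mul_right s this
      _ ≤ A := h4
  refine Finset.sum_bij_ne_zero (fun x _ _ => x.1 * x.2) ?_ ?_ ?_ ?_
  · intro x hx h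
    obtain ⟨h1, h2, h3, h4⟩ := hkey _ _ h
    rw [Finset.mem_sigma, Finset.mem_Ioc] at hx
    have hs : 0 < x.1 := Nat.pos_of_ne_zero h1.1
    rw [Finset.mem_Ioc]
    refine ⟨?_, ?_⟩
    · have := (Nat.div_lt_iff_lt_mul hs).mp hx.2.1
      rwa [mul_comm] at this
    · have := (Nat.le_div_iff_mul_le hs).mp hx.2.2
      rwa [mul_comm] at this
  · intro x hx h y hy h' hxy
    obtain ⟨h1, h2, h3, h4⟩ := hkey _ _ h
    obtain ⟨k1, k2, k3, k4⟩ := hkey _ _ h'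
    have a1 := smp_mul h1 h2 h3
    have a2 := smp_mul k1 k2 k3
    have e : x.1 * x.2 = y.1 * y.2 := hxy
    rw [e] at a1
    have b1 : x.1 = y.1 := a1.1.symm.trans a2.1
    have b2 : x.2 = y.2 := a1.2.symm.trans a2.2
    rcases x with ⟨x1, x2⟩
    rcases y with ⟨y1, y2⟩
    simp only at b1 b2
    subst b1
    subst b2
    rfl
  · intro m hm h
    rw [Finset.mem_Ioc] at hm
    have hm1 : 1 ≤ m := by omega
    obtain ⟨c1, c2, c3, c4, c5⟩ := smp_rop (z := z) hm1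
    have e := la11_xX (M := M) (z := z) a hj hm1 b c
    have h' : la11_T z M a j b c (smp z m) (rop z m) ≠ 0 := by rwa [← e]
    obtain ⟨h1, h2, h3, h4⟩ := hkey _ _ h'
    have hs : 0 < smp z m := Nat.pos_of_ne_zero h1.1
    refine ⟨⟨smp z m, rop z m⟩, ?_, h', c1⟩
    rw [Finset.mem_sigma, Finset.mem_Icc, Finset.mem_Ioc]
    refine ⟨⟨hs, h4⟩, ?_, ?_⟩
    · rw [Nat.div_lt_iff_lt_mul hs, mul_comm, c1]
      exact hm.1
    · rw [Nat.le_div_iff_mul_le hs, mul_comm, c1]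
      exact hm.2
  · intro x hx h
    obtain ⟨h1, h2, h3, h4⟩ := hkey _ _ h
    have hs : 0 < x.1 := Nat.pos_of_ne_zero h1.1
    have a1 := smp_mul h1 h2 h3
    have e := la11_xX (M := M) (z := z) a hj (Nat.mul_pos hs h3) b c
    rw [a1.1, a1.2] at e
    exact e.symm

theorem la11_rpow (e : ℝ) (he : 0 < e) (C : ℝ) : ∃ X₀ : ℕ, ∀ X : ℕ, X₀ ≤ X → C ≤ (X : ℝ) ^ e := by
  have h := ((tendsto_rpow_atTop he).comp tendsto_natCast_atTop_atTop).eventually_ge_atTop C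
  exact Filter.eventually_atTop.mp h

theorem la11_log (C : ℝ) : ∃ X₀ : ℕ, ∀ X : ℕ, X₀ ≤ X → C ≤ Real.log X := by
  have h := (Real.tendsto_log_atTop.comp tendsto_natCast_atTop_atTop).eventually_ge_atTop C
  exact Filter.eventually_atTop.mp h

theorem la11_tau_nonneg (n : ℕ) : 0 ≤ tau n := by
  unfold tau
  positivity

theorem la11_tau_mono {a b : ℕ} (hb : b ≠ 0) (h : a ∣ b) : tau a ≤ tau b := by
  unfold tau
  exact_mod_cast Finset.card_le_card (Nat.divisors_subset_of_dvd hb h)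

/-- the room below `X^(1/4)` -/
theorem la11_room {X : ℕ} (hX : 1 ≤ X) (h3 : 3 ≤ (X : ℝ) ^ (23 / 200 : ℝ)) {ε : ℝ}
    (he : ε ≤ 1 / 100) {s U : ℕ} (hs1 : 1 ≤ s) (hs : (s : ℝ) ≤ (X : ℝ) ^ ε)
    (hU : (X : ℝ) ^ (1 / 4 : ℝ) - 1 ≤ U) : (X : ℝ) ^ (1 / 8 : ℝ) ≤ ((U / s : ℕ) : ℝ) := by
  have hX' : (1 : ℝ) ≤ X := by exact_mod_cast hX
  have hX0 : (0 : ℝ) < X := by linarith
  have h1 : (⌈(X : ℝ) ^ (1 / 8 : ℝ)⌉₊) ≤ U / s := by
    rw [Nat.le_div_iff_mul_le hs1]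
    have h4 : ((⌈(X : ℝ) ^ (1 / 8 : ℝ)⌉₊ : ℕ) : ℝ) ≤ (X : ℝ) ^ (1 / 8 : ℝ) + 1 :=
      (Nat.ceil_lt_add_one (by positivity)).le
    have h5 : (1 : ℝ) ≤ (X : ℝ) ^ (1 / 8 : ℝ) := Real.one_le_rpow hX' (by norm_num)
    have h6 : (s : ℝ) ≤ (X : ℝ) ^ (1 / 100 : ℝ) :=
      hs.trans (Real.rpow_le_rpow_of_exponent_le hX' he)
    have h7 : (X : ℝ) ^ (1 / 8 : ℝ) * (X : ℝ) ^ (1 / 100 : ℝ) = (X : ℝ) ^ (27 / 200 : ℝ) := by
      rw [← Real.rpow_add hX0]
      norm_num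
    have h8 : (X : ℝ) ^ (27 / 200 : ℝ) * (X : ℝ) ^ (23 / 200 : ℝ) = (X : ℝ) ^ (1 / 4 : ℝ) := by
      rw [← Real.rpow_add hX0]
      norm_num
    have h9 : (1 : ℝ) ≤ (X : ℝ) ^ (27 / 200 : ℝ) := Real.one_le_rpow hX' (by norm_num)
    have h10 : ((⌈(X : ℝ) ^ (1 / 8 : ℝ)⌉₊ : ℕ) : ℝ) * s ≤ U := by
      calc ((⌈(X : ℝ) ^ (1 / 8 : ℝ)⌉₊ : ℕ) : ℝ) * s
          ≤ ((X : ℝ) ^ (1 / 8 : ℝ) + 1) * (X : ℝ) ^ (1 / 100 : ℝ) :=
            mul_le_mul h4 h6 (Nat.cast_nonneg s) (by positivity)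
        _ ≤ (2 * (X : ℝ) ^ (1 / 8 : ℝ)) * (X : ℝ) ^ (1 / 100 : ℝ) := by
            apply mul_le_mul_of_nonneg_right _ (by positivity)
            linarith
        _ = 2 * (X : ℝ) ^ (27 / 200 : ℝ) := by rw [mul_assoc, h7]
        _ ≤ (X : ℝ) ^ (1 / 4 : ℝ) - 1 := by
            rw [← h8]
            nlinarith
        _ ≤ U := hU
    exact_mod_cast h10
  exact (Nat.le_ceil _).trans (by exact_mod_cast h1)

/-- `a = a_s a_r` with smooth and rough parts (`KSLF.SRO`: `smp_rop`, `smp_mul`); for each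
`a_s ≤ ⌊X^ε₂⌋` use `xr_cc` with `w = rop j`, `t = a_s b`, then `la_gcd_sum` -/
theorem x_cc (C₀ C₁ k : ℕ) {κ : ℝ} (h0 : 0 < κ) (h1 : κ ≤ 1 / 1000) {ε₂ : ℝ} (h2 : 0 < ε₂)
    (h3 : ε₂ ≤ κ / 100000) : ∃ X₀ : ℕ, ∀ X : ℕ, X₀ ≤ X → ∀ a : ℕ → ℝ, Sht (zz X) (KA ε₂ X) a →
    (∀ n : ℕ, |a n| * Real.sqrt n ≤ Real.log X ^ C₀ * tau n ^ C₁) →
    ∀ j b c : ℕ, 1 ≤ j → 1 ≤ b → 1 ≤ c → (c : ℝ) ≤ (X : ℝ) ^ (1 / 100 : ℝ) →
    ∀ U V : ℕ, (X : ℝ) ^ (1 / 4 : ℝ) - 1 ≤ U →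
      |∑ m ∈ Ioc U V, xX (zz X) (MM (-κ) X) 2 a (j * m) / m * cc c (m * b)| ≤
        tau j ^ C₁ * tau c ^ (C₁ + 2) * Nat.gcd c b / Real.log X ^ k := by
  set k' : ℕ := k + C₀ + 2 * 2 ^ C₁ with hk'
  obtain ⟨X1, hX1⟩ := xr_cc k' h0 h1
  obtain ⟨X2, hX2⟩ := la11_rpow (23 / 200) (by norm_num) 3
  obtain ⟨X3, hX3⟩ := la11_log 4
  refine ⟨max (max X1 X2) (max X3 1), fun X hX a hS hab j b c hj hb hc hcX U V hU => ?_⟩
  have g1 : X1 ≤ X := (le_max_left _ _).trans ((le_max_left _ _).trans hX)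
  have g2 : X2 ≤ X := (le_max_right _ _).trans ((le_max_left _ _).trans hX)
  have g3 : X3 ≤ X := (le_max_left _ _).trans ((le_max_right _ _).trans hX)
  have g4 : 1 ≤ X := (le_max_right _ _).trans ((le_max_right _ _).trans hX)
  have hL : 4 ≤ Real.log X := hX3 X g3
  have hL0 : 0 < Real.log X := by linarith
  have hX' : (1 : ℝ) ≤ X := by exact_mod_cast g4
  have hε1 : ε₂ ≤ 1 / 100 := by linarith
  set A : ℕ := KA ε₂ X with hA
  have hAX : (A : ℝ) ≤ (X : ℝ) ^ ε₂ := by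
    rw [hA]
    unfold KA
    exact Nat.floor_le (by positivity)
  have hA1 : 1 ≤ A := by
    rw [hA]
    unfold KA
    rw [Nat.one_le_floor_iff]
    exact Real.one_le_rpow hX' h2.le
  have hAX' : (A : ℝ) ≤ X := by
    refine hAX.trans ?_
    calc (X : ℝ) ^ ε₂ ≤ (X : ℝ) ^ (1 : ℝ) := Real.rpow_le_rpow_of_exponent_le hX' (by linarith)
      _ = X := Real.rpow_one _
  obtain ⟨j1, j2, j3, j4, j5⟩ := smp_rop (z := zz X) hj
  have hjs : 1 ≤ smp (zz X) j := Nat.pos_of_ne_zero j3.1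
  rw [la11_sum hS.sup hj]
  have hterm : ∀ s ∈ Icc 1 A, |∑ r ∈ Ioc (U / s) (V / s),
      la11_T (zz X) (MM (-κ) X) a j b c s r| ≤
      (Real.log X ^ C₀ * tau j ^ C₁ * tau c * Nat.gcd c b / Real.log X ^ k') *
        (tau s ^ C₁ * Nat.gcd c s / s) := by
    intro s hs
    rw [Finset.mem_Icc] at hs
    have hs0 : (0 : ℝ) < s := by exact_mod_cast hs.1
    have e1 : ∑ r ∈ Ioc (U / s) (V / s), la11_T (zz X) (MM (-κ) X) a j b c s r =
        (a (smp (zz X) j * s) * Real.sqrt (smp (zz X) j * s : ℕ) / s) *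
          ∑ r ∈ Ioc (U / s) (V / s), xr (zz X) (MM (-κ) X) 2 (rop (zz X) j * r) / r *
            cc c (s * b * r) := by
      rw [Finset.mul_sum]
      refine Finset.sum_congr rfl fun r hr => ?_
      unfold la11_T
      rw [show s * r * b = s * b * r by ring]
      have hr0 : (r : ℝ) ≠ 0 := by
        rw [Finset.mem_Ioc] at hr
        have : 0 < r := lt_of_le_of_lt (Nat.zero_le _) hr.1
        exact_mod_cast this.ne'
      field_simp
    rw [e1, abs_mul, abs_div, abs_mul, abs_of_nonneg (Real.sqrt_nonneg _), abs_of_pos hs0]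
    have h4 := hX1 X g1 (rop (zz X) j) (s * b) c j5 (Nat.mul_pos hs.1 hb) hc hcX (U / s) (V / s)
      (la11_room g4 (hX2 X g2) hε1 hs.1 ((Nat.cast_le.mpr hs.2).trans hAX) hU)
    have h5 := hab (smp (zz X) j * s)
    have h6 : tau (smp (zz X) j * s) ≤ tau j * tau s := by
      refine (la_tau_mul hjs hs.1).trans ?_
      refine mul_le_mul_of_nonneg_right (la11_tau_mono (by omega) ?_) (la11_tau_nonneg _)
      exact ⟨_, j1.symm⟩
    have h7 : tau (smp (zz X) j * s) ^ C₁ ≤ tau j ^ C₁ * tau s ^ C₁ := by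
      rw [← mul_pow]
      exact pow_le_pow_left₀ (la11_tau_nonneg _) h6 _
    have h8 : (Nat.gcd c (s * b) : ℝ) ≤ Nat.gcd c s * Nat.gcd c b := by
      exact_mod_cast la_gcd_mul c s b hc
    have hτj := la11_tau_nonneg j
    have hτs := la11_tau_nonneg s
    have hτc := la11_tau_nonneg c
    have h9 : |a (smp (zz X) j * s)| * Real.sqrt (smp (zz X) j * s : ℕ) / s ≤
        Real.log X ^ C₀ * (tau j ^ C₁ * tau s ^ C₁) / s := by
      refine div_le_div_of_nonneg_right (h5.trans ?_) hs0.le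
      exact mul_le_mul_of_nonneg_left h7 (by positivity)
    have h10 : |∑ r ∈ Ioc (U / s) (V / s), xr (zz X) (MM (-κ) X) 2 (rop (zz X) j * r) / r *
            cc c (s * b * r)| ≤ tau c * (Nat.gcd c s * Nat.gcd c b) / Real.log X ^ k' := by
      refine h4.trans (div_le_div_of_nonneg_right ?_ (by positivity))
      exact mul_le_mul_of_nonneg_left h8 hτc
    calc |a (smp (zz X) j * s)| * Real.sqrt (smp (zz X) j * s : ℕ) / s *
          |∑ r ∈ Ioc (U / s) (V / s), xr (zz X) (MM (-κ) X) 2 (rop (zz X) j * r) / r *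
            cc c (s * b * r)|
        ≤ (Real.log X ^ C₀ * (tau j ^ C₁ * tau s ^ C₁) / s) *
          (tau c * (Nat.gcd c s * Nat.gcd c b) / Real.log X ^ k') :=
          mul_le_mul h9 h10 (abs_nonneg _) (by positivity)
      _ = _ := by ring
  have hgs := la_gcd_sum C₁ A c hA1 hc
  have hpos : 0 ≤ Real.log X ^ C₀ * tau j ^ C₁ * tau c * Nat.gcd c b / Real.log X ^ k' := by
    have := la11_tau_nonneg j
    have := la11_tau_nonneg c
    positivity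
  refine (Finset.abs_sum_le_sum_abs _ _).trans ((Finset.sum_le_sum hterm).trans ?_)
  rw [← Finset.mul_sum]
  refine (mul_le_mul_of_nonneg_left hgs hpos).trans ?_
  have h11 : (1 + Real.log A) ^ (2 ^ C₁) ≤ Real.log X ^ (2 * 2 ^ C₁) := by
    have hA0 : (0 : ℝ) < A := by exact_mod_cast hA1
    have h12 : Real.log A ≤ Real.log X := Real.log_le_log hA0 hAX'
    have h13 : 0 ≤ Real.log A := Real.log_nonneg (by exact_mod_cast hA1)
    rw [pow_mul]
    refine pow_le_pow_left₀ (by linarith) ?_ _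
    nlinarith
  have hτj := la11_tau_nonneg j
  have hτc := la11_tau_nonneg c
  have hg0 : (0 : ℝ) ≤ Nat.gcd c b := Nat.cast_nonneg _
  calc Real.log X ^ C₀ * tau j ^ C₁ * tau c * Nat.gcd c b / Real.log X ^ k' *
        (tau c ^ (C₁ + 1) * (1 + Real.log A) ^ 2 ^ C₁)
      ≤ Real.log X ^ C₀ * tau j ^ C₁ * tau c * Nat.gcd c b / Real.log X ^ k' *
        (tau c ^ (C₁ + 1) * Real.log X ^ (2 * 2 ^ C₁)) :=
        mul_le_mul_of_nonneg_left (mul_le_mul_of_nonneg_left h11 (by positivity)) hpos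
    _ = tau j ^ C₁ * tau c ^ (C₁ + 2) * Nat.gcd c b / Real.log X ^ k := by
        rw [hk', pow_add, pow_add]
        field_simp
        ring

/-- pointwise bound -/
theorem x_bound (C₀ C₁ : ℕ) {κ : ℝ} (h0 : 0 < κ) (h1 : κ ≤ 1 / 1000) {ε₂ : ℝ} (h2 : 0 < ε₂)
    (h3 : ε₂ ≤ κ / 100000) : ∃ X₀ : ℕ, ∀ X : ℕ, X₀ ≤ X → ∀ a : ℕ → ℝ, Sht (zz X) (KA ε₂ X) a →
    (∀ n : ℕ, |a n| * Real.sqrt n ≤ Real.log X ^ C₀ * tau n ^ C₁) →
    ∀ e : ℕ, |xX (zz X) (MM (-κ) X) 2 a e| ≤ Real.log X ^ (C₀ + 2) * tau e ^ C₁ := by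
  obtain ⟨X1, hX1⟩ := xr_bound h0 h1
  obtain ⟨X3, hX3⟩ := la11_log 4
  refine ⟨max X1 X3, fun X hX a hS hab e => ?_⟩
  have g1 : X1 ≤ X := (le_max_left _ _).trans hX
  have g3 : X3 ≤ X := (le_max_right _ _).trans hX
  have hL : 4 ≤ Real.log X := hX3 X g3
  have hL0 : 0 < Real.log X := by linarith
  have hτ := la11_tau_nonneg e
  unfold xX
  split_ifs with he
  · rw [abs_zero]
    positivity
  · have he1 : 1 ≤ e := Nat.pos_of_ne_zero he
    obtain ⟨j1, j2, j3, j4, j5⟩ := smp_rop (z := zz X) he1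
    rw [abs_mul, abs_mul, abs_of_nonneg (Real.sqrt_nonneg _)]
    have h4 := hab (smp (zz X) e)
    have h5 := hX1 X g1 (rop (zz X) e)
    have h6 : tau (smp (zz X) e) ^ C₁ ≤ tau e ^ C₁ :=
      pow_le_pow_left₀ (la11_tau_nonneg _) (la11_tau_mono he ⟨_, j1.symm⟩) _
    calc |a (smp (zz X) e)| * Real.sqrt (smp (zz X) e) *
          |xr (zz X) (MM (-κ) X) 2 (rop (zz X) e)|
        ≤ (Real.log X ^ C₀ * tau e ^ C₁) * (4 * Real.log X) := by
          refine mul_le_mul (h4.trans (mul_le_mul_of_nonneg_left h6 (by positivity))) h5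
            (abs_nonneg _) (by positivity)
      _ ≤ (Real.log X ^ C₀ * tau e ^ C₁) * (Real.log X * Real.log X) := by
          refine mul_le_mul_of_nonneg_left ?_ (by positivity)
          exact mul_le_mul_of_nonneg_right hL hL0.le
      _ = Real.log X ^ (C₀ + 2) * tau e ^ C₁ := by ring

end Pool.Agent.LSP
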