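import Pool.Agent.Lib_helper53.LSPAF.LA11

/-! LSPA, block LA12 (helper53): the condition `mob`. -/

set_option autoImplicit false

namespace Pool.Agent.LSP

open Pool.Agent.LEV Pool.Agent.LVB Pool.Agent.KSL
open Pool.Agent.FG61 (mu phi cc ff AA Lam)
open Finset

/-- pairs with product in an interval -/
theorem la12_pairs (z₁ z₂ : ℕ) (F : ℕ → ℕ → ℝ) :
    ∑ n ∈ Ioc z₁ z₂, ∑ p ∈ n.divisorsAntidiagonal, F p.1 p.2 =
      ∑ b ∈ Icc 1 z₂, ∑ m ∈ Ioc (z₁ / b) (z₂ / b), F m b := by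
  rw [Finset.sum_sigma', Finset.sum_sigma']
  refine Finset.sum_nbij' (fun x => ⟨x.2.2, x.2.1⟩) (fun y => ⟨y.2 * y.1, (y.2, y.1)⟩) ?_ ?_ ?_ ?_ ?_
  · rintro ⟨n, p⟩ h
    simp only [mem_sigma, mem_Ioc, Nat.mem_divisorsAntidiagonal, mem_Icc] at h ⊢
    obtain ⟨⟨h1, h2⟩, h3, h4⟩ := h
    have hb : 0 < p.2 := Nat.pos_of_ne_zero (fun h => h4 (by rw [← h3, h, mul_zero]))
    have ha : 0 < p.1 := Nat.pos_of_ne_zero (fun h => h4 (by rw [← h3, h, zero_mul]))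
    refine ⟨⟨hb, ?_⟩, ?_, ?_⟩
    · calc p.2 ≤ p.1 * p.2 := Nat.le_mul_of_pos_left _ ha
        _ ≤ z₂ := by rw [h3]; exact h2
    · rw [Nat.div_lt_iff_lt_mul hb, h3]; exact h1
    · rw [Nat.le_div_iff_mul_le hb, h3]; exact h2
  · rintro ⟨b, m⟩ h
    simp only [mem_sigma, mem_Ioc, Nat.mem_divisorsAntidiagonal, mem_Icc] at h ⊢
    obtain ⟨⟨h1, h2⟩, h3, h4⟩ := h
    have hb : 0 < b := h1
    rw [Nat.div_lt_iff_lt_mul hb] at h3
    rw [Nat.le_div_iff_mul_le hb] at h4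
    have hm : 0 < m := by
      rcases Nat.eq_zero_or_pos m with h0 | h0
      · rw [h0, zero_mul] at h3; omega
      · exact h0
    refine ⟨⟨h3, h4⟩, trivial, (Nat.mul_pos hm hb).ne'⟩
  · rintro ⟨n, p⟩ h
    simp only [mem_sigma, mem_Ioc, Nat.mem_divisorsAntidiagonal] at h
    obtain ⟨_, h3, _⟩ := h
    simp only [Sigma.mk.injEq]
    refine ⟨h3, ?_⟩
    simp
  · rintro ⟨b, m⟩ _
    rfl
  · rintro ⟨n, p⟩ _
    rfl

/-- the hyperbola decomposition -/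
theorem la12_split (z₁ z₂ Z : ℕ) (F : ℕ → ℕ → ℝ) (hF : ∀ m b, F m b = F b m) (hZ : Z ≤ z₂) :
    ∑ n ∈ Ioc z₁ z₂, ∑ p ∈ n.divisorsAntidiagonal, F p.1 p.2 =
      ∑ b ∈ Icc 1 Z, ∑ m ∈ Ioc (z₁ / b) (z₂ / b), F m b +
      ∑ b ∈ Ioc Z z₂, ∑ m ∈ Ioc (max (z₁ / b) Z) (z₂ / b), F m b +
      ∑ b ∈ Icc 1 Z, ∑ m ∈ Ioc (max (z₁ / b) Z) (z₂ / b), F m b := by
  rw [la12_pairs]
  have h1 : Icc 1 z₂ = Icc 1 Z ∪ Ioc Z z₂ := by
    ext n
    simp only [mem_union, mem_Icc, mem_Ioc]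
    omega
  have hd : Disjoint (Icc 1 Z) (Ioc Z z₂) := by
    rw [Finset.disjoint_left]
    intro n
    simp only [mem_Icc, mem_Ioc]
    omega
  rw [h1, Finset.sum_union hd, add_assoc]
  congr 1
  have h2 : ∀ b ∈ Ioc Z z₂, ∑ m ∈ Ioc (z₁ / b) (z₂ / b), F m b =
      ∑ m ∈ Ioc (max (z₁ / b) Z) (z₂ / b), F m b +
        ∑ m ∈ (Ioc (z₁ / b) (z₂ / b)).filter (fun m => m ≤ Z), F m b := by
    intro b _
    rw [← Finset.sum_filter_add_sum_filter_not _ (fun m => m ≤ Z), add_comm]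
    congr 1
    apply Finset.sum_congr _ fun _ _ => rfl
    ext m
    simp only [mem_filter, mem_Ioc, max_lt_iff]
    omega
  rw [Finset.sum_congr rfl h2, Finset.sum_add_distrib]
  congr 1
  rw [Finset.sum_sigma', Finset.sum_sigma']
  refine Finset.sum_nbij' (fun x => ⟨x.2, x.1⟩) (fun y => ⟨y.2, y.1⟩) ?_ ?_ ?_ ?_ ?_
  · rintro ⟨b, m⟩ h
    simp only [mem_sigma, mem_filter, mem_Ioc, mem_Icc, max_lt_iff] at h ⊢
    obtain ⟨⟨h1, h2⟩, ⟨h3, h4⟩, h5⟩ := h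
    have hb : 0 < b := by omega
    have hm : 0 < m := Nat.zero_lt_of_lt h3
    rw [Nat.div_lt_iff_lt_mul hb] at h3
    rw [Nat.le_div_iff_mul_le hb] at h4
    refine ⟨⟨hm, h5⟩, ⟨?_, h1⟩, ?_⟩
    · rw [Nat.div_lt_iff_lt_mul hm, mul_comm]; exact h3
    · rw [Nat.le_div_iff_mul_le hm, mul_comm]; exact h4
  · rintro ⟨m, b⟩ h
    simp only [mem_sigma, mem_filter, mem_Ioc, mem_Icc, max_lt_iff] at h ⊢
    obtain ⟨⟨h1, h5⟩, ⟨h3, h2⟩, h4⟩ := h
    have hm : 0 < m := h1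
    have hb : 0 < b := Nat.zero_lt_of_lt h2
    rw [Nat.div_lt_iff_lt_mul hm] at h3
    rw [Nat.le_div_iff_mul_le hm] at h4
    refine ⟨⟨h2, ?_⟩, ⟨?_, ?_⟩, h5⟩
    · calc b ≤ b * m := Nat.le_mul_of_pos_right _ hm
        _ ≤ z₂ := h4
    · rw [Nat.div_lt_iff_lt_mul hb, mul_comm]; exact h3
    · rw [Nat.le_div_iff_mul_le hb, mul_comm]; exact h4
  · rintro ⟨b, m⟩ _
    rfl
  · rintro ⟨b, m⟩ _
    rfl
  · rintro ⟨b, m⟩ _
    exact hF _ _

/-- the general estimate -/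
theorem la12_one {E C₁ c j : ℕ} (hE : 1 ≤ E) (hc : 1 ≤ c) (hj : 1 ≤ j) {x : ℕ → ℝ} {P Q : ℝ}
    (hP : 0 ≤ P) (hQ : 0 ≤ Q) (hx : ∀ e, x e ≠ 0 → 1 ≤ e ∧ e ≤ E)
    (hb : ∀ e, |x e| ≤ P * tau e ^ C₁) (s : Finset ℕ) (hs : ∀ b ∈ s, 1 ≤ b) (U V : ℕ → ℕ)
    (h : ∀ b ∈ s, |∑ m ∈ Ioc (U b) (V b), x (j * m) / m * cc c (m * b)| ≤
      tau j ^ C₁ * tau c ^ (C₁ + 2) * Nat.gcd c b * Q) :
    |∑ b ∈ s, ∑ m ∈ Ioc (U b) (V b), x (j * m) / m * (x (j * b) / b) * cc c (m * b)| ≤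
      P * Q * tau j ^ (2 * C₁) * tau c ^ (2 * C₁ + 3) * (1 + Real.log E) ^ (2 ^ C₁) := by
  have ht : ∀ n, 0 ≤ tau n := fun n => by unfold tau; positivity
  have h1 : ∀ b ∈ s, |∑ m ∈ Ioc (U b) (V b), x (j * m) / m * (x (j * b) / b) * cc c (m * b)| ≤
      if b ≤ E then P * Q * tau j ^ (2 * C₁) * tau c ^ (C₁ + 2) *
        (tau b ^ C₁ * Nat.gcd c b / b) else 0 := by
    intro b hbs
    have hb1 := hs b hbs
    have hb0 : (0 : ℝ) < b := by exact_mod_cast hb1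
    have e1 : ∑ m ∈ Ioc (U b) (V b), x (j * m) / m * (x (j * b) / b) * cc c (m * b) =
        (x (j * b) / b) * ∑ m ∈ Ioc (U b) (V b), x (j * m) / m * cc c (m * b) := by
      rw [Finset.mul_sum]
      exact Finset.sum_congr rfl fun _ _ => by ring
    rw [e1, abs_mul, abs_div, abs_of_pos hb0]
    split_ifs with hbE
    · have h2 : |x (j * b)| ≤ P * (tau j ^ C₁ * tau b ^ C₁) := by
        refine (hb _).trans ?_
        rw [← mul_pow]
        exact mul_le_mul_of_nonneg_left (pow_le_pow_left₀ (ht _) (la_tau_mul hj hb1) _) hP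
      calc |x (j * b)| / b * |∑ m ∈ Ioc (U b) (V b), x (j * m) / m * cc c (m * b)|
          ≤ (P * (tau j ^ C₁ * tau b ^ C₁)) / b *
            (tau j ^ C₁ * tau c ^ (C₁ + 2) * Nat.gcd c b * Q) := by
            apply mul_le_mul _ (h b hbs) (abs_nonneg _)
            · have := ht j; have := ht b; positivity
            · exact div_le_div_of_nonneg_right h2 hb0.le
        _ = _ := by
            rw [two_mul, pow_add]
            ring
    · have h2 : x (j * b) = 0 := by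
        by_contra h3
        have h4 := (hx _ h3).2
        have h5 : b ≤ j * b := Nat.le_mul_of_pos_left b hj
        omega
      rw [h2]
      simp
  refine (Finset.abs_sum_le_sum_abs _ _).trans ((Finset.sum_le_sum h1).trans ?_)
  have h2 : ∑ b ∈ s, (if b ≤ E then P * Q * tau j ^ (2 * C₁) * tau c ^ (C₁ + 2) *
        (tau b ^ C₁ * Nat.gcd c b / b) else 0) ≤
      ∑ b ∈ Icc 1 E, P * Q * tau j ^ (2 * C₁) * tau c ^ (C₁ + 2) *
        (tau b ^ C₁ * Nat.gcd c b / b) := by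
    rw [← Finset.sum_filter]
    apply Finset.sum_le_sum_of_subset_of_nonneg
    · intro b hb
      obtain ⟨h3, h4⟩ := Finset.mem_filter.1 hb
      exact Finset.mem_Icc.2 ⟨hs b h3, h4⟩
    · intro b _ _
      have := ht j; have := ht b; have := ht c
      positivity
  refine h2.trans ?_
  rw [← Finset.mul_sum]
  have h3 := la_gcd_sum C₁ E c hE hc
  calc P * Q * tau j ^ (2 * C₁) * tau c ^ (C₁ + 2) *
        ∑ b ∈ Icc 1 E, tau b ^ C₁ * Nat.gcd c b / b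
      ≤ P * Q * tau j ^ (2 * C₁) * tau c ^ (C₁ + 2) *
        (tau c ^ (C₁ + 1) * (1 + Real.log E) ^ (2 ^ C₁)) := by
        apply mul_le_mul_of_nonneg_left h3
        have := ht j; have := ht c
        positivity
    _ = _ := by
        rw [show 2 * C₁ + 3 = (C₁ + 2) + (C₁ + 1) by ring, pow_add (tau c)]
        ring

theorem la12_expand (E c z₁ z₂ : ℕ) (x : ℕ → ℝ) :
    ∑ n ∈ Ioc z₁ z₂, CC E x n * cc c n =
      ∑ j ∈ Icc 1 E, (1 / (j : ℝ)) * ∑ n ∈ Ioc z₁ z₂, ∑ p ∈ n.divisorsAntidiagonal,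
        x (j * p.1) / p.1 * (x (j * p.2) / p.2) * cc c (p.1 * p.2) := by
  have h1 : ∀ n ∈ Ioc z₁ z₂, CC E x n * cc c n = ∑ j ∈ Icc 1 E, (1 / (j : ℝ)) *
      ∑ p ∈ n.divisorsAntidiagonal, x (j * p.1) / p.1 * (x (j * p.2) / p.2) *
        cc c (p.1 * p.2) := by
    intro n _
    unfold CC
    rw [Finset.sum_mul]
    refine Finset.sum_congr rfl fun j _ => ?_
    rw [mul_assoc, Finset.sum_mul]
    congr 1
    refine Finset.sum_congr rfl fun p hp => ?_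
    obtain ⟨h2, h3⟩ := Nat.mem_divisorsAntidiagonal.1 hp
    have h4 : (n : ℝ) = p.1 * p.2 := by rw [← h2]; push_cast; ring
    rw [h2, h4, div_mul_div_comm]
  rw [Finset.sum_congr rfl h1, Finset.sum_comm]
  refine Finset.sum_congr rfl fun j _ => ?_
  rw [Finset.mul_sum]

theorem la12_supp {z M A : ℕ} {a : ℕ → ℝ} (ha : Sht z A a) {e : ℕ} (h : xX z M 2 a e ≠ 0) :
    1 ≤ e ∧ e ≤ QA M 2 A := by
  unfold xX at h
  split_ifs at h with h0
  · exact absurd rfl h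
  · have he : 1 ≤ e := Nat.one_le_iff_ne_zero.2 h0
    have h1 : a (smp z e) ≠ 0 := fun h2 => h (by rw [h2]; ring)
    have h2 : xr z M 2 (rop z e) ≠ 0 := fun h2 => h (by rw [h2]; ring)
    have h3 := (ha.sup _ h1).2
    have h4 := (xr_supp h2).2.2
    have h5 := (smp_rop (z := z) he).1
    refine ⟨he, ?_⟩
    unfold QA
    calc e = smp z e * rop z e := h5.symm
      _ ≤ A * (2 * M) := Nat.mul_le_mul h3 h4
      _ = 2 * M * A := by ring

theorem mob_x (C₀ C₁ B' : ℕ) {κ : ℝ} (h0 : 0 < κ) (h1 : κ ≤ 1 / 1000) {ε₂ : ℝ} (h2 : 0 < ε₂)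
    (h3 : ε₂ ≤ κ / 100000) : ∃ X₀ : ℕ, ∀ X : ℕ, X₀ ≤ X → ∀ a : ℕ → ℝ, Sht (zz X) (KA ε₂ X) a →
    (∀ n : ℕ, |a n| * Real.sqrt n ≤ Real.log X ^ C₀ * tau n ^ C₁) →
    ∀ c z₁ z₂ : ℕ, 1 ≤ c → (c : ℝ) ≤ (X : ℝ) ^ (1 / 100 : ℝ) → (X : ℝ) ^ (1 / 2 : ℝ) ≤ z₁ →
      |∑ n ∈ Ioc z₁ z₂, CC (QA (MM (-κ) X) 2 (KA ε₂ X)) (xX (zz X) (MM (-κ) X) 2 a) n * cc c n| ≤
        tau c ^ (2 * C₁ + 3) / Real.log X ^ B' := by
  set p : ℕ := 2 ^ C₁ + 2 ^ (2 * C₁) with hp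
  set k : ℕ := B' + (C₀ + 2) + p + 1 with hk
  obtain ⟨X1, hX1⟩ := x_cc C₀ C₁ k h0 h1 h2 h3
  obtain ⟨X2, hX2⟩ := x_bound C₀ C₁ h0 h1 h2 h3
  obtain ⟨X3, hX3⟩ := la_sizes h0 h1
  have hL : Filter.Tendsto (fun N : ℕ => Real.log N) Filter.atTop Filter.atTop :=
    Real.tendsto_log_atTop.comp tendsto_natCast_atTop_atTop
  obtain ⟨X4, hX4⟩ := Filter.eventually_atTop.1 (hL.eventually_ge_atTop (3 * 2 ^ p : ℝ))
  refine ⟨max (max X1 X2) (max (max X3 X4) 16), ?_⟩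
  intro X hX a ha hab c z₁ z₂ hc hcX hz
  have g1 : X1 ≤ X := ((le_max_left _ _).trans (le_max_left _ _)).trans hX
  have g2 : X2 ≤ X := ((le_max_right _ _).trans (le_max_left _ _)).trans hX
  have g3 : X3 ≤ X := (((le_max_left _ _).trans (le_max_left _ _)).trans (le_max_right _ _)).trans hX
  have g4 : X4 ≤ X := (((le_max_right _ _).trans (le_max_left _ _)).trans (le_max_right _ _)).trans hX
  have g5 : 16 ≤ X := ((le_max_right _ _).trans (le_max_right _ _)).trans hX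
  have hcc := hX1 X g1 a ha hab
  have hxb := hX2 X g2 a ha hab
  obtain ⟨s1, s2, s3, s4, s5, s6, s7, s8⟩ := hX3 X g3
  have hLX := hX4 X g4
  have hX16 : (16 : ℝ) ≤ X := by exact_mod_cast g5
  have hX0 : (0 : ℝ) < X := by linarith
  set L : ℝ := Real.log X with hLdef
  set x := xX (zz X) (MM (-κ) X) 2 a with hx
  set E := QA (MM (-κ) X) 2 (KA ε₂ X) with hEdef
  have hA : 1 ≤ KA ε₂ X ∧ (KA ε₂ X : ℝ) ≤ (X : ℝ) ^ ε₂ := by
    constructor
    · unfold KA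
      rw [Nat.one_le_floor_iff]
      exact Real.one_le_rpow (by linarith) h2.le
    · unfold KA
      exact Nat.floor_le (by positivity)
  have hE1 : 1 ≤ E := by
    rw [hEdef]
    unfold QA
    have : 1 ≤ MM (-κ) X := by omega
    exact Nat.mul_pos (Nat.mul_pos two_pos this) hA.1
  have hEX : (E : ℝ) ≤ X := by
    have e1 : (E : ℝ) = 2 * (MM (-κ) X : ℝ) * (KA ε₂ X : ℝ) := by
      rw [hEdef]; unfold QA; push_cast; ring
    rw [e1]
    have e2 : (X : ℝ) ^ (1 / 2 + κ) * (X : ℝ) ^ ε₂ * 2 ≤ X := by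
      rw [← Real.rpow_add hX0]
      have e3 : (X : ℝ) ^ (1 / 2 + κ + ε₂) ≤ (X : ℝ) ^ (3 / 4 : ℝ) :=
        Real.rpow_le_rpow_of_exponent_le (by linarith) (by linarith)
      have e4 : (2 : ℝ) ≤ (X : ℝ) ^ (1 / 4 : ℝ) := by
        have : (2 : ℝ) = (16 : ℝ) ^ (1 / 4 : ℝ) := by
          rw [show (16 : ℝ) = 2 ^ (4 : ℝ) by norm_num, ← Real.rpow_mul (by norm_num)]
          norm_num
        rw [this]
        exact Real.rpow_le_rpow (by norm_num) hX16 (by norm_num)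
      have e5 : (X : ℝ) ^ (3 / 4 : ℝ) * (X : ℝ) ^ (1 / 4 : ℝ) = X := by
        rw [← Real.rpow_add hX0]; norm_num
      have e6 : 0 < (X : ℝ) ^ (3 / 4 : ℝ) := by positivity
      calc _ ≤ (X : ℝ) ^ (3 / 4 : ℝ) * (X : ℝ) ^ (1 / 4 : ℝ) := by
            apply mul_le_mul e3 e4 (by norm_num) e6.le
        _ = X := e5
    calc 2 * (MM (-κ) X : ℝ) * (KA ε₂ X : ℝ)
        ≤ 2 * (X : ℝ) ^ (1 / 2 + κ) * (X : ℝ) ^ ε₂ := by
          apply mul_le_mul (by linarith) hA.2 (by positivity) (by positivity)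
      _ = (X : ℝ) ^ (1 / 2 + κ) * (X : ℝ) ^ ε₂ * 2 := by ring
      _ ≤ X := e2
  have hlE0 : 0 ≤ Real.log E := Real.log_nonneg (by exact_mod_cast hE1)
  have hlE : 1 + Real.log E ≤ 2 * L := by
    have := Real.log_le_log (by exact_mod_cast hE1 : (0 : ℝ) < E) hEX
    linarith
  have hsupp : ∀ e, x e ≠ 0 → 1 ≤ e ∧ e ≤ E := fun e he => la12_supp ha he
  have hL0 : 0 < L := by linarith
  have hbd : ∀ e, |x e| ≤ L ^ (C₀ + 2) * tau e ^ C₁ := hxb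
  by_cases hzz : z₂ ≤ z₁
  · rw [Finset.Ioc_eq_empty (by omega)]
    simp only [Finset.sum_empty, abs_zero]
    have : 0 ≤ tau c := by unfold tau; positivity
    positivity
  push Not at hzz
  set Z : ℕ := ⌊(X : ℝ) ^ (1 / 4 : ℝ)⌋₊ with hZ
  have hZle : (Z : ℝ) ≤ (X : ℝ) ^ (1 / 4 : ℝ) := Nat.floor_le (by positivity)
  have hZge : (X : ℝ) ^ (1 / 4 : ℝ) - 1 ≤ Z := by
    have := Nat.lt_floor_add_one ((X : ℝ) ^ (1 / 4 : ℝ))
    linarith
  have hq : (X : ℝ) ^ (1 / 4 : ℝ) * (X : ℝ) ^ (1 / 4 : ℝ) = (X : ℝ) ^ (1 / 2 : ℝ) := by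
    rw [← Real.rpow_add hX0]; norm_num
  have hq0 : 0 < (X : ℝ) ^ (1 / 4 : ℝ) := by positivity
  have hq1 : 1 ≤ (X : ℝ) ^ (1 / 4 : ℝ) := Real.one_le_rpow (by linarith) (by norm_num)
  have hZz : Z ≤ z₂ := by
    have : (Z : ℝ) ≤ z₁ := by nlinarith
    have : Z ≤ z₁ := by exact_mod_cast this
    omega
  have hU : ∀ b ∈ Icc 1 Z, (X : ℝ) ^ (1 / 4 : ℝ) - 1 ≤ ((z₁ / b : ℕ) : ℝ) := by
    intro b hb
    obtain ⟨hb1, hb2⟩ := Finset.mem_Icc.1 hb
    have hb0 : (0 : ℝ) < b := by exact_mod_cast hb1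
    have hb3 : (b : ℝ) ≤ (X : ℝ) ^ (1 / 4 : ℝ) := le_trans (by exact_mod_cast hb2) hZle
    have h4 : (z₁ : ℝ) < b * ((z₁ / b : ℕ) + 1) := by
      exact_mod_cast Nat.lt_mul_div_succ z₁ hb1
    have h5 : (X : ℝ) ^ (1 / 4 : ℝ) ≤ (z₁ : ℝ) / b := by
      rw [le_div_iff₀ hb0]
      nlinarith
    have h6 : (z₁ : ℝ) / b < (z₁ / b : ℕ) + 1 := by
      rw [div_lt_iff₀ hb0]; linarith
    linarith
  have key : ∀ j ∈ Icc 1 E, |∑ n ∈ Ioc z₁ z₂, ∑ p ∈ n.divisorsAntidiagonal,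
        x (j * p.1) / p.1 * (x (j * p.2) / p.2) * cc c (p.1 * p.2)| ≤
      3 * (L ^ (C₀ + 2) * (1 / L ^ k) * tau j ^ (2 * C₁) * tau c ^ (2 * C₁ + 3) *
        (1 + Real.log E) ^ (2 ^ C₁)) := by
    intro j hj
    have hj1 := (Finset.mem_Icc.1 hj).1
    rw [la12_split z₁ z₂ Z (fun m b => x (j * m) / m * (x (j * b) / b) * cc c (m * b))
      (fun m b => by rw [mul_comm m b]; ring) hZz]
    have t1 := la12_one (C₁ := C₁) hE1 hc hj1 (P := L ^ (C₀ + 2)) (Q := 1 / L ^ k)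
      (by positivity) (by positivity) hsupp hbd (Icc 1 Z)
      (fun b hb => (Finset.mem_Icc.1 hb).1) (fun b => z₁ / b) (fun b => z₂ / b)
      (fun b hb => by
        have := hcc j b c hj1 (Finset.mem_Icc.1 hb).1 hc hcX (z₁ / b) (z₂ / b) (hU b hb)
        rw [div_eq_mul_one_div] at this
        exact this)
    have t2 := la12_one (C₁ := C₁) hE1 hc hj1 (P := L ^ (C₀ + 2)) (Q := 1 / L ^ k)
      (by positivity) (by positivity) hsupp hbd (Ioc Z z₂)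
      (fun b hb => by have := (Finset.mem_Ioc.1 hb).1; omega) (fun b => max (z₁ / b) Z)
      (fun b => z₂ / b)
      (fun b hb => by
        have := hcc j b c hj1 (by have := (Finset.mem_Ioc.1 hb).1; omega) hc hcX
          (max (z₁ / b) Z) (z₂ / b) (hZge.trans (by exact_mod_cast le_max_right _ _))
        rw [div_eq_mul_one_div] at this
        exact this)
    have t3 := la12_one (C₁ := C₁) hE1 hc hj1 (P := L ^ (C₀ + 2)) (Q := 1 / L ^ k)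
      (by positivity) (by positivity) hsupp hbd (Icc 1 Z)
      (fun b hb => (Finset.mem_Icc.1 hb).1) (fun b => max (z₁ / b) Z) (fun b => z₂ / b)
      (fun b hb => by
        have := hcc j b c hj1 (Finset.mem_Icc.1 hb).1 hc hcX
          (max (z₁ / b) Z) (z₂ / b) (hZge.trans (by exact_mod_cast le_max_right _ _))
        rw [div_eq_mul_one_div] at this
        exact this)
    refine (abs_add_three _ _ _).trans ?_
    linarith
  rw [la12_expand]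
  have ht : ∀ n, 0 ≤ tau n := fun n => by unfold tau; positivity
  calc |∑ j ∈ Icc 1 E, (1 / (j : ℝ)) * ∑ n ∈ Ioc z₁ z₂, ∑ p ∈ n.divisorsAntidiagonal,
        x (j * p.1) / p.1 * (x (j * p.2) / p.2) * cc c (p.1 * p.2)|
      ≤ ∑ j ∈ Icc 1 E, (1 / (j : ℝ)) * (3 * (L ^ (C₀ + 2) * (1 / L ^ k) * tau j ^ (2 * C₁) *
        tau c ^ (2 * C₁ + 3) * (1 + Real.log E) ^ (2 ^ C₁))) := by
        refine (Finset.abs_sum_le_sum_abs _ _).trans (Finset.sum_le_sum fun j hj => ?_)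
        rw [abs_mul, abs_of_nonneg (by positivity : (0 : ℝ) ≤ 1 / j)]
        exact mul_le_mul_of_nonneg_left (key j hj) (by positivity)
    _ = 3 * (L ^ (C₀ + 2) * (1 / L ^ k) * tau c ^ (2 * C₁ + 3) *
        (1 + Real.log E) ^ (2 ^ C₁)) * ∑ j ∈ Icc 1 E, tau j ^ (2 * C₁) / j := by
        rw [Finset.mul_sum]
        exact Finset.sum_congr rfl fun j _ => by ring
    _ ≤ 3 * (L ^ (C₀ + 2) * (1 / L ^ k) * tau c ^ (2 * C₁ + 3) *
        (1 + Real.log E) ^ (2 ^ C₁)) * (1 + Real.log E) ^ (2 ^ (2 * C₁)) := by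
        apply mul_le_mul_of_nonneg_left (la_tau_sum (2 * C₁) E hE1)
        have := ht c
        positivity
    _ = 3 * (L ^ (C₀ + 2) * (1 / L ^ k) * tau c ^ (2 * C₁ + 3) * (1 + Real.log E) ^ p) := by
        rw [hp, pow_add]; ring
    _ ≤ 3 * (L ^ (C₀ + 2) * (1 / L ^ k) * tau c ^ (2 * C₁ + 3) * (2 * L) ^ p) := by
        have h4 : (1 + Real.log E) ^ p ≤ (2 * L) ^ p :=
          pow_le_pow_left₀ (by linarith) hlE p
        have h5 : 0 ≤ L ^ (C₀ + 2) * (1 / L ^ k) * tau c ^ (2 * C₁ + 3) := by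
          have := ht c
          positivity
        have := mul_le_mul_of_nonneg_left h4 h5
        linarith
    _ = (3 * 2 ^ p) * tau c ^ (2 * C₁ + 3) * (L ^ (C₀ + 2) * L ^ p / L ^ k) := by
        rw [mul_pow]; ring
    _ ≤ L * tau c ^ (2 * C₁ + 3) * (L ^ (C₀ + 2) * L ^ p / L ^ k) := by
        have := ht c
        apply mul_le_mul_of_nonneg_right _ (by positivity)
        exact mul_le_mul_of_nonneg_right hLX (by positivity)
    _ = tau c ^ (2 * C₁ + 3) / L ^ B' := by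
        rw [hk]
        rw [show B' + (C₀ + 2) + p + 1 = B' + ((C₀ + 2) + p + 1) by ring, pow_add L B',
          pow_succ L ((C₀ + 2) + p), pow_add L (C₀ + 2) p]
        field_simp

end Pool.Agent.LSP
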