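import Pool.Agent.Lib_helper92.HCF.SPF

/-! The strong bound for the summatory function of the Moebius function. -/

set_option autoImplicit false

namespace Pool.Agent.LSP

open Finset
open scoped ArithmeticFunction.Moebius ArithmeticFunction.zeta ArithmeticFunction.vonMangoldt

/-- the summatory function of the Moebius function -/
noncomputable def MER_M (N : ℕ) : ℝ := ∑ n ∈ Icc 1 N, (μ n : ℝ)

/-- `√(1 + log N)` -/
noncomputable def MER_S (N : ℕ) : ℝ := Real.sqrt (1 + Real.log N)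

theorem MER_S_sq (N : ℕ) : MER_S N ^ 2 = 1 + Real.log N := by
  unfold MER_S
  rw [Real.sq_sqrt]
  have := Real.log_natCast_nonneg N
  linarith

theorem MER_S_one (N : ℕ) : 1 ≤ MER_S N := by
  unfold MER_S
  rw [Real.one_le_sqrt]
  have := Real.log_natCast_nonneg N
  linarith

theorem MER_mu_abs (n : ℕ) : |(μ n : ℝ)| ≤ 1 := by
  have := ArithmeticFunction.abs_moebius_le_one (n := n)
  exact_mod_cast this

theorem MER_triv (N : ℕ) : |MER_M N| ≤ N := by
  unfold MER_M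
  refine (abs_sum_le_sum_abs _ _).trans ?_
  refine (sum_le_sum fun n _ => MER_mu_abs n).trans ?_
  simp

/-- `μ * Λ = - μ log` -/
theorem MER_conv (n : ℕ) :
    ((μ : ArithmeticFunction ℝ) * Λ) n = - ((μ n : ℝ) * Real.log n) := by
  have h1 : (ArithmeticFunction.pmul (μ : ArithmeticFunction ℝ) ArithmeticFunction.log) *
      (ζ : ArithmeticFunction ℝ) = - Λ := by
    ext m
    rw [ArithmeticFunction.coe_mul_zeta_apply]
    have := ArithmeticFunction.sum_moebius_mul_log_eq (n := m)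
    simpa [ArithmeticFunction.pmul_apply] using this
  have h2 : ArithmeticFunction.pmul (μ : ArithmeticFunction ℝ) ArithmeticFunction.log =
      - (Λ * (μ : ArithmeticFunction ℝ)) := by
    have h3 : (ArithmeticFunction.pmul (μ : ArithmeticFunction ℝ) ArithmeticFunction.log) *
        ((ζ : ArithmeticFunction ℝ) * (μ : ArithmeticFunction ℝ)) =
        - (Λ * (μ : ArithmeticFunction ℝ)) := by
      rw [← mul_assoc, h1, neg_mul]
    rwa [ArithmeticFunction.coe_zeta_mul_coe_moebius, mul_one] at h3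
  have h4 := congrArg (fun f : ArithmeticFunction ℝ => f n) h2
  simp only [ArithmeticFunction.pmul_apply, ArithmeticFunction.log_apply] at h4
  rw [mul_comm]
  have h5 : (-(Λ * (μ : ArithmeticFunction ℝ))) n = - ((Λ * (μ : ArithmeticFunction ℝ)) n) := rfl
  rw [h5] at h4
  have h6 : ((μ : ArithmeticFunction ℝ)) n = (μ n : ℝ) := rfl
  rw [h6] at h4
  linarith

theorem MER_swap (N : ℕ) (F : ℕ → ℕ → ℝ) :
    ∑ m ∈ Ioc 0 N, ∑ n ∈ Ioc 0 (N / m), F m n = ∑ n ∈ Ioc 0 N, ∑ m ∈ Ioc 0 (N / n), F m n := by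
  refine sum_comm' fun m n => ?_
  simp only [mem_Ioc]
  constructor
  · rintro ⟨⟨h1, h2⟩, h3, h4⟩
    have h5 := (Nat.le_div_iff_mul_le h1).1 h4
    refine ⟨⟨h1, (Nat.le_div_iff_mul_le h3).2 (by rwa [mul_comm])⟩, h3, ?_⟩
    exact le_trans (Nat.le_mul_of_pos_right _ h1) h5
  · rintro ⟨⟨h1, h2⟩, h3, h4⟩
    have h5 := (Nat.le_div_iff_mul_le h3).1 h2
    refine ⟨⟨h1, le_trans (Nat.le_mul_of_pos_right _ h3) h5⟩, h3,
      (Nat.le_div_iff_mul_le h1).2 (by rwa [mul_comm])⟩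

/-- `∑ μ(n) log n = -1 - ∑ μ(m) R(N/m)` -/
theorem MER_ident (N : ℕ) (hN : 1 ≤ N) : ∑ n ∈ Ioc 0 N, (μ n : ℝ) * Real.log n =
    -1 - ∑ m ∈ Ioc 0 N, ∑ n ∈ Ioc 0 (N / m), (μ m : ℝ) * (Λ n - 1) := by
  have h1 : ∑ n ∈ Ioc 0 N, ((μ : ArithmeticFunction ℝ) * Λ) n =
      ∑ m ∈ Ioc 0 N, (μ m : ℝ) * ∑ n ∈ Ioc 0 (N / m), Λ n :=
    ArithmeticFunction.sum_Ioc_mul_eq_sum_sum _ _ _
  have h2 : ∑ n ∈ Ioc 0 N, ((μ : ArithmeticFunction ℝ) * (ζ : ArithmeticFunction ℝ)) n =
      ∑ m ∈ Ioc 0 N, (μ m : ℝ) * ∑ n ∈ Ioc 0 (N / m), (ζ : ArithmeticFunction ℝ) n :=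
    ArithmeticFunction.sum_Ioc_mul_eq_sum_sum _ _ _
  rw [ArithmeticFunction.coe_moebius_mul_coe_zeta] at h2
  have h3 : ∑ n ∈ Ioc 0 N, (1 : ArithmeticFunction ℝ) n = 1 := by
    rw [sum_eq_single_of_mem 1 (by simp; omega)]
    · simp
    · intro b _ hb
      exact ArithmeticFunction.one_apply_ne hb
  rw [h3] at h2
  have h4 : ∑ n ∈ Ioc 0 N, ((μ : ArithmeticFunction ℝ) * Λ) n =
      - ∑ n ∈ Ioc 0 N, (μ n : ℝ) * Real.log n := by
    rw [← sum_neg_distrib]
    exact sum_congr rfl fun n _ => MER_conv n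
  rw [h4] at h1
  have h5 : ∑ m ∈ Ioc 0 N, ∑ n ∈ Ioc 0 (N / m), (μ m : ℝ) * (Λ n - 1) =
      ∑ m ∈ Ioc 0 N, (μ m : ℝ) * ∑ n ∈ Ioc 0 (N / m), Λ n -
      ∑ m ∈ Ioc 0 N, (μ m : ℝ) * ∑ n ∈ Ioc 0 (N / m), (ζ : ArithmeticFunction ℝ) n := by
    rw [← sum_sub_distrib]
    refine sum_congr rfl fun m _ => ?_
    rw [← mul_sub, ← sum_sub_distrib, mul_sum]
    refine sum_congr rfl fun n hn => ?_
    have hn0 : n ≠ 0 := by
      have := (mem_Ioc.1 hn).1
      omega
    have : (ζ : ArithmeticFunction ℝ) n = 1 := by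
      simp [ArithmeticFunction.natCoe_apply, ArithmeticFunction.zeta_apply, hn0]
    rw [this]
  rw [h5, ← h1, ← h2]
  ring


theorem MER_floor_ge {N n : ℕ} (hn : 1 ≤ n) (h : n ≤ N) : (N : ℝ) / (2 * n) ≤ ((N / n : ℕ) : ℝ) := by
  have hn0 : (0 : ℝ) < n := by exact_mod_cast hn
  have h1 : 1 ≤ N / n := (Nat.le_div_iff_mul_le hn).2 (by simpa using h)
  have h2 : N < n * (N / n + 1) := Nat.lt_mul_div_succ N hn
  have h3 : (N : ℝ) ≤ n * ((N / n : ℕ) + 1) := by exact_mod_cast h2.le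
  have h4 : (1 : ℝ) ≤ ((N / n : ℕ) : ℝ) := by exact_mod_cast h1
  rw [div_le_iff₀ (by positivity)]
  nlinarith

/-- Mertens' upper bound -/
theorem MER_lam (y : ℕ) : ∑ n ∈ Ioc 0 y, Λ n / n ≤ 2 * Real.log y := by
  rcases Nat.eq_zero_or_pos y with rfl | hy
  · simp
  have h1 : ∑ n ∈ Ioc 0 y, (Λ * (ζ : ArithmeticFunction ℝ)) n =
      ∑ n ∈ Ioc 0 y, Λ n * ((y / n : ℕ) : ℝ) := ArithmeticFunction.sum_Ioc_mul_zeta_eq_sum _ _
  rw [ArithmeticFunction.vonMangoldt_mul_zeta] at h1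
  have h2 : ∑ n ∈ Ioc 0 y, ArithmeticFunction.log n ≤ y * Real.log y := by
    calc ∑ m ∈ Ioc 0 y, ArithmeticFunction.log m ≤ ∑ m ∈ Ioc 0 y, Real.log y := by
          refine sum_le_sum fun m hm => ?_
          obtain ⟨h1, h2⟩ := mem_Ioc.1 hm
          rw [ArithmeticFunction.log_apply]
          exact Real.log_le_log (by exact_mod_cast h1) (by exact_mod_cast h2)
      _ = y * Real.log y := by simp
  have h3 : ∑ n ∈ Ioc 0 y, Λ n * ((y : ℝ) / (2 * n)) ≤ ∑ n ∈ Ioc 0 y, Λ n * ((y / n : ℕ) : ℝ) := by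
    refine sum_le_sum fun n hn => ?_
    obtain ⟨h1, h2⟩ := mem_Ioc.1 hn
    exact mul_le_mul_of_nonneg_left (MER_floor_ge h1 h2) ArithmeticFunction.vonMangoldt_nonneg
  have h4 : ∑ n ∈ Ioc 0 y, Λ n * ((y : ℝ) / (2 * n)) = (y : ℝ) / 2 * ∑ n ∈ Ioc 0 y, Λ n / n := by
    rw [mul_sum]
    refine sum_congr rfl fun n hn => ?_
    have : (n : ℝ) ≠ 0 := by
      have := (mem_Ioc.1 hn).1
      positivity
    field_simp
  have h5 : (y : ℝ) / 2 * ∑ n ∈ Ioc 0 y, Λ n / n ≤ y * Real.log y := by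
    rw [← h4]; exact h3.trans (h1 ▸ h2)
  have hy0 : (0 : ℝ) < y := by exact_mod_cast hy
  have h6 : (y : ℝ) / 2 * ∑ n ∈ Ioc 0 y, Λ n / n ≤ (y : ℝ) / 2 * (2 * Real.log y) := by
    linarith
  exact le_of_mul_le_mul_left h6 (by positivity)

theorem MER_harm (y : ℕ) : ∑ n ∈ Ioc 0 y, (1 : ℝ) / n ≤ 1 + Real.log y := by
  have h := harmonic_le_one_add_log y
  have h2 : ((harmonic y : ℚ) : ℝ) = ∑ n ∈ Ioc 0 y, (1 : ℝ) / n := by
    rw [harmonic_eq_sum_Icc]
    push_cast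
    refine sum_congr (by ext; simp [Nat.succ_le_iff, Nat.pos_iff_ne_zero]) fun n _ => by simp
  rw [← h2]; exact h

/-- prime number theorem in the form needed -/
theorem MER_R (k : ℕ) : ∃ C : ℝ, 0 < C ∧ ∀ t : ℕ, 2 ≤ t →
    |∑ n ∈ Ioc 0 t, (Λ n - 1)| ≤ C * t / Real.log t ^ k := by
  obtain ⟨C, hC, h⟩ := Pool.Agent.HC.pnt_strong_pr k
  refine ⟨C, hC, fun t ht => ?_⟩
  have := h t (by exact_mod_cast ht)
  unfold Pool.Agent.HC.psi at this
  rw [Nat.floor_natCast] at this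
  convert this using 2
  rw [sum_sub_distrib]
  simp
  rfl

theorem MER_pow (j : ℕ) : ∃ K : ℝ, 0 < K ∧ ∀ N : ℕ, 1 ≤ N →
    MER_S N ^ j ≤ K * Real.sqrt N := by
  refine ⟨2 ^ j * j.factorial * Real.exp (1 / 2), by positivity, fun N hN => ?_⟩
  have hL := Real.log_natCast_nonneg N
  have hN0 : (0 : ℝ) < N := by exact_mod_cast hN
  have h1 : MER_S N ^ j ≤ (1 + Real.log N) ^ j := by
    rw [← MER_S_sq, ← pow_mul]
    exact pow_le_pow_right₀ (MER_S_one N) (by omega)
  have h2 := Real.pow_div_factorial_le_exp ((1 + Real.log N) / 2) (by positivity) j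
  have h3 : Real.exp ((1 + Real.log N) / 2) = Real.exp (1 / 2) * Real.sqrt N := by
    rw [add_div, Real.exp_add]
    congr 1
    rw [Real.sqrt_eq_rpow, Real.rpow_def_of_pos hN0]
    congr 1
    ring
  rw [h3, div_pow, div_div, div_le_iff₀ (by positivity)] at h2
  calc _ ≤ _ := h1
    _ ≤ _ := h2
    _ = _ := by ring

theorem MER_half {n N : ℕ} (hn : 1 ≤ n) (h : N < n * n) : MER_S N ≤ 2 * MER_S n := by
  have h1 : Real.log N ≤ 2 * Real.log n := by
    rcases Nat.eq_zero_or_pos N with rfl | hN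
    · simp
      exact Real.log_natCast_nonneg n
    have : Real.log N ≤ Real.log (n * n) := Real.log_le_log (by exact_mod_cast hN)
      (by exact_mod_cast h.le)
    have hn0 : (n : ℝ) ≠ 0 := by positivity
    rw [Real.log_mul hn0 hn0] at this
    linarith
  have h2 := Real.log_natCast_nonneg n
  have h3 := MER_S_sq N
  have h4 := MER_S_sq n
  have h5 := MER_S_one N
  have h6 := MER_S_one n
  nlinarith

theorem MER_sumS (j : ℕ) : ∃ K : ℝ, 0 < K ∧ ∀ N : ℕ, 1 ≤ N →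
    ∑ n ∈ Ioc 0 N, 1 / MER_S n ^ j ≤ K * N / MER_S N ^ j := by
  obtain ⟨K, hK, h⟩ := MER_pow j
  refine ⟨K + 2 ^ j, by positivity, fun N hN => ?_⟩
  have hS : 0 < MER_S N ^ j := pow_pos (by have := MER_S_one N; linarith) _
  have hN0 : (0 : ℝ) < N := by exact_mod_cast hN
  have h1 : ∀ n ∈ Ioc 0 N, 1 / MER_S n ^ j ≤ (if n * n ≤ N then 1 else 0) + 2 ^ j / MER_S N ^ j := by
    intro n hn
    obtain ⟨hn1, hn2⟩ := mem_Ioc.1 hn
    have hSn : 0 < MER_S n ^ j := pow_pos (by have := MER_S_one n; linarith) _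
    split_ifs with hc
    · have : 1 / MER_S n ^ j ≤ 1 := by
        rw [div_le_one hSn]
        exact one_le_pow₀ (MER_S_one n)
      have : 0 ≤ (2 : ℝ) ^ j / MER_S N ^ j := by positivity
      linarith
    · rw [zero_add, div_le_div_iff₀ hSn hS, one_mul, ← mul_pow]
      exact pow_le_pow_left₀ (by have := MER_S_one N; linarith) (MER_half hn1 (not_le.1 hc)) j
  refine (sum_le_sum h1).trans ?_
  rw [sum_add_distrib, sum_const, Nat.card_Ioc, nsmul_eq_mul, ← Finset.sum_filter, sum_const,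
    nsmul_eq_mul, mul_one]
  have h2 : ((Ioc 0 N).filter (fun n => n * n ≤ N)).card ≤ Nat.sqrt N := by
    have : (Ioc 0 N).filter (fun n => n * n ≤ N) ⊆ Ioc 0 (Nat.sqrt N) := by
      intro n hn
      simp only [mem_filter, mem_Ioc] at hn ⊢
      exact ⟨hn.1.1, Nat.le_sqrt.2 hn.2⟩
    refine (card_le_card this).trans ?_
    simp
  have h3 : ((((Ioc 0 N).filter (fun n => n * n ≤ N)).card : ℕ) : ℝ) ≤ Real.sqrt N := by
    refine le_trans (by exact_mod_cast h2) Real.nat_sqrt_le_real_sqrt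
  have h4 : Real.sqrt N ≤ K * N / MER_S N ^ j := by
    rw [le_div_iff₀ hS]
    calc Real.sqrt N * MER_S N ^ j ≤ Real.sqrt N * (K * Real.sqrt N) :=
          mul_le_mul_of_nonneg_left (h N hN) (Real.sqrt_nonneg _)
      _ = K * (Real.sqrt N * Real.sqrt N) := by ring
      _ = K * N := by rw [Real.mul_self_sqrt hN0.le]
  have h5 : ((N - 0 : ℕ) : ℝ) * (2 ^ j / MER_S N ^ j) = 2 ^ j * N / MER_S N ^ j := by
    rw [Nat.sub_zero]; ring
  rw [h5]
  calc _ ≤ K * N / MER_S N ^ j + 2 ^ j * N / MER_S N ^ j := by linarith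
    _ = _ := by ring

theorem MER_abel (N : ℕ) : ∑ n ∈ Ioc 0 N, (μ n : ℝ) * (Real.log N - Real.log n) =
    ∑ n ∈ range N, MER_M n * (Real.log ((n : ℝ) + 1) - Real.log n) := by
  induction N with
  | zero => simp
  | succ N ih =>
    rw [sum_range_succ, ← ih]
    have h1 : Ioc 0 (N + 1) = insert (N + 1) (Ioc 0 N) := by
      ext; simp only [mem_Ioc, mem_insert]; omega
    rw [h1, sum_insert (by simp)]
    have h2 : MER_M N = ∑ n ∈ Ioc 0 N, (μ n : ℝ) := by
      unfold MER_M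
      exact sum_congr (by ext; simp only [mem_Icc, mem_Ioc]; omega) fun _ _ => rfl
    rw [h2, sum_mul, ← sum_add_distrib]
    push_cast
    rw [sub_self, mul_zero, zero_add]
    refine sum_congr rfl fun n _ => by ring

theorem MER_U (j : ℕ) {B : ℝ} (hB : 0 < B) (h : ∀ N : ℕ, 1 ≤ N → |MER_M N| * MER_S N ^ j ≤ B * N) :
    ∃ K : ℝ, 0 < K ∧ ∀ N : ℕ, 1 ≤ N →
      |∑ n ∈ Ioc 0 N, (μ n : ℝ) * (Real.log N - Real.log n)| * MER_S N ^ j ≤ K * N := by
  obtain ⟨K, hK, hs⟩ := MER_sumS j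
  refine ⟨B * K, by positivity, fun N hN => ?_⟩
  have hS : 0 < MER_S N ^ j := pow_pos (by have := MER_S_one N; linarith) _
  rw [← le_div_iff₀ hS, MER_abel]
  calc _ ≤ ∑ n ∈ range N, |MER_M n * (Real.log ((n : ℝ) + 1) - Real.log n)| :=
        abs_sum_le_sum_abs _ _
    _ ≤ ∑ n ∈ Ioc 0 N, B * (1 / MER_S n ^ j) := by
        have h1 : ∀ n ∈ range N, |MER_M n * (Real.log ((n : ℝ) + 1) - Real.log n)| ≤
            if n = 0 then 0 else B * (1 / MER_S n ^ j) := by
          intro n _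
          split_ifs with h0
          · subst h0; simp [MER_M]
          have hn : 1 ≤ n := Nat.one_le_iff_ne_zero.2 h0
          have hn0 : (0 : ℝ) < n := by exact_mod_cast hn
          have hSn : 0 < MER_S n ^ j := pow_pos (by have := MER_S_one n; linarith) _
          have h2 : |Real.log ((n : ℝ) + 1) - Real.log n| ≤ 1 / n := by
            rw [← Real.log_div (by positivity) hn0.ne', abs_of_nonneg]
            · have : ((n : ℝ) + 1) / n = 1 + 1 / n := by field_simp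
              rw [this]
              have := Real.log_le_sub_one_of_pos (show (0 : ℝ) < 1 + 1 / n by positivity)
              linarith
            · apply Real.log_nonneg
              rw [le_div_iff₀ hn0]; linarith
          rw [abs_mul]
          have h3 := h n hn
          rw [← le_div_iff₀ hSn] at h3
          calc _ ≤ B * n / MER_S n ^ j * (1 / n) := mul_le_mul h3 h2 (abs_nonneg _) (by positivity)
            _ = _ := by field_simp
        refine (sum_le_sum h1).trans ?_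
        rw [sum_ite, sum_const_zero, zero_add]
        refine sum_le_sum_of_subset_of_nonneg ?_ ?_
        · intro n hn
          simp only [mem_filter, mem_range, mem_Ioc] at hn ⊢
          omega
        · intro n _ _
          have hSn : 0 < MER_S n ^ j := pow_pos (by have := MER_S_one n; linarith) _
          positivity
    _ = B * ∑ n ∈ Ioc 0 N, 1 / MER_S n ^ j := by rw [mul_sum]
    _ ≤ B * (K * N / MER_S N ^ j) := mul_le_mul_of_nonneg_left (hs N hN) hB.le
    _ = _ := by ring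


theorem MER_hyp (N y : ℕ) (hy : y ≤ N) :
    ∑ m ∈ Ioc 0 N, ∑ n ∈ Ioc 0 (N / m), (μ m : ℝ) * (Λ n - 1) =
      ∑ n ∈ Ioc 0 y, (Λ n - 1) * MER_M (N / n) +
      ∑ m ∈ Ioc 0 (N / (y + 1)), (μ m : ℝ) * (∑ n ∈ Ioc 0 (N / m), (Λ n - 1) -
        ∑ n ∈ Ioc 0 y, (Λ n - 1)) := by
  have h1 : ∑ m ∈ Ioc 0 N, ∑ n ∈ Ioc 0 (N / m), (μ m : ℝ) * (Λ n - 1) =
      ∑ m ∈ Ioc 0 N, ∑ n ∈ Ioc 0 (N / m), (μ m : ℝ) * (if n ≤ y then Λ n - 1 else 0) +
      ∑ m ∈ Ioc 0 N, ∑ n ∈ Ioc 0 (N / m), (μ m : ℝ) * (if n ≤ y then 0 else Λ n - 1) := by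
    rw [← sum_add_distrib]
    refine sum_congr rfl fun m _ => ?_
    rw [← sum_add_distrib]
    refine sum_congr rfl fun n _ => ?_
    split_ifs <;> ring
  rw [h1]
  congr 1
  · rw [MER_swap N (fun m n => (μ m : ℝ) * (if n ≤ y then Λ n - 1 else 0))]
    rw [← sum_subset (Ioc_subset_Ioc_right hy)]
    · refine sum_congr rfl fun n hn => ?_
      rw [if_pos (mem_Ioc.1 hn).2, ← sum_mul, mul_comm]
      congr 1
    · intro n _ hn
      simp only [mem_Ioc, not_and, not_le] at *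
      refine sum_eq_zero fun m _ => ?_
      rw [if_neg (by have := hn (by tauto); omega), mul_zero]
  · have h2 : ∀ m ∈ Ioc 0 N, ∑ n ∈ Ioc 0 (N / m), (μ m : ℝ) * (if n ≤ y then 0 else Λ n - 1) =
        if m ≤ N / (y + 1) then (μ m : ℝ) * (∑ n ∈ Ioc 0 (N / m), (Λ n - 1) -
        ∑ n ∈ Ioc 0 y, (Λ n - 1)) else 0 := by
      intro m hm
      obtain ⟨hm1, hm2⟩ := mem_Ioc.1 hm
      split_ifs with hc
      · have h3 : y + 1 ≤ N / m := by
          rw [Nat.le_div_iff_mul_le (by omega)] at hc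
          rw [Nat.le_div_iff_mul_le hm1]
          rwa [mul_comm]
        rw [← mul_sum]
        congr 1
        have h4 : Ioc 0 (N / m) = Ioc 0 y ∪ Ioc y (N / m) := by
          ext; simp only [mem_union, mem_Ioc]; omega
        have h5 : Disjoint (Ioc 0 y) (Ioc y (N / m)) := by
          rw [disjoint_left]; intro a; simp only [mem_Ioc]; omega
        rw [h4, sum_union h5, sum_union h5]
        have h6 : ∑ n ∈ Ioc 0 y, (if n ≤ y then 0 else Λ n - 1) = 0 := by
          refine sum_eq_zero fun n hn => if_pos (mem_Ioc.1 hn).2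
        have h7 : ∑ n ∈ Ioc y (N / m), (if n ≤ y then 0 else Λ n - 1) =
            ∑ n ∈ Ioc y (N / m), (Λ n - 1) := by
          refine sum_congr rfl fun n hn => if_neg (not_le.2 (mem_Ioc.1 hn).1)
        rw [h6, h7]
        ring
      · refine sum_eq_zero fun n hn => ?_
        have h3 : N / m ≤ y := by
          by_contra hcc
          apply hc
          rw [Nat.le_div_iff_mul_le (by omega)]
          have := (Nat.le_div_iff_mul_le hm1).1 (not_le.1 hcc)
          rwa [mul_comm]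
        rw [if_pos ((mem_Ioc.1 hn).2.trans h3), mul_zero]
    rw [sum_congr rfl h2, ← sum_filter]
    refine sum_congr ?_ fun _ _ => rfl
    ext m
    simp only [mem_filter, mem_Ioc]
    constructor
    · rintro ⟨⟨h1, h2⟩, h3⟩; exact ⟨h1, h3⟩
    · rintro ⟨h1, h3⟩
      exact ⟨⟨h1, h3.trans (Nat.div_le_self _ _)⟩, h3⟩


theorem MER_step (j : ℕ) (h : ∃ B : ℝ, 0 < B ∧ ∀ N : ℕ, 1 ≤ N → |MER_M N| * MER_S N ^ j ≤ B * N) :
    ∃ B : ℝ, 0 < B ∧ ∀ N : ℕ, 1 ≤ N → |MER_M N| * MER_S N ^ (j + 1) ≤ B * N := by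
  obtain ⟨B, hB, hM⟩ := h
  obtain ⟨KU, hKU, hU⟩ := MER_U j hB hM
  obtain ⟨C, hC, hR⟩ := MER_R (j + 1)
  obtain ⟨KP, hKP, hP⟩ := MER_pow j
  -- the constants
  set K1 : ℝ := B * 2 ^ j * 4 with hK1
  set K2 : ℝ := 2 * C * 2 ^ (j + 1) with hK2
  refine ⟨2 ^ (j + 1) + 4 / 3 * (KU + KP + K1 + K2), by positivity, fun N hN => ?_⟩
  have hS1 := MER_S_one N
  have hN0 : (0 : ℝ) < N := by exact_mod_cast hN
  have hN1 : (1 : ℝ) ≤ N := by exact_mod_cast hN
  set S := MER_S N with hS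
  have hS0 : 0 < S := by linarith
  rcases lt_or_ge S 2 with hS2 | hS2
  · have h1 : |MER_M N| * S ^ (j + 1) ≤ N * 2 ^ (j + 1) :=
      mul_le_mul (MER_triv N) (pow_le_pow_left₀ hS0.le hS2.le _) (by positivity) hN0.le
    have h2 : 0 ≤ 4 / 3 * (KU + KP + K1 + K2) * N := by positivity
    linarith
  have hSS : S ^ 2 = 1 + Real.log N := MER_S_sq N
  -- choice of y
  set y := ⌊Real.exp S⌋₊ with hy
  have hyle : (y : ℝ) ≤ Real.exp S := Nat.floor_le (Real.exp_pos _).le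
  have hylt : Real.exp S < y + 1 := Nat.lt_floor_add_one _
  have hexp2 : (7 : ℝ) ≤ Real.exp S := by
    have h1 : Real.exp 2 ≤ Real.exp S := Real.exp_le_exp.2 hS2
    have h2 : Real.exp 2 = Real.exp 1 * Real.exp 1 := by rw [← Real.exp_add]; norm_num
    have h3 := Real.exp_one_gt_d9
    nlinarith
  have hy6 : (6 : ℝ) ≤ y := by linarith
  have hy6' : 6 ≤ y := by exact_mod_cast hy6
  have hy0 : (0 : ℝ) < y := by linarith
  have hyN : y ≤ N := by
    have h1 : Real.exp S ≤ N := by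
      rw [← Real.exp_log hN0]
      apply Real.exp_le_exp.2
      nlinarith
    exact_mod_cast hyle.trans h1
  have hlogy : Real.log y ≤ S := by
    rw [← Real.log_exp S]
    exact Real.log_le_log hy0 hyle
  have hl2 : Real.log 2 ≤ 0.7 := by
    have := Real.log_two_lt_d9
    linarith
  have hl2' : 0 ≤ Real.log 2 := Real.log_nonneg (by norm_num)
  have hlogy2 : S / 2 ≤ Real.log y := by
    have h1 : Real.exp S / 2 ≤ y := by linarith
    have h2 := Real.log_le_log (by positivity) h1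
    rw [Real.log_div (Real.exp_pos _).ne' (by norm_num), Real.log_exp] at h2
    linarith
  -- the first part
  have hp1 : |∑ n ∈ Ioc 0 y, (Λ n - 1) * MER_M (N / n)| * S ^ j ≤ K1 * N * S := by
    have h1 : ∀ n ∈ Ioc 0 y, |(Λ n - 1) * MER_M (N / n)| * S ^ j ≤
        (Λ n / n + 1 / n) * (B * 2 ^ j * N) := by
      intro n hn
      obtain ⟨hn1, hn2⟩ := mem_Ioc.1 hn
      have hn0 : (0 : ℝ) < n := by exact_mod_cast hn1
      have hnN : n ≤ N := hn2.trans hyN
      have hq1 : 1 ≤ N / n := (Nat.le_div_iff_mul_le hn1).2 (by simpa using hnN)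
      have h2 := hM (N / n) hq1
      have h3 : S ≤ 2 * MER_S (N / n) := by
        have h4 := MER_S_sq (N / n)
        have h5 := MER_S_one (N / n)
        have h6 : Real.log N - Real.log 2 - Real.log n ≤ Real.log ((N / n : ℕ) : ℝ) := by
          have h7 := Real.log_le_log (by positivity) (MER_floor_ge hn1 hnN)
          rw [Real.log_div hN0.ne' (by positivity), Real.log_mul (by norm_num) hn0.ne'] at h7
          linarith
        have h8 : Real.log n ≤ S := by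
          refine le_trans (Real.log_le_log hn0 (by exact_mod_cast hn2)) hlogy
        nlinarith
      have h4 : S ^ j ≤ 2 ^ j * MER_S (N / n) ^ j := by
        rw [← mul_pow]
        exact pow_le_pow_left₀ hS0.le h3 j
      have h5 : |Λ n - 1| ≤ Λ n + 1 := by
        have := ArithmeticFunction.vonMangoldt_nonneg (n := n)
        rw [abs_le]; constructor <;> linarith
      have h6 : ((N / n : ℕ) : ℝ) ≤ N / n := Nat.cast_div_le
      rw [abs_mul]
      have h7 : |MER_M (N / n)| * S ^ j ≤ B * 2 ^ j * (N / n) := by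
        calc |MER_M (N / n)| * S ^ j ≤ |MER_M (N / n)| * (2 ^ j * MER_S (N / n) ^ j) :=
              mul_le_mul_of_nonneg_left h4 (abs_nonneg _)
          _ = 2 ^ j * (|MER_M (N / n)| * MER_S (N / n) ^ j) := by ring
          _ ≤ 2 ^ j * (B * (N / n)) := by
              refine mul_le_mul_of_nonneg_left (h2.trans ?_) (by positivity)
              exact mul_le_mul_of_nonneg_left h6 hB.le
          _ = _ := by ring
      calc |Λ n - 1| * |MER_M (N / n)| * S ^ j = |Λ n - 1| * (|MER_M (N / n)| * S ^ j) := by ring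
        _ ≤ (Λ n + 1) * (B * 2 ^ j * (N / n)) := by
            refine mul_le_mul h5 h7 (by positivity) ?_
            have := ArithmeticFunction.vonMangoldt_nonneg (n := n)
            linarith
        _ = _ := by field_simp
    calc |∑ n ∈ Ioc 0 y, (Λ n - 1) * MER_M (N / n)| * S ^ j
        ≤ (∑ n ∈ Ioc 0 y, |(Λ n - 1) * MER_M (N / n)|) * S ^ j :=
          mul_le_mul_of_nonneg_right (abs_sum_le_sum_abs _ _) (by positivity)
      _ = ∑ n ∈ Ioc 0 y, |(Λ n - 1) * MER_M (N / n)| * S ^ j := by rw [sum_mul]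
      _ ≤ ∑ n ∈ Ioc 0 y, (Λ n / n + 1 / n) * (B * 2 ^ j * N) := sum_le_sum h1
      _ = (∑ n ∈ Ioc 0 y, Λ n / n + ∑ n ∈ Ioc 0 y, (1 : ℝ) / n) * (B * 2 ^ j * N) := by
          rw [← sum_mul, sum_add_distrib]
      _ ≤ (4 * S) * (B * 2 ^ j * N) := by
          refine mul_le_mul_of_nonneg_right ?_ (by positivity)
          have := MER_lam y
          have := MER_harm y
          linarith
      _ = K1 * N * S := by rw [hK1]; ring
  -- the second part
  have hp2 : |∑ m ∈ Ioc 0 (N / (y + 1)), (μ m : ℝ) * (∑ n ∈ Ioc 0 (N / m), (Λ n - 1) -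
        ∑ n ∈ Ioc 0 y, (Λ n - 1))| * S ^ j ≤ K2 * N * S := by
    have hRt : ∀ t : ℕ, y ≤ t → |∑ n ∈ Ioc 0 t, (Λ n - 1)| ≤ C * 2 ^ (j + 1) * t / S ^ (j + 1) := by
      intro t ht
      have h1 := hR t (by omega)
      have ht0 : (0 : ℝ) < t := by
        have : 0 < t := by omega
        exact_mod_cast this
      have h2 : S / 2 ≤ Real.log t :=
        hlogy2.trans (Real.log_le_log hy0 (by exact_mod_cast ht))
      have h3 : (S / 2) ^ (j + 1) ≤ Real.log t ^ (j + 1) :=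
        pow_le_pow_left₀ (by positivity) h2 _
      refine h1.trans ?_
      have h4 : 0 < (S / 2) ^ (j + 1) := by positivity
      calc C * t / Real.log t ^ (j + 1) ≤ C * t / (S / 2) ^ (j + 1) :=
            div_le_div_of_nonneg_left (by positivity) h4 h3
        _ = _ := by rw [div_pow]; field_simp
    have h1 : ∀ m ∈ Ioc 0 (N / (y + 1)), |(μ m : ℝ) * (∑ n ∈ Ioc 0 (N / m), (Λ n - 1) -
        ∑ n ∈ Ioc 0 y, (Λ n - 1))| ≤ 1 / m * (K2 * N / S ^ (j + 1)) := by
      intro m hm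
      obtain ⟨hm1, hm2⟩ := mem_Ioc.1 hm
      have hm0 : (0 : ℝ) < m := by exact_mod_cast hm1
      have h3 : y + 1 ≤ N / m := by
        rw [Nat.le_div_iff_mul_le (by omega)] at hm2
        rw [Nat.le_div_iff_mul_le hm1]
        rwa [mul_comm]
      have h4 : ((N / m : ℕ) : ℝ) ≤ N / m := Nat.cast_div_le
      have h5 : (y : ℝ) ≤ N / m := by
        refine le_trans ?_ h4
        have : y ≤ N / m := by omega
        exact_mod_cast this
      rw [abs_mul]
      have h6 := hRt (N / m) (by omega)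
      have h7 := hRt y le_rfl
      have h8 : C * 2 ^ (j + 1) * ((N / m : ℕ) : ℝ) / S ^ (j + 1) ≤
          C * 2 ^ (j + 1) * (N / m) / S ^ (j + 1) := by gcongr
      have h9 : C * 2 ^ (j + 1) * (y : ℝ) / S ^ (j + 1) ≤
          C * 2 ^ (j + 1) * (N / m) / S ^ (j + 1) := by gcongr
      have h10 := abs_sub (∑ n ∈ Ioc 0 (N / m), (Λ n - 1)) (∑ n ∈ Ioc 0 y, (Λ n - 1))
      have h11 : |∑ n ∈ Ioc 0 (N / m), (Λ n - 1) - ∑ n ∈ Ioc 0 y, (Λ n - 1)| ≤
          2 * (C * 2 ^ (j + 1) * (N / m) / S ^ (j + 1)) := by linarith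
      calc |(μ m : ℝ)| * |∑ n ∈ Ioc 0 (N / m), (Λ n - 1) - ∑ n ∈ Ioc 0 y, (Λ n - 1)|
          ≤ 1 * (2 * (C * 2 ^ (j + 1) * (N / m) / S ^ (j + 1))) :=
            mul_le_mul (MER_mu_abs m) h11 (abs_nonneg _) zero_le_one
        _ = _ := by rw [hK2]; field_simp
    have h2 : ∑ m ∈ Ioc 0 (N / (y + 1)), (1 : ℝ) / m ≤ S ^ 2 := by
      refine (MER_harm _).trans ?_
      rw [hSS]
      rcases Nat.eq_zero_or_pos (N / (y + 1)) with h0 | h0
      · rw [h0]; simp; exact Real.log_nonneg hN1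
      · have : Real.log ((N / (y + 1) : ℕ) : ℝ) ≤ Real.log N :=
          Real.log_le_log (by exact_mod_cast h0) (by exact_mod_cast Nat.div_le_self _ _)
        linarith
    calc _ ≤ (∑ m ∈ Ioc 0 (N / (y + 1)), 1 / (m : ℝ) * (K2 * N / S ^ (j + 1))) * S ^ j := by
          refine mul_le_mul_of_nonneg_right ((abs_sum_le_sum_abs _ _).trans (sum_le_sum h1))
            (by positivity)
      _ = (∑ m ∈ Ioc 0 (N / (y + 1)), 1 / (m : ℝ)) * (K2 * N / S) := by
          rw [← sum_mul, pow_succ]; field_simp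
      _ ≤ S ^ 2 * (K2 * N / S) := by
          refine mul_le_mul_of_nonneg_right h2 (by positivity)
      _ = K2 * N * S := by field_simp
  -- conclusion
  have hT : |∑ n ∈ Ioc 0 N, (μ n : ℝ) * Real.log n| * S ^ j ≤ (KP + K1 + K2) * N * S := by
    rw [MER_ident N hN, MER_hyp N y hyN]
    set P1 := ∑ n ∈ Ioc 0 y, (Λ n - 1) * MER_M (N / n)
    set P2 := ∑ m ∈ Ioc 0 (N / (y + 1)), (μ m : ℝ) * (∑ n ∈ Ioc 0 (N / m), (Λ n - 1) -
        ∑ n ∈ Ioc 0 y, (Λ n - 1))
    have h1 : |-1 - (P1 + P2)| ≤ 1 + |P1| + |P2| := by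
      have ha := abs_add_le P1 P2
      have hb := abs_sub (-1 : ℝ) (P1 + P2)
      have hc : |(-1 : ℝ)| = 1 := by simp
      linarith
    have h2 : S ^ j ≤ KP * N * S := by
      have h3 := hP N hN
      have h4 : Real.sqrt N ≤ N := by
        rw [Real.sqrt_le_left (by positivity)]
        nlinarith
      calc S ^ j ≤ KP * Real.sqrt N := h3
        _ ≤ KP * N := mul_le_mul_of_nonneg_left h4 hKP.le
        _ ≤ KP * N * S := le_mul_of_one_le_right (by positivity) hS1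
    calc |-1 - (P1 + P2)| * S ^ j ≤ (1 + |P1| + |P2|) * S ^ j :=
          mul_le_mul_of_nonneg_right h1 (by positivity)
      _ = S ^ j + |P1| * S ^ j + |P2| * S ^ j := by ring
      _ ≤ KP * N * S + K1 * N * S + K2 * N * S := add_le_add (add_le_add h2 hp1) hp2
      _ = _ := by ring
  have hV := hU N hN
  have hMlog : |MER_M N| * Real.log N * S ^ j ≤ (KU + KP + K1 + K2) * N * S := by
    have h1 : MER_M N * Real.log N = ∑ n ∈ Ioc 0 N, (μ n : ℝ) * Real.log n +
        ∑ n ∈ Ioc 0 N, (μ n : ℝ) * (Real.log N - Real.log n) := by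
      have h2 : MER_M N = ∑ n ∈ Ioc 0 N, (μ n : ℝ) := by
        unfold MER_M
        exact sum_congr (by ext; simp only [mem_Icc, mem_Ioc]; omega) fun _ _ => rfl
      rw [h2, sum_mul, ← sum_add_distrib]
      exact sum_congr rfl fun n _ => by ring
    have h2 : |MER_M N| * Real.log N = |MER_M N * Real.log N| := by
      rw [abs_mul, abs_of_nonneg (Real.log_nonneg hN1)]
    rw [h2, h1]
    calc _ ≤ (|∑ n ∈ Ioc 0 N, (μ n : ℝ) * Real.log n| +
        |∑ n ∈ Ioc 0 N, (μ n : ℝ) * (Real.log N - Real.log n)|) * S ^ j :=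
          mul_le_mul_of_nonneg_right (abs_add_le _ _) (by positivity)
      _ ≤ (KP + K1 + K2) * N * S + KU * N := by rw [add_mul]; exact add_le_add hT hV
      _ ≤ (KP + K1 + K2) * N * S + KU * N * S := by
          have : KU * N ≤ KU * N * S := le_mul_of_one_le_right (by positivity) hS1
          linarith
      _ = _ := by ring
  have hlog : 3 / 4 * S ^ 2 ≤ Real.log N := by nlinarith
  have h1 : |MER_M N| * (3 / 4 * S ^ 2) * S ^ j ≤ (KU + KP + K1 + K2) * N * S := by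
    refine le_trans ?_ hMlog
    gcongr
  have h2 : |MER_M N| * S ^ (j + 1) * S ≤ 4 / 3 * (KU + KP + K1 + K2) * N * S := by
    calc |MER_M N| * S ^ (j + 1) * S = 4 / 3 * (|MER_M N| * (3 / 4 * S ^ 2) * S ^ j) := by ring
      _ ≤ 4 / 3 * ((KU + KP + K1 + K2) * N * S) := by gcongr
      _ = _ := by ring
  have h3 := le_of_mul_le_mul_right h2 hS0
  have h4 : 0 ≤ (2 : ℝ) ^ (j + 1) * N := by positivity
  linarith

theorem MER_all (j : ℕ) : ∃ B : ℝ, 0 < B ∧ ∀ N : ℕ, 1 ≤ N → |MER_M N| * MER_S N ^ j ≤ B * N := by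
  induction j with
  | zero => exact ⟨1, one_pos, fun N _ => by simpa using MER_triv N⟩
  | succ j ih => exact MER_step j ih

/-- strong bound for the Mertens function -/
theorem MER_main (k : ℕ) : ∃ C : ℝ, 1 ≤ C ∧ ∀ x : ℝ, 2 ≤ x →
    |MER_M ⌊x⌋₊| ≤ C * x / Real.log x ^ k := by
  obtain ⟨B, hB, h⟩ := MER_all (2 * k)
  refine ⟨B + 1, by linarith, fun x hx => ?_⟩
  have hx0 : 0 < x := by linarith
  have hN1 : 1 ≤ ⌊x⌋₊ := Nat.le_floor (by simpa using (by linarith : (1 : ℝ) ≤ x))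
  have hN0 : (0 : ℝ) < (⌊x⌋₊ : ℝ) := by exact_mod_cast hN1
  have hfl : (⌊x⌋₊ : ℝ) ≤ x := Nat.floor_le hx0.le
  have hfl2 : x < ⌊x⌋₊ + 1 := Nat.lt_floor_add_one x
  have hlx : 0 < Real.log x := Real.log_pos (by linarith)
  rw [le_div_iff₀ (pow_pos hlx k)]
  have h1 : Real.log x ≤ MER_S ⌊x⌋₊ ^ 2 := by
    rw [MER_S_sq]
    have h2 : x ≤ 2 * (⌊x⌋₊ : ℝ) := by
      have : (1 : ℝ) ≤ (⌊x⌋₊ : ℝ) := by exact_mod_cast hN1
      linarith
    have h3 := Real.log_le_log hx0 h2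
    rw [Real.log_mul (by norm_num) hN0.ne'] at h3
    have := Real.log_two_lt_d9
    linarith
  calc |MER_M ⌊x⌋₊| * Real.log x ^ k ≤ |MER_M ⌊x⌋₊| * (MER_S ⌊x⌋₊ ^ 2) ^ k := by gcongr
    _ = |MER_M ⌊x⌋₊| * MER_S ⌊x⌋₊ ^ (2 * k) := by rw [← pow_mul]
    _ ≤ B * ⌊x⌋₊ := h _ hN1
    _ ≤ (B + 1) * x := by nlinarith

end Pool.Agent.LSP
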