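import Pool.Agent.Lib_helper53.LSPAF.LA1
import Pool.Agent.Lib_helper53.LSPAF.MER

/-! Block LA2: the Mertens function from the strong prime number theorem. -/

set_option autoImplicit false

namespace Pool.Agent.LSP

open Pool.Agent.LEV Pool.Agent.LVB Pool.Agent.KSL
open Pool.Agent.FG61 (mu phi cc ff AA Lam)
open Finset

theorem la2_MS (x : ℝ) : MS 1 x = MER_M ⌊x⌋₊ := by
  unfold MS MER_M
  rw [filter_true_of_mem (fun n _ => Nat.coprime_one_right n)]

theorem ms_one (k : ℕ) : ∃ C : ℝ, 1 ≤ C ∧ ∀ x : ℝ, 2 ≤ x →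
    |MS 1 x| ≤ C * x / Real.log x ^ k := by
  obtain ⟨C, hC, h⟩ := MER_main k
  exact ⟨C, hC, fun x hx => by rw [la2_MS]; exact h x hx⟩

end Pool.Agent.LSP
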