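import Pool.Agent.Lib_helper53.LSPAF.Base

/-! LSP part A, block LA3 (helper21). -/

set_option autoImplicit false

namespace Pool.Agent.LSP

open Pool.Agent.LEV Pool.Agent.LVB Pool.Agent.KSL
open Pool.Agent.FG61 (mu phi cc ff AA Lam)
open Finset

theorem ms_rec (K p : ℕ) (hp : p.Prime) (hpK : ¬ p ∣ K) (x : ℝ) (hx : 0 < x) :
    MS (p * K) x = MS K x + MS (p * K) (x / p) := by
  have hp0 : (0 : ℝ) < p := by exact_mod_cast hp.pos
  unfold MS
  have hsplit : (Icc 1 ⌊x⌋₊).filter (fun m => Nat.Coprime m K) =
      ((Icc 1 ⌊x⌋₊).filter (fun m => Nat.Coprime m (p * K))) ∪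
      ((Icc 1 ⌊x⌋₊).filter (fun m => Nat.Coprime m K ∧ p ∣ m)) := by
    ext m
    simp only [mem_union, mem_filter]
    constructor
    · rintro ⟨h1, h2⟩
      by_cases h : p ∣ m
      · exact Or.inr ⟨h1, h2, h⟩
      · refine Or.inl ⟨h1, ?_⟩
        exact Nat.Coprime.mul_right ((hp.coprime_iff_not_dvd.2 h).symm) h2
    · rintro (⟨h1, h2⟩ | ⟨h1, h2, _⟩)
      · exact ⟨h1, Nat.Coprime.coprime_mul_left_right h2⟩
      · exact ⟨h1, h2⟩
  have hdisj : Disjoint ((Icc 1 ⌊x⌋₊).filter (fun m => Nat.Coprime m (p * K)))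
      ((Icc 1 ⌊x⌋₊).filter (fun m => Nat.Coprime m K ∧ p ∣ m)) := by
    rw [Finset.disjoint_left]
    intro m h1 h2
    rw [mem_filter] at h1 h2
    have h3 : Nat.Coprime m p := Nat.Coprime.coprime_mul_right_right h1.2
    exact (hp.coprime_iff_not_dvd.1 h3.symm) h2.2.2
  rw [hsplit, Finset.sum_union hdisj]
  have hfl : ∀ m : ℕ, m ≤ ⌊x / p⌋₊ ↔ p * m ≤ ⌊x⌋₊ := by
    intro m
    rw [Nat.le_floor_iff (by positivity), Nat.le_floor_iff hx.le, le_div_iff₀ hp0]
    push_cast
    rw [mul_comm]
  have key : ∑ m ∈ (Icc 1 ⌊x⌋₊).filter (fun m => Nat.Coprime m K ∧ p ∣ m), mu m =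
      ∑ m ∈ (Icc 1 ⌊x / p⌋₊).filter (fun n => n.Coprime (p * K)), -mu m := by
    rw [← Finset.sum_filter_add_sum_filter_not
      ((Icc 1 ⌊x⌋₊).filter (fun m => Nat.Coprime m K ∧ p ∣ m)) (fun m => p ^ 2 ∣ m)]
    have hz : ∑ m ∈ ((Icc 1 ⌊x⌋₊).filter (fun m => Nat.Coprime m K ∧ p ∣ m)).filter
        (fun m => p ^ 2 ∣ m), mu m = 0 := by
      refine Finset.sum_eq_zero fun m hm => ?_
      have h1 := (mem_filter.1 hm).2
      have h2 : ¬ Squarefree m := by
        intro h
        have := h p (by rw [← sq]; exact h1)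
        exact hp.one_lt.ne' (Nat.isUnit_iff.1 this)
      unfold mu
      rw [ArithmeticFunction.moebius_eq_zero_of_not_squarefree h2]
      simp
    rw [hz, zero_add]
    symm
    refine Finset.sum_bij (fun m _ => p * m) ?_ ?_ ?_ ?_
    · intro m hm
      rw [mem_filter, mem_Icc] at hm
      obtain ⟨⟨h1, h2⟩, h3⟩ := hm
      have h4 : Nat.Coprime m p := Nat.Coprime.coprime_mul_right_right h3
      have h5 : Nat.Coprime m K := Nat.Coprime.coprime_mul_left_right h3
      rw [mem_filter, mem_filter, mem_Icc]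
      refine ⟨⟨⟨?_, (hfl m).1 h2⟩, ?_, Dvd.intro _ rfl⟩, ?_⟩
      · have := hp.pos; nlinarith
      · exact Nat.Coprime.mul_left (hp.coprime_iff_not_dvd.2 hpK) h5
      · intro h
        rw [sq, Nat.mul_dvd_mul_iff_left hp.pos] at h
        exact (hp.coprime_iff_not_dvd.1 h4.symm) h
    · intro a _ b _ hab
      exact Nat.eq_of_mul_eq_mul_left hp.pos hab
    · intro m hm
      rw [mem_filter, mem_filter, mem_Icc] at hm
      obtain ⟨⟨⟨h1, h2⟩, h3, h4⟩, h5⟩ := hm
      obtain ⟨m', rfl⟩ := h4
      refine ⟨m', ?_, rfl⟩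
      rw [mem_filter, mem_Icc]
      refine ⟨⟨?_, (hfl m').2 h2⟩, ?_⟩
      · rcases Nat.eq_zero_or_pos m' with h | h
        · subst h; simp at h1
        · exact h
      · have h6 : ¬ p ∣ m' := by
          intro h
          apply h5
          rw [sq]
          exact mul_dvd_mul_left p h
        exact Nat.Coprime.mul_right ((hp.coprime_iff_not_dvd.2 h6).symm)
          (Nat.Coprime.coprime_mul_left h3)
    · intro m hm
      rw [mem_filter, mem_Icc] at hm
      have h4 : Nat.Coprime p m := (Nat.Coprime.coprime_mul_right_right hm.2).symm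
      unfold mu
      rw [ArithmeticFunction.isMultiplicative_moebius.map_mul_of_coprime h4,
        ArithmeticFunction.moebius_apply_prime hp]
      push_cast
      ring
  rw [key, sum_neg_distrib]
  ring

/-- the product in Rankin's method -/
theorem ms_cop {ε C σ : ℝ} (hε : 0 ≤ ε) (hC : 0 ≤ C) (hσ : 0 < σ) (hσ2 : σ ≤ 1 / 2)
    (h : ∀ x : ℝ, 0 < x → |MS 1 x| ≤ ε * x + C * x ^ (1 - σ)) :
    ∀ K : ℕ, 1 ≤ K → ∀ x : ℝ, 0 < x → |MS K x| ≤ ε * x * (K / phi K) +
      C * x ^ (1 - σ) * ∏ p ∈ K.primeFactors, (1 - (p : ℝ) ^ (-(1 - σ)))⁻¹ := by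
  have hzero : ∀ (K : ℕ) (x : ℝ), x < 1 → MS K x = 0 := by
    intro K x hx
    unfold MS
    rw [Nat.floor_eq_zero.2 hx]
    simp
  intro K
  induction K using induction_on_primes with
  | zero => intro h; omega
  | one =>
      intro _ x hx
      have := h x hx
      simpa [phi] using this
  | prime_mul p a hp ih =>
      intro hK
      have ha : 1 ≤ a := by
        rcases Nat.eq_zero_or_pos a with h | h
        · subst h; simp at hK
        · exact h
      by_cases hpa : p ∣ a
      · intro x hx
        have e1 : MS (p * a) x = MS a x := by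
          unfold MS
          refine Finset.sum_congr (Finset.filter_congr fun m _ => ?_) fun _ _ => rfl
          constructor
          · intro h; exact Nat.Coprime.coprime_mul_left_right h
          · intro h; exact Nat.Coprime.mul_right (Nat.Coprime.coprime_dvd_right hpa h) h
        rw [e1, aab_dvd2 p a hp hpa, aab_dvd3 p a hp hpa ha]
        exact ih ha x hx
      · have hp0 : (0 : ℝ) < p := by exact_mod_cast hp.pos
        have hp2 : (2 : ℝ) ≤ p := by exact_mod_cast hp.two_le
        have hc := aab_hc a p ha hp hpa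
        have hpt := aab_pt hσ2 hp
        have hkap : aab_kp σ (p * a) = aab_kp σ a + (p : ℝ) ^ (-(1 - σ)) * aab_kp σ (p * a) := by
          have h1 : aab_kp σ (p * a) = (1 - (p : ℝ) ^ (-(1 - σ)))⁻¹ * aab_kp σ a := by
            unfold aab_kp
            have h2 : (p * a).primeFactors = insert p a.primeFactors := by
              rw [Nat.primeFactors_mul hp.ne_zero (by omega), hp.primeFactors]
              rfl
            rw [h2, Finset.prod_insert (by simp [Nat.mem_primeFactors, hpa])]
          have h3 : (1 - (p : ℝ) ^ (-(1 - σ))) ≠ 0 := by linarith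
          have h4 : (1 - (p : ℝ) ^ (-(1 - σ))) * aab_kp σ (p * a) = aab_kp σ a := by
            rw [h1, ← mul_assoc, mul_inv_cancel₀ h3, one_mul]
          linarith
        have hkn := aab_kp_nonneg hσ2 (p * a)
        have hcnn : 0 ≤ ((p * a : ℕ) : ℝ) / phi (p * a) := by
          unfold phi; positivity
        have step : ∀ n : ℕ, ∀ x : ℝ, 0 < x → x < 2 ^ n →
            |MS (p * a) x| ≤ ε * x * (((p * a : ℕ) : ℝ) / phi (p * a)) +
              C * x ^ (1 - σ) * aab_kp σ (p * a) := by
          intro n
          induction n with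
          | zero =>
              intro x hx hx1
              rw [pow_zero] at hx1
              rw [hzero _ x hx1, abs_zero]
              have : 0 ≤ x ^ (1 - σ) := Real.rpow_nonneg hx.le _
              positivity
          | succ n ihn =>
              intro x hx hxn
              have hr := ms_rec a p hp hpa x hx
              have h1 := ih ha x hx
              have h2 := ihn (x / p) (by positivity) (by
                rw [div_lt_iff₀ hp0]
                have : (2 : ℝ) ^ (n + 1) = 2 ^ n * 2 := pow_succ _ _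
                nlinarith [pow_pos (two_pos : (0 : ℝ) < 2) n])
              have e1 : (x / p) ^ (1 - σ) = x ^ (1 - σ) * (p : ℝ) ^ (-(1 - σ)) := by
                rw [Real.div_rpow hx.le hp0.le, Real.rpow_neg hp0.le, div_eq_mul_inv]
              have h3 : |MS (p * a) x| ≤ |MS a x| + |MS (p * a) (x / p)| := by
                rw [hr]; exact abs_add_le _ _
              have h1' : |MS a x| ≤ ε * x * (a / phi a) + C * x ^ (1 - σ) * aab_kp σ a := h1
              have e2 : ε * x * (((p * a : ℕ) : ℝ) / phi (p * a)) =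
                  ε * x * (a / phi a) + ε * (x / p) * (((p * a : ℕ) : ℝ) / phi (p * a)) := by
                linear_combination (ε * x) * hc
              have e3 : C * x ^ (1 - σ) * aab_kp σ (p * a) = C * x ^ (1 - σ) * aab_kp σ a +
                  C * (x / p) ^ (1 - σ) * aab_kp σ (p * a) := by
                rw [e1]
                linear_combination (C * x ^ (1 - σ)) * hkap
              rw [e2, e3]
              linarith
        intro x hx
        obtain ⟨n, hn⟩ := pow_unbounded_of_one_lt x (one_lt_two : (1 : ℝ) < 2)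
        exact step n x hx hn

example : type_of% @ms_rec := @ms_rec
example : type_of% @ms_cop := @ms_cop

end Pool.Agent.LSP
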