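import Pool.Agent.Lib_helper53.LSPAF.LA2
import Pool.Agent.Lib_helper53.LSPAF.LA3

/-! LSP block LA4 (helper79). -/

set_option autoImplicit false

namespace Pool.Agent.LSP

open Pool.Agent.LEV Pool.Agent.LVB Pool.Agent.KSL
open Pool.Agent.FG61 (mu phi cc ff AA Lam)
open Finset

/-- the rough kernel -/
def la4_r (z K : ℕ) : ℕ := ∏ p ∈ K.primeFactors.filter (fun p => z < p), p

theorem la4_r_pf (z K : ℕ) :
    (la4_r z K).primeFactors = K.primeFactors.filter (fun p => z < p) := by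
  unfold la4_r
  exact Nat.primeFactors_prod fun p hp => Nat.prime_of_mem_primeFactors (Finset.mem_filter.1 hp).1

theorem la4_r_pos (z K : ℕ) : 1 ≤ la4_r z K := by
  unfold la4_r
  exact Finset.prod_pos fun p hp => (Nat.prime_of_mem_primeFactors (Finset.mem_filter.1 hp).1).pos

theorem la4_r_rough (z K : ℕ) : rough z (la4_r z K) := by
  intro p hp hd
  have h1 : p ∈ (la4_r z K).primeFactors :=
    Nat.mem_primeFactors.2 ⟨hp, hd, Nat.one_le_iff_ne_zero.1 (la4_r_pos z K)⟩
  rw [la4_r_pf] at h1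
  exact (Finset.mem_filter.1 h1).2

theorem la4_r_le {z K : ℕ} (hK : 1 ≤ K) : la4_r z K ≤ K := by
  refine Nat.le_of_dvd hK ?_
  refine dvd_trans ?_ (Nat.prod_primeFactors_dvd K)
  exact Finset.prod_dvd_prod_of_subset _ _ _ (Finset.filter_subset _ _)

theorem la4_kp {σ : ℝ} (z : ℕ) {K : ℕ} (hK : 1 ≤ K) :
    aab_kp σ (K * Pz z) = aab_kp σ (la4_r z K) * aab_kp σ (Pz z) := by
  have hP : Pz z ≠ 0 := (aax_Pz_pos z).ne'
  unfold aab_kp
  have h1 : (K * Pz z).primeFactors = (la4_r z K).primeFactors ∪ (Pz z).primeFactors := by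
    rw [Nat.primeFactors_mul (by omega) hP, la4_r_pf]
    ext p
    simp only [Finset.mem_union, Finset.mem_filter]
    constructor
    · rintro (h | h)
      · by_cases hz : z < p
        · exact Or.inl ⟨h, hz⟩
        · right
          rw [aax_Pz_primeFactors]
          have hp := Nat.prime_of_mem_primeFactors h
          exact Finset.mem_filter.2 ⟨Finset.mem_Icc.2 ⟨hp.one_le, by omega⟩, hp⟩
      · exact Or.inr h
    · rintro (h | h)
      · exact Or.inl h.1
      · exact Or.inr h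
  have h2 : Disjoint (la4_r z K).primeFactors (Pz z).primeFactors := by
    rw [la4_r_pf, aax_Pz_primeFactors, Finset.disjoint_left]
    intro p hp hp'
    have h3 := (Finset.mem_filter.1 hp).2
    have h4 := (Finset.mem_Icc.1 (Finset.mem_filter.1 hp').1).2
    omega
  rw [h1, Finset.prod_union h2]

theorem la4_mu (n : ℕ) : |mu n| ≤ 1 := by
  have h := ArithmeticFunction.abs_moebius_le_one (n := n)
  have h2 : (|((ArithmeticFunction.moebius n : ℤ) : ℝ)|) =
      ((|ArithmeticFunction.moebius n| : ℤ) : ℝ) := by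
    push_cast; rfl
  show |((ArithmeticFunction.moebius n : ℤ) : ℝ)| ≤ 1
  rw [h2]
  exact_mod_cast h

theorem la4_triv (x : ℝ) (hx : 0 < x) : |MS 1 x| ≤ x := by
  unfold MS
  calc |∑ n ∈ (Icc 1 ⌊x⌋₊).filter (fun n => n.Coprime 1), mu n|
      ≤ ∑ n ∈ (Icc 1 ⌊x⌋₊).filter (fun n => n.Coprime 1), |mu n| := Finset.abs_sum_le_sum_abs _ _
    _ ≤ ∑ n ∈ (Icc 1 ⌊x⌋₊).filter (fun n => n.Coprime 1), (1 : ℝ) :=
        Finset.sum_le_sum fun n _ => la4_mu n
    _ ≤ ∑ n ∈ Icc 1 ⌊x⌋₊, (1 : ℝ) :=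
        Finset.sum_le_sum_of_subset_of_nonneg (Finset.filter_subset _ _) fun _ _ _ => zero_le_one
    _ = ⌊x⌋₊ := by simp
    _ ≤ x := Nat.floor_le hx.le

/-- the hypothesis of `ms_cop` -/
theorem la4_hyp {C L : ℝ} {m z : ℕ} (hC : 1 ≤ C) (hm : ∀ x : ℝ, 2 ≤ x →
    |MS 1 x| ≤ C * x / Real.log x ^ (3 * m)) (hz : 8 ≤ z) (hL0 : 0 < L)
    (hL : L ≤ Real.log z ^ 3) (x : ℝ) (hx : 0 < x) :
    |MS 1 x| ≤ C / L ^ m * x + 3 * x ^ (1 - 1 / Real.log z) := by
  have hz' : (8 : ℝ) ≤ z := by exact_mod_cast hz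
  have hlz : 0 < Real.log z := Real.log_pos (by linarith)
  have hxp : 0 < x ^ (1 - 1 / Real.log z) := Real.rpow_pos_of_pos hx _
  by_cases h : (z : ℝ) ≤ x
  · have h1 := hm x (by linarith)
    have h2 : Real.log z ≤ Real.log x := Real.log_le_log (by linarith) h
    have h3 : L ^ m ≤ Real.log x ^ (3 * m) := by
      rw [pow_mul]
      refine pow_le_pow_left₀ hL0.le (hL.trans ?_) m
      exact pow_le_pow_left₀ hlz.le h2 3
    have h4 : C * x / Real.log x ^ (3 * m) ≤ C / L ^ m * x := by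
      rw [div_mul_eq_mul_div]
      exact div_le_div_of_nonneg_left (by positivity) (by positivity) h3
    linarith
  · push Not at h
    have h1 := la4_triv x hx
    have h2 : x ≤ 3 * x ^ (1 - 1 / Real.log z) := by
      have h3 : x = x ^ (1 / Real.log z) * x ^ (1 - 1 / Real.log z) := by
        rw [← Real.rpow_add hx]
        norm_num
      have h4 : x ^ (1 / Real.log z) ≤ 3 := by
        calc x ^ (1 / Real.log z) ≤ (z : ℝ) ^ (1 / Real.log z) :=
              Real.rpow_le_rpow hx.le h.le (by positivity)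
          _ = Real.exp 1 := by
              rw [Real.rpow_def_of_pos (by linarith)]
              congr 1
              field_simp
          _ ≤ 3 := Real.exp_one_lt_three.le
      calc x = x ^ (1 / Real.log z) * x ^ (1 - 1 / Real.log z) := h3
        _ ≤ _ := mul_le_mul_of_nonneg_right h4 hxp.le
    have h5 : 0 ≤ C / L ^ m * x := by positivity
    linarith

theorem ms_rough (k : ℕ) : ∃ X₀ : ℕ, ∀ X : ℕ, X₀ ≤ X → ∀ K : ℕ, 1 ≤ K → (K : ℝ) ≤ (X : ℝ) ^ (8 : ℕ) →
    ∀ x : ℝ, (X : ℝ) ^ (1 / 16 : ℝ) ≤ x →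
      |MS (K * Pz (zz X)) x| ≤ x / Real.log X ^ k := by
  obtain ⟨C, hC1, hC⟩ := ms_one (3 * (k + 14))
  obtain ⟨D, hD⟩ := mertens_two
  set B : ℝ := (C + 3) * Real.exp (12 * D + 1024) with hB
  have hB0 : 0 < B := by positivity
  obtain ⟨ε₀, hε₀, h1, h2, h3⟩ : ∃ ε₀ : ℝ, 0 < ε₀ ∧ ε₀ ≤ 1 / 3 ∧ 16 * (k + 14) * ε₀ ≤ 1 ∧
      B * ε₀ ≤ 1 := by
    have hk : (0 : ℝ) < 16 * (k + 14) := by positivity
    refine ⟨min (1 / 3) (min (1 / (16 * (k + 14))) (1 / B)), by positivity, min_le_left _ _, ?_, ?_⟩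
    · have := (min_le_right (1 / 3 : ℝ) _).trans (min_le_left (1 / (16 * ((k : ℝ) + 14))) (1 / B))
      rw [le_div_iff₀ hk] at this
      linarith
    · have := (min_le_right (1 / 3 : ℝ) _).trans (min_le_right (1 / (16 * ((k : ℝ) + 14))) (1 / B))
      rw [le_div_iff₀ hB0] at this
      linarith
  obtain ⟨N₀, hN₀⟩ := sizes (δ := 1 / 8) (by norm_num) (by norm_num) hε₀
  refine ⟨N₀, fun N hN K hK hKN x hx => ?_⟩
  obtain ⟨a1, a2, a3, a4, a5, a6, a7, a8, a9⟩ := hN₀ N hN
  have hN3 : (3 : ℝ) ≤ N := by exact_mod_cast a1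
  have hinv : 3 ≤ 1 / ε₀ := by
    rw [le_div_iff₀ hε₀]; linarith
  have hlz3 : 3 ≤ Real.log (zz N) := hinv.trans a5
  have hzpos : (0 : ℝ) < zz N := by
    have : (2 : ℝ) ≤ zz N := by exact_mod_cast a2
    linarith
  have hz8 : 8 ≤ zz N := by
    have h4 : Real.exp 3 ≤ zz N := by
      rw [← Real.le_log_iff_exp_le hzpos]; exact hlz3
    have h5 : (8 : ℝ) ≤ Real.exp 3 := by
      have h6 := Real.exp_one_gt_d9
      have h7 : Real.exp 3 = Real.exp 1 ^ 3 := by
        rw [← Real.exp_nat_mul]; norm_num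
      rw [h7]
      calc (8 : ℝ) = 2 ^ 3 := by norm_num
        _ ≤ _ := pow_le_pow_left₀ (by norm_num) (by linarith) 3
    exact_mod_cast h5.trans h4
  set L := Real.log (Real.log N) with hL
  set l := Real.log (zz N) with hl
  have hl0 : 0 < l := by linarith
  have hL3 : 1 / ε₀ ≤ L := a8
  have hL0 : 0 < L := by linarith
  have hlogN : 0 < Real.log N := Real.log_pos (by linarith)
  -- `l ≤ log N / L²`
  have hlz : l * L ^ 2 ≤ Real.log N := by
    have h4 : (zz N : ℝ) ≤ zN N := Nat.floor_le (Real.exp_pos _).le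
    have h5 := Real.log_le_log hzpos h4
    rw [zN, Real.log_exp, le_div_iff₀ (by positivity)] at h5
    exact h5
  have hσ : 0 < 1 / l := by positivity
  have hσ2 : 1 / l ≤ 1 / 2 := one_div_le_one_div_of_le (by norm_num) (by linarith)
  have hx0 : 0 < x := lt_of_lt_of_le (Real.rpow_pos_of_pos (by linarith) _) hx
  have hK1 : 1 ≤ K * Pz (zz N) := Nat.mul_pos hK (aax_Pz_pos _)
  have hLl : L ≤ l := a9.trans (by nlinarith)
  have hLl2 : L ≤ 1 / 3 * l := a9.trans (mul_le_mul_of_nonneg_right h1 hl0.le)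
  have hNl : Real.log N ≤ l ^ 3 := by
    have h4 : L ^ 2 ≤ (1 / 3 * l) ^ 2 := pow_le_pow_left₀ hL0.le hLl2 2
    have h5 : 2 * L ^ 2 * l ≤ 2 * (1 / 3 * l) ^ 2 * l := by
      apply mul_le_mul_of_nonneg_right _ hl0.le
      linarith
    have h6 : 2 * (1 / 3 * l) ^ 2 * l ≤ l ^ 3 := by
      have : 0 < l ^ 3 := by positivity
      nlinarith
    linarith
  have hmain := ms_cop (ε := C / Real.log N ^ (k + 14)) (C := 3) (σ := 1 / l) (by positivity)
    (by norm_num) hσ hσ2 (fun y hy => la4_hyp hC1 hC hz8 hlogN hNl y hy) (K * Pz (zz N)) hK1 x hx0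
  change _ ≤ _ + _ * aab_kp (1 / l) (K * Pz (zz N)) at hmain
  -- the product
  have hprod : aab_kp (1 / l) (K * Pz (zz N)) ≤ Real.exp (12 * L + 12 * D + 1024) := by
    rw [la4_kp (zz N) hK]
    unfold aab_kp
    have hrN : la4_r (zz N) K ≤ N ^ 8 := by
      have : (K : ℝ) ≤ ((N ^ 8 : ℕ) : ℝ) := by push_cast; exact hKN
      exact (la4_r_le hK).trans (by exact_mod_cast this)
    have h4 := aax_large hz8 (la4_r_pos (zz N) K) (la4_r_rough (zz N) K) hrN
    have h5 := aax_small hD hz8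
    have h6 : 4 * (Real.log ((N ^ 8 : ℕ) : ℝ) / l) * (zz N : ℝ) ^ (-(1 / 2) : ℝ) ≤ 1024 := by
      have h7 : Real.log N / l ≤ 2 * L ^ 2 := by
        rw [div_le_iff₀ hl0]; exact a6
      have h9 : L ^ 2 ≤ l ^ 2 := pow_le_pow_left₀ hL0.le hLl 2
      have h10 := aax_logsq (z := zz N) (by linarith [show (8 : ℝ) ≤ zz N by exact_mod_cast hz8])
      have h11 : (0 : ℝ) ≤ (zz N : ℝ) ^ (-(1 / 2) : ℝ) := by positivity
      have h12 : Real.log ((N ^ 8 : ℕ) : ℝ) = 8 * Real.log N := by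
        push_cast
        rw [Real.log_pow]
        norm_num
      rw [h12]
      calc 4 * (8 * Real.log N / l) * (zz N : ℝ) ^ (-(1 / 2) : ℝ)
          = 32 * (Real.log N / l) * (zz N : ℝ) ^ (-(1 / 2) : ℝ) := by ring
        _ ≤ 64 * (l ^ 2 * (zz N : ℝ) ^ (-(1 / 2) : ℝ)) := by nlinarith
        _ ≤ 1024 := by linarith
    have h7 : Real.log l ≤ L := by
      apply Real.log_le_log hl0
      have : 1 ≤ L ^ 2 := by nlinarith
      nlinarith
    calc _ ≤ Real.exp (4 * (Real.log ((N ^ 8 : ℕ) : ℝ) / l) * (zz N : ℝ) ^ (-(1 / 2) : ℝ)) *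
          Real.exp (12 * (Real.log l + D)) := by
          refine mul_le_mul h4 h5 ?_ (Real.exp_pos _).le
          refine Finset.prod_nonneg fun p hp => ?_
          have := aax_t hσ2 (Nat.prime_of_mem_primeFactors hp).two_le
          apply inv_nonneg.2; linarith
      _ ≤ _ := by
          rw [← Real.exp_add]
          apply Real.exp_le_exp.2
          linarith
  have hphi := aab_c_le hσ hσ2 (K * Pz (zz N)) hK1
  have hkpn := aab_kp_nonneg hσ2 (K * Pz (zz N))
  have hexpL : Real.exp L = Real.log N := Real.exp_log hlogN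
  have hLk : 16 * ((k : ℝ) + 14) ≤ L := by
    refine le_trans ?_ hL3
    rw [le_div_iff₀ hε₀]
    exact h2
  -- the power of `x`
  have hxs : x ^ (1 - 1 / l) ≤ x / Real.log N ^ (k + 14) := by
    have h4 : x ^ (-(1 / l)) ≤ ((N : ℝ) ^ (1 / 16 : ℝ)) ^ (-(1 / l)) :=
      Real.rpow_le_rpow_of_nonpos (Real.rpow_pos_of_pos (by linarith) _) hx (by linarith)
    have h5 : ((N : ℝ) ^ (1 / 16 : ℝ)) ^ (-(1 / l)) ≤ Real.exp (-((k + 14 : ℕ) * L)) := by
      rw [← Real.rpow_mul (by linarith), Real.rpow_def_of_pos (by linarith)]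
      apply Real.exp_le_exp.2
      have h5 : L ^ 2 ≤ Real.log N / l := by
        rw [le_div_iff₀ hl0]; linarith
      have h6 : ((k : ℝ) + 14) * L ≤ 1 / 16 * L ^ 2 := by nlinarith
      have h7 : 1 / 16 * L ^ 2 ≤ 1 / 16 * (Real.log N / l) :=
        mul_le_mul_of_nonneg_left h5 (by norm_num)
      have h8 : Real.log N * (1 / 16 * -(1 / l)) = -(1 / 16 * (Real.log N / l)) := by ring
      rw [h8]
      push_cast
      linarith
    have h6 : Real.exp (-((k + 14 : ℕ) * L)) = 1 / Real.log N ^ (k + 14) := by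
      rw [Real.exp_neg, Real.exp_nat_mul, hexpL, one_div]
    have h7 : x ^ (1 - 1 / l) = x * x ^ (-(1 / l)) := by
      rw [sub_eq_add_neg, Real.rpow_add hx0, Real.rpow_one]
    rw [h7, div_eq_mul_one_div x]
    apply mul_le_mul_of_nonneg_left _ hx0.le
    rw [← h6]
    exact h4.trans h5
  have hfin : (C + 3) * (x / Real.log N ^ (k + 14)) * Real.exp (12 * L + 12 * D + 1024) ≤
      x / Real.log N ^ k := by
    have h4 : Real.exp (12 * L + 12 * D + 1024) = Real.log N ^ 12 * Real.exp (12 * D + 1024) := by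
      rw [add_assoc, Real.exp_add, ← hexpL, ← Real.exp_nat_mul]
      norm_num
    have h5 : B ≤ Real.log N ^ 2 := by
      have h6 : B ≤ Real.log N := by
        rw [← hexpL]
        have h7 : B ≤ 1 / ε₀ := by rw [le_div_iff₀ hε₀]; exact h3
        have := Real.add_one_le_exp L
        linarith
      have h7 : 1 ≤ Real.log N := by
        rw [← hexpL]
        have := Real.add_one_le_exp L
        linarith
      nlinarith
    rw [h4]
    have h6 : (C + 3) * (x / Real.log N ^ (k + 14)) *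
        (Real.log N ^ 12 * Real.exp (12 * D + 1024)) = x / Real.log N ^ k * (B / Real.log N ^ 2) := by
      rw [hB]
      field_simp
      ring
    rw [h6]
    have h7 : B / Real.log N ^ 2 ≤ 1 := by
      rw [div_le_one (by positivity)]; exact h5
    have h8 : 0 ≤ x / Real.log N ^ k := by positivity
    calc _ ≤ x / Real.log N ^ k * 1 := mul_le_mul_of_nonneg_left h7 h8
      _ = _ := mul_one _
  have h8 : 0 ≤ C / Real.log N ^ (k + 14) * x := by positivity
  have h9 : 0 ≤ x ^ (1 - 1 / l) := Real.rpow_nonneg hx0.le _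
  calc |MS (K * Pz (zz N)) x| ≤ _ := hmain
    _ ≤ C / Real.log N ^ (k + 14) * x * aab_kp (1 / l) (K * Pz (zz N)) +
        3 * (x / Real.log N ^ (k + 14)) * aab_kp (1 / l) (K * Pz (zz N)) := by
        refine add_le_add (mul_le_mul_of_nonneg_left hphi h8) ?_
        apply mul_le_mul_of_nonneg_right _ hkpn
        linarith
    _ = (C + 3) * (x / Real.log N ^ (k + 14)) * aab_kp (1 / l) (K * Pz (zz N)) := by ring
    _ ≤ (C + 3) * (x / Real.log N ^ (k + 14)) * Real.exp (12 * L + 12 * D + 1024) := by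
        apply mul_le_mul_of_nonneg_left hprod
        positivity
    _ ≤ _ := hfin

end Pool.Agent.LSP
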