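import Pool.Agent.Lib_helper53.LSPAF.LA4

set_option autoImplicit false

namespace Pool.Agent.LSP

open Pool.Agent.LEV Pool.Agent.LVB Pool.Agent.KSL
open Pool.Agent.FG61 (mu phi cc ff AA Lam)
open Finset

theorem la5_Ioc_succ {U v : ℕ} (h : U ≤ v) (g : ℕ → ℝ) :
    ∑ n ∈ Ioc U (v + 1), g n = ∑ n ∈ Ioc U v, g n + g (v + 1) := by
  rw [Finset.sum_Ioc_succ_top h]

theorem la5_step {U : ℕ} {f c : ℕ → ℝ} {B : ℝ} (hB : 0 ≤ B) (k : ℕ)
    (hf : ∀ n, U < n → n < U + 1 + k → f (n + 1) ≤ f n)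
    (hc : ∀ v, U ≤ v → v ≤ U + 1 + k → |∑ n ∈ Ioc U v, c n| ≤ B) :
    |∑ n ∈ Ioc U (U + 1 + k), c n * f n - (∑ n ∈ Ioc U (U + 1 + k), c n) * f (U + 1 + k)| ≤
      B * (f (U + 1) - f (U + 1 + k)) := by
  induction k with
  | zero => simp
  | succ k ih =>
    have ih' := ih (fun n h1 h2 => hf n h1 (by omega)) (fun v h1 h2 => hc v h1 (by omega))
    have e : U + 1 + (k + 1) = (U + 1 + k) + 1 := by ring
    rw [e, la5_Ioc_succ (by omega), la5_Ioc_succ (by omega)]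
    set S := ∑ n ∈ Ioc U (U + 1 + k), c n with hS
    set T := ∑ n ∈ Ioc U (U + 1 + k), c n * f n with hT
    have h1 : T + c (U + 1 + k + 1) * f (U + 1 + k + 1) -
        (S + c (U + 1 + k + 1)) * f (U + 1 + k + 1) =
        (T - S * f (U + 1 + k)) + S * (f (U + 1 + k) - f (U + 1 + k + 1)) := by ring
    rw [h1]
    have h2 : |S| ≤ B := hc (U + 1 + k) (by omega) (by omega)
    have h3 : 0 ≤ f (U + 1 + k) - f (U + 1 + k + 1) := by
      have := hf (U + 1 + k) (by omega) (by omega)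
      linarith
    calc |(T - S * f (U + 1 + k)) + S * (f (U + 1 + k) - f (U + 1 + k + 1))|
        ≤ |T - S * f (U + 1 + k)| + |S * (f (U + 1 + k) - f (U + 1 + k + 1))| := abs_add_le _ _
      _ ≤ B * (f (U + 1) - f (U + 1 + k)) + B * (f (U + 1 + k) - f (U + 1 + k + 1)) := by
          refine add_le_add ih' ?_
          rw [abs_mul, abs_of_nonneg h3]
          exact mul_le_mul_of_nonneg_right h2 h3
      _ = B * (f (U + 1) - f (U + 1 + k + 1)) := by ring

theorem la5_abel {U V : ℕ} {f c : ℕ → ℝ} {F B : ℝ} (hB : 0 ≤ B) (hF : 0 ≤ F)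
    (hf0 : ∀ n, U < n → n ≤ V → 0 ≤ f n ∧ f n ≤ F)
    (hf : ∀ n, U < n → n < V → f (n + 1) ≤ f n)
    (hc : ∀ v, U ≤ v → v ≤ V → |∑ n ∈ Ioc U v, c n| ≤ B) :
    |∑ n ∈ Ioc U V, c n * f n| ≤ F * B := by
  rcases Nat.lt_or_ge U V with h | h
  · obtain ⟨k, rfl⟩ : ∃ k, V = U + 1 + k := ⟨V - (U + 1), by omega⟩
    have h1 := la5_step (f := f) (c := c) hB k (fun n h1 h2 => hf n h1 (by omega)) hc
    have h2 := hc (U + 1 + k) (by omega) le_rfl
    have h3 := hf0 (U + 1 + k) (by omega) le_rfl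
    have h4 := hf0 (U + 1) (by omega) (by omega)
    set S := ∑ n ∈ Ioc U (U + 1 + k), c n
    set T := ∑ n ∈ Ioc U (U + 1 + k), c n * f n
    calc |T| = |(T - S * f (U + 1 + k)) + S * f (U + 1 + k)| := by congr 1; ring
      _ ≤ |T - S * f (U + 1 + k)| + |S * f (U + 1 + k)| := abs_add_le _ _
      _ ≤ B * (f (U + 1) - f (U + 1 + k)) + B * f (U + 1 + k) := by
          refine add_le_add h1 ?_
          rw [abs_mul, abs_of_nonneg h3.1]
          exact mul_le_mul_of_nonneg_right h2 h3.1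
      _ = B * f (U + 1) := by ring
      _ ≤ B * F := mul_le_mul_of_nonneg_left h4.2 hB
      _ = F * B := mul_comm _ _
  · rw [Finset.Ioc_eq_empty (by omega)]
    simp only [sum_empty, abs_zero]
    positivity

theorem ms_abel {s : Finset ℕ} {U V : ℕ} {f c : ℕ → ℝ} {F B : ℝ} (hB : 0 ≤ B) (hF : 0 ≤ F)
    (hf0 : ∀ n, U < n → n ≤ V → 0 ≤ f n ∧ f n ≤ F)
    (hf : ∀ n, U < n → n < V → f (n + 1) ≤ f n)
    (hc : ∀ v, U ≤ v → v ≤ V → |∑ n ∈ (Ioc U v).filter (fun n => n ∈ s), c n| ≤ B) :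
    |∑ n ∈ (Ioc U V).filter (fun n => n ∈ s), c n * f n| ≤ F * B := by
  have h := la5_abel (c := fun n => if n ∈ s then c n else 0) hB hF hf0 hf
    (fun v h1 h2 => by
      have := hc v h1 h2
      rwa [sum_filter] at this)
  rw [sum_filter]
  convert h using 3
  split_ifs <;> simp

theorem la5_part {U : ℕ} {c : ℕ → ℝ} {A : ℕ → ℝ} {L : ℝ} (hL : 0 < L) (hU : 1 ≤ U)
    (hA : ∀ v, U ≤ v → A (v + 1) = A v + c (v + 1)) (j : ℕ)
    (hb : ∀ v, U ≤ v → v ≤ U + j → |A v| ≤ v / L) :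
    |∑ n ∈ Ioc U (U + j), c n / n - A (U + j) / ((U + j : ℕ) : ℝ)| ≤
      (1 + ∑ n ∈ Ioc U (U + j), (1 : ℝ) / n) / L := by
  induction j with
  | zero =>
    have hU0 : (0 : ℝ) < U := by exact_mod_cast hU
    have h := hb U le_rfl (by omega)
    simp only [add_zero, Ioc_self, sum_empty, zero_sub, abs_neg]
    rw [abs_div, abs_of_pos hU0, div_le_div_iff₀ hU0 hL]
    rw [le_div_iff₀ hL] at h
    linarith
  | succ j ih =>
    have ih' := ih (fun v h1 h2 => hb v h1 (by omega))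
    have e : U + (j + 1) = (U + j) + 1 := by ring
    rw [e, la5_Ioc_succ (by omega), la5_Ioc_succ (by omega), hA (U + j) (by omega)]
    have hv0 : (0 : ℝ) < ((U + j : ℕ) : ℝ) := by exact_mod_cast (by omega : 0 < U + j)
    have hbv := hb (U + j) (by omega) (by omega)
    have ev : (((U + j) + 1 : ℕ) : ℝ) = ((U + j : ℕ) : ℝ) + 1 := by push_cast; ring
    rw [ev]
    set v : ℝ := ((U + j : ℕ) : ℝ) with hv
    set T := ∑ n ∈ Ioc U (U + j), c n / n with hT
    set H := ∑ n ∈ Ioc U (U + j), (1 : ℝ) / n with hH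
    have h1 : T + c (U + j + 1) / (v + 1) - (A (U + j) + c (U + j + 1)) / (v + 1) =
        (T - A (U + j) / v) + A (U + j) * (1 / v - 1 / (v + 1)) := by
      field_simp; ring
    rw [h1]
    have h2 : 0 ≤ 1 / v - 1 / (v + 1) := by
      rw [sub_nonneg]
      exact one_div_le_one_div_of_le hv0 (by linarith)
    have h3 : |A (U + j)| * (1 / v - 1 / (v + 1)) ≤ 1 / (v + 1) / L := by
      calc |A (U + j)| * (1 / v - 1 / (v + 1)) ≤ v / L * (1 / v - 1 / (v + 1)) :=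
            mul_le_mul_of_nonneg_right hbv h2
        _ = 1 / (v + 1) / L := by field_simp; ring
    calc |(T - A (U + j) / v) + A (U + j) * (1 / v - 1 / (v + 1))|
        ≤ |T - A (U + j) / v| + |A (U + j) * (1 / v - 1 / (v + 1))| := abs_add_le _ _
      _ ≤ (1 + H) / L + 1 / (v + 1) / L := by
          refine add_le_add ih' ?_
          rw [abs_mul, abs_of_nonneg h2]
          exact h3
      _ = (1 + (H + 1 / (v + 1))) / L := by ring

theorem la5_harm (U V : ℕ) (hV : 1 ≤ V) : ∑ n ∈ Ioc U V, (1 : ℝ) / n ≤ 1 + Real.log V := by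
  have h1 : ∑ n ∈ Ioc U V, (1 : ℝ) / n ≤ ∑ n ∈ Icc 1 V, (1 : ℝ) / n := by
    refine sum_le_sum_of_subset_of_nonneg ?_ (fun n _ _ => by positivity)
    intro n hn
    simp only [mem_Ioc, mem_Icc] at hn ⊢
    omega
  have h2 := harmonic_le_one_add_log V
  rw [harmonic_eq_sum_Icc] at h2
  push_cast at h2
  refine h1.trans (le_trans (le_of_eq ?_) h2)
  exact sum_congr rfl (fun n _ => by rw [one_div])

theorem ms_log (k : ℕ) : ∃ X₀ : ℕ, ∀ X : ℕ, X₀ ≤ X → ∀ K : ℕ, 1 ≤ K → (K : ℝ) ≤ (X : ℝ) ^ (8 : ℕ) →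
    ∀ U V : ℕ, (X : ℝ) ^ (1 / 16 : ℝ) ≤ U → (V : ℝ) ≤ (X : ℝ) ^ (4 : ℕ) →
    ∀ (f : ℕ → ℝ) (F : ℝ), 0 ≤ F → (∀ n, U < n → n ≤ V → 0 ≤ f n ∧ f n ≤ F) →
    (∀ n, U < n → n < V → f (n + 1) ≤ f n) →
      |∑ n ∈ (Ioc U V).filter (fun n => n.Coprime (K * Pz (zz X))), mu n / n * f n| ≤
        F / Real.log X ^ k := by
  obtain ⟨X₁, h₁⟩ := ms_rough (k + 2)
  refine ⟨max X₁ ⌈Real.exp 6⌉₊, fun X hX K hK hKX U V hU hV f F hF hf0 hf => ?_⟩
  have hX1 : X₁ ≤ X := (le_max_left _ _).trans hX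
  have hX2 : Real.exp 6 ≤ X := (Nat.le_ceil _).trans (by exact_mod_cast (le_max_right _ _).trans hX)
  have hXp : (0 : ℝ) < X := (Real.exp_pos _).trans_le hX2
  have ht : 6 ≤ Real.log X := by
    rw [Real.le_log_iff_exp_le hXp]; exact hX2
  set t := Real.log X with htd
  have hU0 : (0 : ℝ) < U := (Real.rpow_pos_of_pos hXp _).trans_le hU
  have hU1 : 1 ≤ U := by
    have : 0 < U := by exact_mod_cast hU0
    omega
  set Q := K * Pz (zz X) with hQ
  set L := t ^ (k + 2) with hL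
  have hL0 : 0 < L := by positivity
  set A : ℕ → ℝ := fun v => MS Q (v : ℝ) with hA
  set c : ℕ → ℝ := fun n => if n.Coprime Q then mu n else 0 with hcd
  have hAs : ∀ v : ℕ, A (v + 1) = A v + c (v + 1) := by
    intro v
    simp only [hA, hcd, MS, Nat.floor_natCast, sum_filter]
    rw [Finset.sum_Icc_succ_top (by omega)]
  have hAb : ∀ v : ℕ, U ≤ v → |A v| ≤ v / L := by
    intro v hv
    exact h₁ X hX1 K hK hKX v (hU.trans (by exact_mod_cast hv))
  have hpart : ∀ v, U ≤ v → v ≤ V → |∑ n ∈ Ioc U v, c n / n| ≤ 1 / t ^ k := by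
    intro v hv hvV
    obtain ⟨j, rfl⟩ : ∃ j, v = U + j := ⟨v - U, by omega⟩
    have h2 := la5_part (c := c) (A := A) hL0 hU1 (fun v _ => hAs v) j (fun v hv _ => hAb v hv)
    have h3 : |A (U + j) / ((U + j : ℕ) : ℝ)| ≤ 1 / L := by
      have hv0 : (0 : ℝ) < ((U + j : ℕ) : ℝ) := by exact_mod_cast (by omega : 0 < U + j)
      rw [abs_div, abs_of_pos hv0, div_le_iff₀ hv0]
      have := hAb (U + j) (by omega)
      calc |A (U + j)| ≤ ((U + j : ℕ) : ℝ) / L := this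
        _ = 1 / L * ((U + j : ℕ) : ℝ) := by ring
    have hV1 : 1 ≤ V := by omega
    have hH : ∑ n ∈ Ioc U (U + j), (1 : ℝ) / n ≤ 1 + 4 * t := by
      refine (la5_harm U (U + j) (by omega)).trans ?_
      have h5 : Real.log ((U + j : ℕ) : ℝ) ≤ Real.log V :=
        Real.log_le_log (by exact_mod_cast (by omega : 0 < U + j)) (by exact_mod_cast hvV)
      have h6 : Real.log V ≤ Real.log ((X : ℝ) ^ (4 : ℕ)) :=
        Real.log_le_log (by exact_mod_cast hV1) hV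
      rw [Real.log_pow] at h6
      push_cast at h6
      linarith
    have h4 : |∑ n ∈ Ioc U (U + j), c n / n| ≤ (3 + 4 * t) / L := by
      calc |∑ n ∈ Ioc U (U + j), c n / n|
          = |(∑ n ∈ Ioc U (U + j), c n / n - A (U + j) / ((U + j : ℕ) : ℝ)) +
              A (U + j) / ((U + j : ℕ) : ℝ)| := by congr 1; ring
        _ ≤ _ := abs_add_le _ _
        _ ≤ (1 + ∑ n ∈ Ioc U (U + j), (1 : ℝ) / n) / L + 1 / L := add_le_add h2 h3
        _ ≤ (1 + (1 + 4 * t)) / L + 1 / L := by gcongr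
        _ = (3 + 4 * t) / L := by ring
    refine h4.trans ?_
    rw [div_le_div_iff₀ hL0 (by positivity), hL, pow_add]
    have h7 : 3 + 4 * t ≤ t ^ 2 := by nlinarith
    calc (3 + 4 * t) * t ^ k ≤ t ^ 2 * t ^ k := by gcongr
      _ = 1 * (t ^ k * t ^ 2) := by ring
  have hfin := la5_abel (c := fun n => c n / n) (F := F) (B := 1 / t ^ k) (by positivity) hF hf0 hf
    hpart
  rw [sum_filter]
  calc |∑ a ∈ Ioc U V, if a.Coprime Q then mu a / a * f a else 0|
      = |∑ n ∈ Ioc U V, c n / n * f n| := by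
        congr 1
        refine sum_congr rfl (fun n _ => ?_)
        simp only [hcd]
        split_ifs <;> simp
    _ ≤ F * (1 / t ^ k) := hfin
    _ = F / t ^ k := by ring

example : type_of% @ms_abel := @ms_abel
example : type_of% @ms_log := @ms_log

end Pool.Agent.LSP
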