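import Pool.Agent.Lib_helper53.LSPAF.LA5

/-! LSPA, block LA6: sizes and the correction coefficient. -/

set_option autoImplicit false

namespace Pool.Agent.LSP

open Pool.Agent.LEV Pool.Agent.LVB Pool.Agent.KSL
open Pool.Agent.FG61 (mu phi cc ff AA Lam)
open Finset

theorem la6_ev {c : ℝ} (hc : 0 < c) (B : ℝ) : ∀ᶠ X : ℕ in Filter.atTop, B ≤ (X : ℝ) ^ c :=
  ((tendsto_rpow_atTop hc).comp tendsto_natCast_atTop_atTop).eventually_ge_atTop B

theorem la6_log (B : ℝ) : ∀ᶠ X : ℕ in Filter.atTop, B ≤ Real.log X :=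
  (Real.tendsto_log_atTop.comp tendsto_natCast_atTop_atTop).eventually_ge_atTop B

theorem la_sizes {κ : ℝ} (h0 : 0 < κ) (h1 : κ ≤ 1 / 1000) : ∃ X₀ : ℕ, ∀ X : ℕ, X₀ ≤ X →
    8 ≤ zz X ∧ zz X < MM (-κ) X ∧ (X : ℝ) ^ (1 / 2 : ℝ) ≤ MM (-κ) X ∧
      (MM (-κ) X : ℝ) ≤ (X : ℝ) ^ (1 / 2 + κ) ∧ 1 ≤ Real.log X ∧
      Real.log X ≤ 2 * Real.log (MM (-κ) X) ∧ 2 * (MM (-κ) X : ℝ) ≤ X ∧
      (PK (MM (-κ) X) 2).Nonempty := by
  obtain ⟨N₀, hN₀⟩ := sizes (δ := 1 / 8) (by norm_num) (by norm_num) (ε := 1 / 3) (by norm_num)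
  have key : ∀ᶠ X : ℕ in Filter.atTop, 8 ≤ zz X ∧ zz X < MM (-κ) X ∧
      (X : ℝ) ^ (1 / 2 : ℝ) ≤ MM (-κ) X ∧
      (MM (-κ) X : ℝ) ≤ (X : ℝ) ^ (1 / 2 + κ) ∧ 1 ≤ Real.log X ∧
      Real.log X ≤ 2 * Real.log (MM (-κ) X) ∧ 2 * (MM (-κ) X : ℝ) ≤ X ∧
      (PK (MM (-κ) X) 2).Nonempty := by
    filter_upwards [Filter.eventually_ge_atTop N₀, Filter.eventually_ge_atTop 3, la6_ev h0 2,
      la6_ev (show (0 : ℝ) < 1 / 4 by norm_num) 2, la6_log 1] with X k1 k2 k3 k4 k5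
    obtain ⟨-, a1, a2, -, a3, -⟩ := hN₀ X k1
    have hX1 : (1 : ℝ) ≤ X := by exact_mod_cast (by omega : 1 ≤ X)
    have hX0 : (0 : ℝ) < X := by linarith
    have hMdef : MM (-κ) X = ⌊(X : ℝ) ^ (1 / 2 + κ)⌋₊ := by
      unfold MM
      rw [sub_neg_eq_add]
    have hzM : zz X < MM (-κ) X := by
      refine a2.trans_le ?_
      unfold MM
      exact Nat.floor_le_floor (Real.rpow_le_rpow_of_exponent_le hX1 (by linarith))
    have hup : (MM (-κ) X : ℝ) ≤ (X : ℝ) ^ (1 / 2 + κ) := by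
      rw [hMdef]
      exact Nat.floor_le (by positivity)
    have hs1 : (1 : ℝ) ≤ (X : ℝ) ^ (1 / 2 : ℝ) := Real.one_le_rpow hX1 (by norm_num)
    have hlow : (X : ℝ) ^ (1 / 2 : ℝ) ≤ MM (-κ) X := by
      have h2 : (X : ℝ) ^ (1 / 2 + κ) < MM (-κ) X + 1 := by
        rw [hMdef]
        exact Nat.lt_floor_add_one _
      rw [Real.rpow_add hX0] at h2
      nlinarith
    have hMpos : (0 : ℝ) < MM (-κ) X := by linarith
    refine ⟨?_, hzM, hlow, hup, k5, ?_, ?_, ?_⟩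
    · have hz0 : (0 : ℝ) < zz X := by exact_mod_cast (by omega : 0 < zz X)
      have h2 : Real.exp 3 ≤ zz X := by
        rw [← Real.le_log_iff_exp_le hz0]
        have : (1 : ℝ) / (1 / 3) = 3 := by norm_num
        linarith
      have h3 : (8 : ℝ) ≤ Real.exp 3 := by
        have h4 : (2 : ℝ) ≤ Real.exp 1 := by
          have := Real.exp_one_gt_d9
          linarith
        calc (8 : ℝ) = 2 ^ 3 := by norm_num
          _ ≤ Real.exp 1 ^ 3 := by gcongr
          _ = Real.exp 3 := by rw [← Real.exp_nat_mul]; norm_num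
      exact_mod_cast h3.trans h2
    · have h2 := Real.log_le_log (by positivity) hlow
      rw [Real.log_rpow hX0] at h2
      linarith
    · have h2 : (X : ℝ) ^ (1 / 2 + κ) ≤ (X : ℝ) ^ (3 / 4 : ℝ) :=
        Real.rpow_le_rpow_of_exponent_le hX1 (by linarith)
      have h3 : (X : ℝ) = (X : ℝ) ^ (3 / 4 : ℝ) * (X : ℝ) ^ (1 / 4 : ℝ) := by
        rw [← Real.rpow_add hX0]
        norm_num
      have h4 : (0 : ℝ) ≤ (X : ℝ) ^ (3 / 4 : ℝ) := by positivity
      calc 2 * (MM (-κ) X : ℝ) ≤ 2 * (X : ℝ) ^ (3 / 4 : ℝ) := by linarith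
        _ ≤ (X : ℝ) ^ (1 / 4 : ℝ) * (X : ℝ) ^ (3 / 4 : ℝ) := mul_le_mul_of_nonneg_right k4 h4
        _ = X := by rw [mul_comm]; exact h3.symm
    · have hM1 : MM (-κ) X ≠ 0 := by
        intro h
        rw [h] at hMpos
        simp at hMpos
      obtain ⟨p, hp, h2, h3⟩ := Nat.exists_prime_lt_and_le_two_mul _ hM1
      exact ⟨p, Finset.mem_filter.2 ⟨Finset.mem_Ioc.2 ⟨h2, h3⟩, hp⟩⟩
  exact Filter.eventually_atTop.1 key

theorem la6_rough {z e : ℕ} : rough z e ↔ e.Coprime (Pz z) := by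
  refine ⟨aax_coprime, fun h p hp hpe => ?_⟩
  by_contra hlt
  have h1 : p ∣ Pz z := Finset.dvd_prod_of_mem _
    (Finset.mem_filter.2 ⟨Finset.mem_Icc.2 ⟨hp.one_lt.le, by omega⟩, hp⟩)
  have h2 : p ∣ Nat.gcd e (Pz z) := Nat.dvd_gcd hpe h1
  rw [h] at h2
  exact hp.one_lt.ne' (Nat.dvd_one.1 h2)

/-- the logarithm as a sum -/
theorem la6_logsum {e M : ℕ} (he : 1 ≤ e) (hM : e ≤ M) :
    Real.log ((M : ℝ) / e) = ∑ k ∈ Ico e M, Real.log (((k : ℝ) + 1) / k) := by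
  have he0 : (0 : ℝ) < e := by exact_mod_cast he
  induction M, hM using Nat.le_induction with
  | base => simp [div_self he0.ne']
  | succ n hn ih =>
    have hn0 : (0 : ℝ) < n := by exact_mod_cast (by omega : 0 < n)
    rw [Finset.sum_Ico_succ_top hn, ← ih, ← Real.log_mul (by positivity) (by positivity)]
    congr 1
    push_cast
    field_simp

/-- partial summation -/
theorem la6_g0 (z M : ℕ) :
    g0 z M = ∑ k ∈ Ico 1 M, Real.log (((k : ℝ) + 1) / k) * MS (Pz z) k := by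
  classical
  unfold g0
  have hmem : ∀ e ∈ RO z M, 1 ≤ e ∧ e ≤ M := by
    intro e he
    unfold RO at he
    rw [Finset.mem_filter, Finset.mem_Icc] at he
    exact he.1
  have h1 : ∀ e ∈ RO z M, mu e * Real.log ((M : ℝ) / e) =
      ∑ k ∈ Ico 1 M, if e ≤ k then Real.log (((k : ℝ) + 1) / k) * mu e else 0 := by
    intro e he
    obtain ⟨h2, h3⟩ := hmem e he
    rw [la6_logsum h2 h3, ← Finset.sum_filter, Finset.mul_sum]
    refine Finset.sum_congr ?_ fun k _ => mul_comm _ _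
    ext k
    simp only [Finset.mem_filter, Finset.mem_Ico]
    omega
  rw [Finset.sum_congr rfl h1, Finset.sum_comm]
  refine Finset.sum_congr rfl fun k hk => ?_
  rw [Finset.mem_Ico] at hk
  rw [← Finset.sum_filter, ← Finset.mul_sum]
  congr 1
  unfold MS
  refine Finset.sum_congr ?_ fun _ _ => rfl
  unfold RO
  ext e
  rw [Nat.floor_natCast]
  simp only [Finset.mem_filter, Finset.mem_Icc, la6_rough]
  constructor
  · rintro ⟨⟨⟨h2, h3⟩, h4⟩, h5⟩
    exact ⟨⟨h2, h5⟩, h4⟩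
  · rintro ⟨⟨h2, h3⟩, h4⟩
    exact ⟨⟨⟨h2, by omega⟩, h4⟩, h3⟩

theorem la6_MS_triv (K k : ℕ) : |MS K k| ≤ k := by
  unfold MS
  rw [Nat.floor_natCast]
  refine (Finset.abs_sum_le_sum_abs _ _).trans ?_
  calc ∑ n ∈ (Icc 1 k).filter (fun n => n.Coprime K), |mu n|
      ≤ ∑ n ∈ (Icc 1 k).filter (fun n => n.Coprime K), (1 : ℝ) := by
        refine Finset.sum_le_sum fun n _ => ?_
        unfold mu
        have := ArithmeticFunction.abs_moebius_le_one (n := n)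
        exact_mod_cast this
    _ = (((Icc 1 k).filter (fun n => n.Coprime K)).card : ℝ) := by simp
    _ ≤ ((Icc 1 k).card : ℝ) := by exact_mod_cast Finset.card_filter_le _ _
    _ = k := by simp

theorem be_log (k : ℕ) {κ : ℝ} (h0 : 0 < κ) (h1 : κ ≤ 1 / 1000) : ∃ X₀ : ℕ, ∀ X : ℕ, X₀ ≤ X →
    |be (zz X) (MM (-κ) X) 2| ≤ 1 / Real.log X ^ k := by
  obtain ⟨X₁, hX₁⟩ := la_sizes h0 h1
  obtain ⟨X₂, hX₂⟩ := ms_rough (k + 2)
  obtain ⟨M₀, hM₀⟩ := bet_primes
  have hsm : ∀ᶠ X : ℕ in Filter.atTop, Real.log X ^ (k + 2) ≤ 1 / 2 * (X : ℝ) ^ (1 / 4 : ℝ) := by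
    have h2 := (isLittleO_log_rpow_rpow_atTop (r := ((k + 2 : ℕ) : ℝ)) (s := 1 / 4)
      (by norm_num)).comp_tendsto (tendsto_natCast_atTop_atTop (R := ℝ))
    filter_upwards [h2.bound (show (0 : ℝ) < 1 / 2 by norm_num), la6_log 0] with X h3 h4
    simp only [Function.comp, Real.norm_eq_abs, Real.rpow_natCast] at h3
    rwa [abs_of_nonneg (by positivity), abs_of_nonneg (by positivity)] at h3
  have key : ∀ᶠ X : ℕ in Filter.atTop, |be (zz X) (MM (-κ) X) 2| ≤ 1 / Real.log X ^ k := by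
    filter_upwards [Filter.eventually_ge_atTop X₁, Filter.eventually_ge_atTop X₂,
      la6_ev (show (0 : ℝ) < 1 / 2 by norm_num) (M₀ : ℝ), la6_log 4, hsm,
      Filter.eventually_ge_atTop 1] with X k1 k2 k3 k4 k5 k6
    obtain ⟨-, -, a1, -, a2, -, a3, -⟩ := hX₁ X k1
    set M := MM (-κ) X with hM
    set z := zz X with hz
    have hX1 : (1 : ℝ) ≤ X := by exact_mod_cast k6
    have hX0 : (0 : ℝ) < X := by linarith
    have hs1 : (1 : ℝ) ≤ (X : ℝ) ^ (1 / 2 : ℝ) := Real.one_le_rpow hX1 (by norm_num)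
    have hMpos : (0 : ℝ) < M := by linarith
    have hM1 : (1 : ℝ) ≤ M := by linarith
    obtain ⟨hM2, hlow, -⟩ := hM₀ M (by exact_mod_cast k3.trans a1)
    have hM2' : (2 : ℝ) ≤ M := by exact_mod_cast hM2
    have hLM : 0 < Real.log M := Real.log_pos (by linarith)
    have hcard : (0 : ℝ) < (PK M 2).card := lt_of_lt_of_le (by positivity) hlow
    set L := Real.log (X : ℝ) with hL
    have hLX : Real.log M ≤ L := Real.log_le_log hMpos (by linarith)
    have hL0 : 0 < L := by linarith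
    -- the size of `g0`
    have hg : |g0 z M| ≤ 2 * M / L ^ (k + 2) := by
      rw [la6_g0]
      refine (Finset.abs_sum_le_sum_abs _ _).trans ?_
      have hterm : ∀ n ∈ Ico 1 M, |Real.log (((n : ℝ) + 1) / n) * MS (Pz z) n| ≤
          1 / L ^ (k + 2) + if (n : ℝ) < (X : ℝ) ^ (1 / 16 : ℝ) then 1 else 0 := by
        intro n hn
        rw [Finset.mem_Ico] at hn
        have hn0 : (0 : ℝ) < n := by exact_mod_cast hn.1
        have h2 : 0 ≤ Real.log (((n : ℝ) + 1) / n) := Real.log_nonneg (by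
          rw [le_div_iff₀ hn0]
          linarith)
        have h3 : Real.log (((n : ℝ) + 1) / n) ≤ 1 / n := by
          have := Real.log_le_sub_one_of_pos (by positivity : (0 : ℝ) < ((n : ℝ) + 1) / n)
          have e1 : ((n : ℝ) + 1) / n - 1 = 1 / n := by field_simp; ring
          linarith
        rw [abs_mul, abs_of_nonneg h2]
        split_ifs with h4
        · have h5 := la6_MS_triv (Pz z) n
          have h6 : Real.log (((n : ℝ) + 1) / n) * |MS (Pz z) n| ≤ 1 / n * n := by gcongr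
          rw [one_div_mul_cancel hn0.ne'] at h6
          have h7 : 0 ≤ 1 / L ^ (k + 2) := by positivity
          linarith
        · have h5 := hX₂ X k2 1 le_rfl (by
            push_cast
            exact one_le_pow₀ hX1) n (not_lt.1 h4)
          rw [one_mul] at h5
          have h6 : Real.log (((n : ℝ) + 1) / n) * |MS (Pz z) n| ≤ 1 / n * (n / L ^ (k + 2)) := by
            gcongr
          have h7 : 1 / (n : ℝ) * (n / L ^ (k + 2)) = 1 / L ^ (k + 2) := by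
            field_simp
          linarith
      refine (Finset.sum_le_sum hterm).trans ?_
      rw [Finset.sum_add_distrib, Finset.sum_const, Nat.card_Ico, nsmul_eq_mul,
        ← Finset.sum_filter, Finset.sum_const, nsmul_eq_mul, mul_one]
      have h2 : ((M - 1 : ℕ) : ℝ) * (1 / L ^ (k + 2)) ≤ M / L ^ (k + 2) := by
        have h3 : ((M - 1 : ℕ) : ℝ) ≤ M := by exact_mod_cast Nat.sub_le M 1
        calc ((M - 1 : ℕ) : ℝ) * (1 / L ^ (k + 2)) ≤ M * (1 / L ^ (k + 2)) := by gcongr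
          _ = _ := by ring
      have h3 : ((((Ico 1 M).filter (fun n : ℕ => (n : ℝ) < (X : ℝ) ^ (1 / 16 : ℝ))).card : ℕ) : ℝ) ≤
          (X : ℝ) ^ (1 / 16 : ℝ) := by
        have h4 : (Ico 1 M).filter (fun n : ℕ => (n : ℝ) < (X : ℝ) ^ (1 / 16 : ℝ)) ⊆
            Icc 1 ⌊(X : ℝ) ^ (1 / 16 : ℝ)⌋₊ := by
          intro n hn
          rw [Finset.mem_filter, Finset.mem_Ico] at hn
          exact Finset.mem_Icc.2 ⟨hn.1.1, Nat.le_floor hn.2.le⟩
        have h5 := Finset.card_le_card h4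
        rw [Nat.card_Icc, Nat.add_sub_cancel] at h5
        calc _ ≤ ((⌊(X : ℝ) ^ (1 / 16 : ℝ)⌋₊ : ℕ) : ℝ) := by exact_mod_cast h5
          _ ≤ _ := Nat.floor_le (by positivity)
      have h4 : (X : ℝ) ^ (1 / 16 : ℝ) ≤ M / L ^ (k + 2) := by
        rw [le_div_iff₀ (by positivity)]
        have h5 : (X : ℝ) ^ (1 / 16 : ℝ) ≤ (X : ℝ) ^ (1 / 4 : ℝ) :=
          Real.rpow_le_rpow_of_exponent_le hX1 (by norm_num)
        have h6 : (X : ℝ) ^ (1 / 2 : ℝ) = (X : ℝ) ^ (1 / 4 : ℝ) * (X : ℝ) ^ (1 / 4 : ℝ) := by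
          rw [← Real.rpow_add hX0]
          norm_num
        have h7 : (0 : ℝ) ≤ (X : ℝ) ^ (1 / 4 : ℝ) := by positivity
        have h8 : (0 : ℝ) ≤ L ^ (k + 2) := by positivity
        calc (X : ℝ) ^ (1 / 16 : ℝ) * L ^ (k + 2)
            ≤ (X : ℝ) ^ (1 / 4 : ℝ) * (1 / 2 * (X : ℝ) ^ (1 / 4 : ℝ)) := by gcongr
          _ ≤ (X : ℝ) ^ (1 / 4 : ℝ) * (X : ℝ) ^ (1 / 4 : ℝ) := by nlinarith
          _ = (X : ℝ) ^ (1 / 2 : ℝ) := h6.symm
          _ ≤ M := a1
      have h5 : 2 * (M : ℝ) / L ^ (k + 2) = M / L ^ (k + 2) + M / L ^ (k + 2) := by ring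
      linarith
    unfold be
    rw [abs_div, abs_of_pos hcard, div_le_iff₀ hcard]
    refine hg.trans ?_
    have h2 : 2 * (M : ℝ) / L ^ (k + 2) ≤ 1 / L ^ k * (M / (2 * Real.log M)) := by
      rw [pow_add, div_mul_div_comm, one_mul, div_le_div_iff₀ (by positivity) (by positivity)]
      have h3 : 4 * Real.log M ≤ L ^ 2 := by nlinarith
      have h4 : 0 ≤ (M : ℝ) * L ^ k := by positivity
      nlinarith [mul_le_mul_of_nonneg_left h3 h4]
    refine h2.trans ?_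
    gcongr
  exact Filter.eventually_atTop.1 key

end Pool.Agent.LSP
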