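import Pool.Agent.Lib_helper53.LSPAF.LA7
import Pool.Agent.Lib_helper68.KSLF.WRS

/-!
# LSP, part A, block LA8: sums of the coefficients of the rough factor
-/

set_option autoImplicit false

namespace Pool.Agent.LSP

open Pool.Agent.LEV Pool.Agent.LVB Pool.Agent.KSL
open Pool.Agent.FG61 (mu phi cc ff AA Lam)
open Finset

theorem la8_mu (n : ℕ) : |mu n| ≤ 1 := by
  show |((ArithmeticFunction.moebius n : ℤ) : ℝ)| ≤ 1
  have h := ArithmeticFunction.abs_moebius_le_one (n := n)
  have h2 : ((|ArithmeticFunction.moebius n| : ℤ) : ℝ) ≤ 1 := by exact_mod_cast h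
  rwa [Int.cast_abs] at h2

/-- the terms with `w m r ≤ M` -/
theorem la8_one {k : ℕ} {X z M U V w m : ℕ} (hX : 1 ≤ Real.log X) (hlM : 0 < Real.log M)
    (hMX : (M : ℝ) ≤ (X : ℝ) ^ (4 : ℕ)) (hMX8 : (M : ℝ) ≤ (X : ℝ) ^ (8 : ℕ))
    (hU : (X : ℝ) ^ (1 / 16 : ℝ) ≤ U) (hw : 1 ≤ w) (hm : 1 ≤ m)
    (hms : ∀ K : ℕ, 1 ≤ K → (K : ℝ) ≤ (X : ℝ) ^ (8 : ℕ) →
      ∀ U V : ℕ, (X : ℝ) ^ (1 / 16 : ℝ) ≤ U → (V : ℝ) ≤ (X : ℝ) ^ (4 : ℕ) →
      ∀ (f : ℕ → ℝ) (F : ℝ), 0 ≤ F → (∀ n, U < n → n ≤ V → 0 ≤ f n ∧ f n ≤ F) →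
      (∀ n, U < n → n < V → f (n + 1) ≤ f n) →
        |∑ n ∈ (Ioc U V).filter (fun n => n.Coprime (K * Pz z)), mu n / n * f n| ≤
          F / Real.log X ^ k) :
    |∑ r ∈ (Ioc U V).filter (fun r => w * m * r ≤ M), (w : ℝ) * (mu m * yE z M 2 (w * r * m))| ≤
      1 / ((m : ℝ) * Real.log X ^ k) := by
  have hw0 : (0 : ℝ) < w := by exact_mod_cast hw
  have hm0 : (0 : ℝ) < m := by exact_mod_cast hm
  have hL : 0 < Real.log X ^ k := by positivity
  by_cases hr : rough z (w * m)
  · by_cases hle : w * m ≤ M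
    · have hwm : 1 ≤ w * m := Nat.mul_pos hw hm
      have hwm0 : (0 : ℝ) < ((w * m : ℕ) : ℝ) := by exact_mod_cast hwm
      have hM0 : (0 : ℝ) < M := by
        have : (w * m : ℕ) ≤ M := hle
        exact_mod_cast lt_of_lt_of_le hwm this
      obtain ⟨f, hf⟩ : ∃ f : ℕ → ℝ, ∀ n, f n = Real.log ((M : ℝ) / ((w * m : ℕ) : ℝ) / n) :=
        ⟨_, fun _ => rfl⟩
      have hset : (Ioc U V).filter (fun r => w * m * r ≤ M) = Ioc U (min V (M / (w * m))) := by
        ext r
        rw [mem_filter, mem_Ioc, mem_Ioc, le_min_iff, Nat.le_div_iff_mul_le hwm, mul_comm r]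
        tauto
      rw [hset]
      have hterm : ∀ r ∈ Ioc U (min V (M / (w * m))),
          (w : ℝ) * (mu m * yE z M 2 (w * r * m)) =
          (w * (mu m * (mu (w * m) / (((w * m : ℕ) : ℝ) * Real.log M)))) *
            (if r.Coprime (w * m * Pz z) then mu r / r * f r else 0) := by
        intro r hr'
        rw [mem_Ioc, le_min_iff, Nat.le_div_iff_mul_le hwm] at hr'
        have h1 : w * r * m = w * m * r := by ring
        have h2 : w * m * r ≤ M := by
          rw [mul_comm]
          exact hr'.2.2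
        rw [h1, WRS_yE_small hr hwm (by omega) h2, hf]
        split_ifs
        · ring
        · ring
      rw [sum_congr rfl hterm, ← mul_sum, ← sum_filter, abs_mul]
      have hV : ((min V (M / (w * m)) : ℕ) : ℝ) ≤ (X : ℝ) ^ (4 : ℕ) := by
        refine le_trans ?_ hMX
        have h3 : min V (M / (w * m)) ≤ M := (min_le_right _ _).trans (Nat.div_le_self _ _)
        exact_mod_cast h3
      have hK : ((w * m : ℕ) : ℝ) ≤ (X : ℝ) ^ (8 : ℕ) := by
        refine le_trans ?_ hMX8
        exact_mod_cast hle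
      have hpos : ∀ n : ℕ, U < n → n ≤ min V (M / (w * m)) →
          1 ≤ (M : ℝ) / ((w * m : ℕ) : ℝ) / n := by
        intro n hn hn2
        rw [le_min_iff, Nat.le_div_iff_mul_le hwm] at hn2
        have hn0 : (0 : ℝ) < n := by
          have : 0 < n := by omega
          exact_mod_cast this
        rw [div_div, le_div_iff₀ (mul_pos hwm0 hn0), one_mul]
        have h4 : w * m * n ≤ M := by
          rw [mul_comm]
          exact hn2.2
        exact_mod_cast h4
      have hmain := hms (w * m) hwm hK U (min V (M / (w * m))) hU hV f (Real.log M) hlM.le ?_ ?_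
      · have hc : |(w : ℝ) * (mu m * (mu (w * m) / (((w * m : ℕ) : ℝ) * Real.log M)))| ≤
            1 / ((m : ℝ) * Real.log M) := by
          have h5 : (w : ℝ) * (mu m * (mu (w * m) / (((w * m : ℕ) : ℝ) * Real.log M))) =
              (mu m * mu (w * m)) * (1 / ((m : ℝ) * Real.log M)) := by
            push_cast
            field_simp
          rw [h5, abs_mul, abs_mul, abs_of_nonneg (by positivity : 0 ≤ 1 / ((m : ℝ) * Real.log M))]
          have h6 : |mu m| * |mu (w * m)| ≤ 1 :=
            mul_le_one₀ (la8_mu m) (abs_nonneg _) (la8_mu _)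
          calc |mu m| * |mu (w * m)| * (1 / ((m : ℝ) * Real.log M))
              ≤ 1 * (1 / ((m : ℝ) * Real.log M)) :=
                mul_le_mul_of_nonneg_right h6 (by positivity)
            _ = 1 / ((m : ℝ) * Real.log M) := one_mul _
        calc _ ≤ 1 / ((m : ℝ) * Real.log M) * (Real.log M / Real.log X ^ k) :=
              mul_le_mul hc hmain (abs_nonneg _) (by positivity)
          _ = 1 / ((m : ℝ) * Real.log X ^ k) := by
              field_simp
      · intro n hn hn2
        have h7 := hpos n hn hn2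
        have hn0 : (1 : ℝ) ≤ n := by
          have : 1 ≤ n := by omega
          exact_mod_cast this
        rw [hf]
        refine ⟨Real.log_nonneg h7, Real.log_le_log (by linarith) ?_⟩
        rw [div_div]
        refine div_le_self hM0.le ?_
        have h8 : (1 : ℝ) ≤ ((w * m : ℕ) : ℝ) := by exact_mod_cast hwm
        nlinarith
      · intro n hn hn2
        have h7 := hpos (n + 1) (by omega) (by omega)
        rw [hf, hf]
        refine Real.log_le_log (by linarith) ?_
        have hn0 : (0 : ℝ) < n := by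
          have : 0 < n := by omega
          exact_mod_cast this
        refine div_le_div_of_nonneg_left (by positivity) hn0 ?_
        push_cast
        linarith
    · have hempty : (Ioc U V).filter (fun r => w * m * r ≤ M) = ∅ := by
        rw [filter_eq_empty_iff]
        intro r hr' h1
        rw [mem_Ioc] at hr'
        have h2 : w * m * 1 ≤ w * m * r := Nat.mul_le_mul_left _ (by omega)
        omega
      rw [hempty, sum_empty, abs_zero]
      positivity
  · have hz : ∀ r ∈ (Ioc U V).filter (fun r => w * m * r ≤ M),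
        (w : ℝ) * (mu m * yE z M 2 (w * r * m)) = 0 := by
      intro r _
      have h1 : ¬ (rough z (w * r * m) ∧ 1 ≤ w * r * m) := by
        rintro ⟨h2, -⟩
        apply hr
        intro p hp hpd
        apply h2 p hp
        have h3 : w * r * m = w * m * r := by ring
        rw [h3]
        exact hpd.mul_right r
      unfold yE
      rw [if_neg h1, mul_zero, mul_zero]
    rw [sum_congr rfl hz, sum_const_zero, abs_zero]
    positivity

/-- the terms with `w m r > M` -/
theorem la8_two {z M U V w m : ℕ} (hU : 1 ≤ U) (hM : 1 ≤ M) (hlM : 0 < Real.log M) (hw : 1 ≤ w)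
    (hm : 1 ≤ m) :
    |∑ r ∈ (Ioc U V).filter (fun r => ¬ w * m * r ≤ M),
      (w : ℝ) * (mu m * yE z M 2 (w * r * m))| ≤
      if m = 1 then |be z M 2| / Real.log M else 0 := by
  have hM0 : (0 : ℝ) < M := by exact_mod_cast hM
  have hterm : ∀ r ∈ (Ioc U V).filter (fun r => ¬ w * m * r ≤ M),
      |(w : ℝ) * (mu m * yE z M 2 (w * r * m))| ≤
        if r ∈ PK M 2 ∧ m = 1 then |be z M 2| / (M * Real.log M) else 0 := by
    intro r hr
    rw [mem_filter, mem_Ioc] at hr
    obtain ⟨⟨hr1, -⟩, hr2⟩ := hr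
    have h1 : w * r * m = w * m * r := by ring
    rw [h1]
    by_cases hpk : w * m * r ∈ PK M 2
    · have hprime : (w * m * r).Prime := (mem_filter.1 hpk).2
      have h2 : w * m = 1 := by
        rcases (Nat.prime_mul_iff.1 hprime) with h | h
        · omega
        · exact h.2
      have hw1 : w = 1 := Nat.eq_one_of_mul_eq_one_right h2
      have hm1 : m = 1 := Nat.eq_one_of_mul_eq_one_left h2
      subst hw1
      subst hm1
      have h3 : 1 * 1 * r = r := by ring
      rw [h3] at hpk ⊢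
      rw [if_pos ⟨hpk, rfl⟩]
      have hrM : M < r := (mem_Ioc.1 (mem_filter.1 hpk).1).1
      have hrM' : (M : ℝ) < r := by exact_mod_cast hrM
      have hr0 : (0 : ℝ) < r := by linarith
      have hy : |yE z M 2 r| ≤ |be z M 2| / (M * Real.log M) := by
        unfold yE
        split_ifs
        · unfold gE
          rw [if_neg (by omega), if_pos hpk, abs_div, abs_mul,
            abs_of_pos (mul_pos hr0 hlM)]
          have h5 : |mu r| * |be z M 2| ≤ |be z M 2| :=
            mul_le_of_le_one_left (abs_nonneg _) (la8_mu r)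
          refine div_le_div₀ (abs_nonneg _) h5 (mul_pos hM0 hlM) ?_
          exact mul_le_mul_of_nonneg_right hrM'.le hlM.le
        · rw [abs_zero]
          positivity
      rw [abs_mul, abs_mul, Nat.cast_one, abs_one, one_mul]
      calc |mu 1| * |yE z M 2 r| ≤ 1 * |yE z M 2 r| :=
            mul_le_mul_of_nonneg_right (la8_mu 1) (abs_nonneg _)
        _ = |yE z M 2 r| := one_mul _
        _ ≤ _ := hy
    · have hy : yE z M 2 (w * m * r) = 0 := by
        unfold yE gE
        rw [if_neg hr2, if_neg hpk]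
        simp
      rw [hy, mul_zero, mul_zero, abs_zero]
      split_ifs
      · positivity
      · exact le_rfl
  refine (abs_sum_le_sum_abs _ _).trans ((sum_le_sum hterm).trans ?_)
  by_cases hm1 : m = 1
  · rw [if_pos hm1, ← sum_filter, sum_const, nsmul_eq_mul]
    have hcard : (((Ioc U V).filter (fun r => ¬ w * m * r ≤ M)).filter
        (fun r => r ∈ PK M 2 ∧ m = 1)).card ≤ M := by
      calc _ ≤ (PK M 2).card := by
            refine card_le_card ?_
            intro r hr
            exact (mem_filter.1 hr).2.1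
        _ ≤ (Ioc M (2 * M)).card := card_filter_le _ _
        _ = M := by
            rw [Nat.card_Ioc]
            omega
    calc _ ≤ (M : ℝ) * (|be z M 2| / (M * Real.log M)) :=
          mul_le_mul_of_nonneg_right (by exact_mod_cast hcard) (by positivity)
      _ = |be z M 2| / Real.log M := by
          field_simp
  · rw [if_neg hm1]
    refine le_of_eq (sum_eq_zero fun r _ => ?_)
    rw [if_neg (fun h => hm1 h.2)]

theorem xr_sum (k : ℕ) {κ : ℝ} (h0 : 0 < κ) (h1 : κ ≤ 1 / 1000) : ∃ X₀ : ℕ, ∀ X : ℕ, X₀ ≤ X →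
    ∀ w : ℕ, 1 ≤ w → ∀ U V : ℕ, (X : ℝ) ^ (1 / 16 : ℝ) ≤ U →
      |∑ r ∈ Ioc U V, xr (zz X) (MM (-κ) X) 2 (w * r) / r| ≤ 1 / Real.log X ^ k := by
  obtain ⟨X₁, hX₁⟩ := ms_log (k + 2)
  obtain ⟨X₂, hX₂⟩ := be_log (k + 1) h0 h1
  obtain ⟨X₃, hX₃⟩ := la_sizes h0 h1
  refine ⟨max (max X₁ X₂) (max X₃ ⌈Real.exp 4⌉₊), fun X hX w hw U V hU => ?_⟩
  have hX1 : X₁ ≤ X := ((le_max_left _ _).trans (le_max_left _ _)).trans hX
  have hX2 : X₂ ≤ X := ((le_max_right _ _).trans (le_max_left _ _)).trans hX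
  have hX3 : X₃ ≤ X := ((le_max_left _ _).trans (le_max_right _ _)).trans hX
  have hX4 : ⌈Real.exp 4⌉₊ ≤ X := ((le_max_right _ _).trans (le_max_right _ _)).trans hX
  have hXe : Real.exp 4 ≤ X := (Nat.le_ceil _).trans (Nat.cast_le.2 hX4)
  have hX0 : (0 : ℝ) < X := (Real.exp_pos 4).trans_le hXe
  have hL4 : 4 ≤ Real.log X := (Real.le_log_iff_exp_le hX0).2 hXe
  have hX1r : (1 : ℝ) ≤ X := by
    have : (1 : ℝ) ≤ Real.exp 4 := Real.one_le_exp (by norm_num)
    linarith
  have hms := hX₁ X hX1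
  have hbe := hX₂ X hX2
  obtain ⟨-, -, -, hMle, -, hlog, h2M, -⟩ := hX₃ X hX3
  obtain ⟨M, hM⟩ : ∃ M : ℕ, M = MM (-κ) X := ⟨_, rfl⟩
  obtain ⟨z, hz⟩ : ∃ z : ℕ, z = zz X := ⟨_, rfl⟩
  rw [← hM] at hMle hlog h2M hbe ⊢
  rw [← hz] at hbe hms ⊢
  have hlM : 0 < Real.log M := by linarith
  have hM1 : 1 ≤ M := by
    rcases Nat.eq_zero_or_pos M with h | h
    · rw [h] at hlM
      simp at hlM
    · exact h
  have hMX : ∀ j : ℕ, 1 ≤ j → (M : ℝ) ≤ (X : ℝ) ^ j := by
    intro j hj
    have h3 : (M : ℝ) ≤ (X : ℝ) := by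
      have : (0 : ℝ) ≤ M := Nat.cast_nonneg M
      linarith
    exact h3.trans (le_self_pow₀ hX1r (by omega))
  have hU1 : 1 ≤ U := by
    have h3 : (1 : ℝ) ≤ (X : ℝ) ^ (1 / 16 : ℝ) := Real.one_le_rpow hX1r (by norm_num)
    have h4 : (1 : ℝ) ≤ U := h3.trans hU
    exact_mod_cast h4
  have e1 : ∑ r ∈ Ioc U V, xr z M 2 (w * r) / r =
      ∑ m ∈ Icc 1 (2 * M), ∑ r ∈ Ioc U V, (w : ℝ) * (mu m * yE z M 2 (w * r * m)) := by
    rw [sum_comm]
    refine sum_congr rfl fun r hr => ?_
    have hr0 : (r : ℝ) ≠ 0 := by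
      have : 0 < r := by
        rw [mem_Ioc] at hr
        omega
      exact_mod_cast this.ne'
    unfold xr
    rw [← mul_sum]
    push_cast
    field_simp
  rw [e1]
  have hL0 : 0 < Real.log X := by linarith
  have hterm : ∀ m ∈ Icc 1 (2 * M),
      |∑ r ∈ Ioc U V, (w : ℝ) * (mu m * yE z M 2 (w * r * m))| ≤
        1 / ((m : ℝ) * Real.log X ^ (k + 2)) + if m = 1 then |be z M 2| / Real.log M else 0 := by
    intro m hm
    rw [mem_Icc] at hm
    rw [← sum_filter_add_sum_filter_not (Ioc U V) (fun r => w * m * r ≤ M)]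
    refine (abs_add_le _ _).trans (add_le_add ?_ ?_)
    · exact la8_one (by linarith) hlM (hMX 4 (by norm_num)) (hMX 8 (by norm_num)) hU hw hm.1 hms
    · exact la8_two hU1 hM1 hlM hw hm.1
  refine (abs_sum_le_sum_abs _ _).trans ((sum_le_sum hterm).trans ?_)
  rw [sum_add_distrib]
  have s1 : ∑ m ∈ Icc 1 (2 * M), 1 / ((m : ℝ) * Real.log X ^ (k + 2)) ≤
      2 / Real.log X ^ (k + 1) := by
    have h5 : ∑ m ∈ Icc 1 (2 * M), 1 / ((m : ℝ) * Real.log X ^ (k + 2)) =
        (∑ m ∈ Icc 1 (2 * M), (m : ℝ)⁻¹) / Real.log X ^ (k + 2) := by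
      rw [sum_div]
      refine sum_congr rfl fun m _ => ?_
      rw [div_mul_eq_div_div, one_div]
    have h6 : ∑ m ∈ Icc 1 (2 * M), (m : ℝ)⁻¹ ≤ 1 + Real.log ((2 * M : ℕ) : ℝ) := by
      have h7 := harmonic_le_one_add_log (2 * M)
      rw [harmonic_eq_sum_Icc] at h7
      push_cast at h7 ⊢
      exact h7
    have h8 : Real.log ((2 * M : ℕ) : ℝ) ≤ Real.log X := by
      refine Real.log_le_log ?_ ?_
      · have : 0 < 2 * M := by omega
        exact_mod_cast this
      · push_cast
        exact h2M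
    rw [h5, div_le_div_iff₀ (by positivity) (by positivity)]
    have h9 : ∑ m ∈ Icc 1 (2 * M), (m : ℝ)⁻¹ ≤ 2 * Real.log X := by linarith
    calc (∑ m ∈ Icc 1 (2 * M), (m : ℝ)⁻¹) * Real.log X ^ (k + 1)
        ≤ (2 * Real.log X) * Real.log X ^ (k + 1) :=
          mul_le_mul_of_nonneg_right h9 (by positivity)
      _ = 2 * Real.log X ^ (k + 2) := by ring
  have s2 : ∑ m ∈ Icc 1 (2 * M), (if m = 1 then |be z M 2| / Real.log M else 0) ≤
      2 / Real.log X ^ (k + 1) := by
    rw [sum_ite_eq' (Icc 1 (2 * M)) 1 (fun _ => |be z M 2| / Real.log M)]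
    split_ifs
    · have h5 : |be z M 2| / Real.log M ≤ (1 / Real.log X ^ (k + 1)) / (1 / 2) := by
        refine div_le_div₀ (by positivity) hbe (by norm_num) ?_
        linarith
      refine h5.trans_eq ?_
      field_simp
    · positivity
  refine (add_le_add s1 s2).trans ?_
  rw [← add_div, div_le_div_iff₀ (by positivity) (by positivity), pow_succ]
  have h10 : 0 < Real.log X ^ k := by positivity
  nlinarith

end Pool.Agent.LSP
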