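import Pool.Agent.Lib_helper53.LSPAF.LA8

/-! LSP part A, block LA9 (helper21). -/

set_option autoImplicit false

namespace Pool.Agent.LSP

open Pool.Agent.LEV Pool.Agent.LVB Pool.Agent.KSL
open Pool.Agent.FG61 (mu phi cc ff AA Lam)
open Finset

theorem la9_mu (n : ℕ) : |mu n| ≤ 1 := by
  unfold mu
  exact_mod_cast ArithmeticFunction.abs_moebius_le_one (n := n)

theorem cc_le {c n : ℕ} (hc : 1 ≤ c) : |cc c n| ≤ tau c * (Nat.gcd c n : ℝ) := by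
  unfold Pool.Agent.FG61.cc tau
  have hg : 0 < Nat.gcd c n := Nat.gcd_pos_of_pos_left n hc
  calc |∑ d ∈ (Nat.gcd c n).divisors, (d : ℝ) * mu (c / d)|
      ≤ ∑ d ∈ (Nat.gcd c n).divisors, |(d : ℝ) * mu (c / d)| := abs_sum_le_sum_abs _ _
    _ ≤ ∑ d ∈ (Nat.gcd c n).divisors, (Nat.gcd c n : ℝ) := by
        refine sum_le_sum fun d hd => ?_
        rw [abs_mul, abs_of_nonneg (Nat.cast_nonneg d)]
        have h1 : (d : ℝ) ≤ Nat.gcd c n := by exact_mod_cast Nat.divisor_le hd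
        have h2 := la9_mu (c / d)
        calc (d : ℝ) * |mu (c / d)| ≤ d * 1 := mul_le_mul_of_nonneg_left h2 (Nat.cast_nonneg d)
          _ ≤ _ := by rw [mul_one]; exact h1
    _ = ((Nat.gcd c n).divisors.card : ℝ) * (Nat.gcd c n : ℝ) := by rw [sum_const, nsmul_eq_mul]
    _ ≤ (c.divisors.card : ℝ) * (Nat.gcd c n : ℝ) := by
        apply mul_le_mul_of_nonneg_right _ (Nat.cast_nonneg _)
        have := card_le_card (Nat.divisors_subset_of_dvd (by omega) (Nat.gcd_dvd_left c n))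
        exact_mod_cast this

theorem la9_dvd {d t r : ℕ} (hd : 0 < d) : d ∣ t * r ↔ d / Nat.gcd d t ∣ r := by
  have hg : 0 < Nat.gcd d t := Nat.gcd_pos_of_pos_left t hd
  obtain ⟨d', hd'⟩ := Nat.gcd_dvd_left d t
  obtain ⟨t', ht'⟩ := Nat.gcd_dvd_right d t
  set g := Nat.gcd d t with hgd
  have h1 : d / g = d' := by
    rw [hd', Nat.mul_div_cancel_left _ hg]
  rw [h1]
  have h2 : Nat.Coprime d' t' := by
    have h3 : g * Nat.gcd d' t' = g * 1 := by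
      rw [← Nat.gcd_mul_left, ← hd', ← ht', mul_one]
    exact Nat.eq_of_mul_eq_mul_left hg h3
  constructor
  · intro h
    rw [hd', ht', mul_assoc, Nat.mul_dvd_mul_iff_left hg] at h
    exact h2.dvd_of_dvd_mul_left h
  · intro h
    rw [hd', ht', mul_assoc, Nat.mul_dvd_mul_iff_left hg]
    exact h.mul_left t'

theorem cc_mul {c t r : ℕ} (hc : 1 ≤ c) (ht : 1 ≤ t) :
    cc c (t * r) = ∑ d ∈ c.divisors, if d / Nat.gcd d t ∣ r then (d : ℝ) * mu (c / d) else 0 := by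
  unfold Pool.Agent.FG61.cc
  rw [← sum_filter]
  refine sum_congr ?_ fun _ _ => rfl
  ext d
  rw [mem_filter, Nat.mem_divisors, Nat.mem_divisors, Nat.dvd_gcd_iff]
  constructor
  · rintro ⟨⟨h1, h2⟩, h3⟩
    exact ⟨⟨h1, by omega⟩, (la9_dvd (Nat.pos_of_dvd_of_pos h1 hc)).1 h2⟩
  · rintro ⟨⟨h1, h2⟩, h3⟩
    exact ⟨⟨h1, (la9_dvd (Nat.pos_of_dvd_of_pos h1 hc)).2 h3⟩,
      (Nat.gcd_pos_of_pos_left _ hc).ne'⟩

/-- the multiples of `d` in an interval -/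
theorem la9_multiples (f : ℕ → ℝ) {d : ℕ} (hd : 0 < d) (U V : ℕ) :
    ∑ r ∈ (Ioc U V).filter (fun r => d ∣ r), f r = ∑ r ∈ Ioc (U / d) (V / d), f (d * r) := by
  symm
  refine sum_bij (fun r _ => d * r) ?_ ?_ ?_ ?_
  · intro r hr
    rw [mem_Ioc] at hr
    rw [mem_filter, mem_Ioc]
    refine ⟨⟨?_, ?_⟩, Dvd.intro _ rfl⟩
    · have := (Nat.div_lt_iff_lt_mul hd).1 hr.1
      rwa [mul_comm] at this
    · have := (Nat.le_div_iff_mul_le hd).1 hr.2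
      rwa [mul_comm] at this
  · intro a _ b _ hab
    exact Nat.eq_of_mul_eq_mul_left hd hab
  · intro r hr
    rw [mem_filter, mem_Ioc] at hr
    obtain ⟨⟨h1, h2⟩, r', rfl⟩ := hr
    refine ⟨r', ?_, rfl⟩
    rw [mem_Ioc]
    refine ⟨?_, ?_⟩
    · rw [Nat.div_lt_iff_lt_mul hd, mul_comm]; exact h1
    · rw [Nat.le_div_iff_mul_le hd, mul_comm]; exact h2
  · intro r _
    rfl

theorem la9_size {X U c d : ℕ} (hX : 2 ^ 20 ≤ X) (hd : 0 < d) (hdc : d ≤ c)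
    (hc : (c : ℝ) ≤ (X : ℝ) ^ (1 / 100 : ℝ)) (hU : (X : ℝ) ^ (1 / 8 : ℝ) ≤ U) :
    (X : ℝ) ^ (1 / 16 : ℝ) ≤ ((U / d : ℕ) : ℝ) := by
  have hX' : ((2 : ℝ) ^ 20) ≤ X := by exact_mod_cast hX
  have hX0 : (0 : ℝ) < X := lt_of_lt_of_le (by positivity) hX'
  have hX1 : (1 : ℝ) ≤ X := le_trans (by norm_num) hX'
  have hd' : (0 : ℝ) < d := by exact_mod_cast hd
  have h1 : (U : ℝ) < d * ((U / d : ℕ) + 1 : ℝ) := by
    have := Nat.lt_mul_div_succ U hd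
    exact_mod_cast this
  have h2 : (d : ℝ) ≤ (X : ℝ) ^ (1 / 100 : ℝ) := le_trans (by exact_mod_cast hdc) hc
  have h3 : (X : ℝ) ^ (1 / 8 : ℝ) = (X : ℝ) ^ (1 / 100 : ℝ) * (X : ℝ) ^ (23 / 200 : ℝ) := by
    rw [← Real.rpow_add hX0]; norm_num
  have h4 : (X : ℝ) ^ (23 / 200 : ℝ) = (X : ℝ) ^ (1 / 16 : ℝ) * (X : ℝ) ^ (21 / 400 : ℝ) := by
    rw [← Real.rpow_add hX0]; norm_num
  have h5 : (2 : ℝ) ≤ (X : ℝ) ^ (21 / 400 : ℝ) := by
    calc (2 : ℝ) = (2 : ℝ) ^ (1 : ℝ) := (Real.rpow_one 2).symm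
      _ ≤ (2 : ℝ) ^ (20 * (21 / 400) : ℝ) :=
          Real.rpow_le_rpow_of_exponent_le (by norm_num) (by norm_num)
      _ = ((2 : ℝ) ^ 20) ^ (21 / 400 : ℝ) := by
          rw [Real.rpow_mul (by norm_num)]
          norm_num
      _ ≤ _ := Real.rpow_le_rpow (by positivity) hX' (by norm_num)
  have h6 : (1 : ℝ) ≤ (X : ℝ) ^ (1 / 16 : ℝ) := Real.one_le_rpow hX1 (by norm_num)
  have h7 : (d : ℝ) * (X : ℝ) ^ (23 / 200 : ℝ) ≤ U := by
    refine le_trans ?_ (h3 ▸ hU)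
    exact mul_le_mul_of_nonneg_right h2 (Real.rpow_nonneg hX0.le _)
  have h8 : (X : ℝ) ^ (23 / 200 : ℝ) < (U / d : ℕ) + 1 :=
    lt_of_mul_lt_mul_left (lt_of_le_of_lt h7 h1) hd'.le
  have h9 : 2 * (X : ℝ) ^ (1 / 16 : ℝ) ≤ (X : ℝ) ^ (23 / 200 : ℝ) := by
    rw [h4]
    nlinarith
  linarith

theorem xr_cc (k : ℕ) {κ : ℝ} (h0 : 0 < κ) (h1 : κ ≤ 1 / 1000) : ∃ X₀ : ℕ, ∀ X : ℕ, X₀ ≤ X →
    ∀ w t c : ℕ, 1 ≤ w → 1 ≤ t → 1 ≤ c → (c : ℝ) ≤ (X : ℝ) ^ (1 / 100 : ℝ) →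
    ∀ U V : ℕ, (X : ℝ) ^ (1 / 8 : ℝ) ≤ U →
      |∑ r ∈ Ioc U V, xr (zz X) (MM (-κ) X) 2 (w * r) / r * cc c (t * r)| ≤
        tau c * Nat.gcd c t / Real.log X ^ k := by
  obtain ⟨X₀, hX₀⟩ := xr_sum k h0 h1
  refine ⟨max X₀ (2 ^ 20), fun X hX w t c hw ht hc hcX U V hU => ?_⟩
  have hX1 : X₀ ≤ X := (le_max_left _ _).trans hX
  have hX2 : 2 ^ 20 ≤ X := (le_max_right _ _).trans hX
  have hXr : (1 : ℝ) ≤ X := by
    have : (1 : ℕ) ≤ X := le_trans (by norm_num) hX2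
    exact_mod_cast this
  have hlog : 0 ≤ Real.log X := Real.log_nonneg hXr
  set x : ℕ → ℝ := fun r => xr (zz X) (MM (-κ) X) 2 r with hx
  have e1 : ∑ r ∈ Ioc U V, xr (zz X) (MM (-κ) X) 2 (w * r) / r * cc c (t * r) =
      ∑ d ∈ c.divisors, (d : ℝ) * mu (c / d) *
        ∑ r ∈ (Ioc U V).filter (fun r => d / Nat.gcd d t ∣ r), x (w * r) / r := by
    have e2 : ∀ r ∈ Ioc U V, xr (zz X) (MM (-κ) X) 2 (w * r) / r * cc c (t * r) =
        ∑ d ∈ c.divisors, if d / Nat.gcd d t ∣ r then (d : ℝ) * mu (c / d) * (x (w * r) / r)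
          else 0 := by
      intro r _
      rw [cc_mul hc ht, mul_sum]
      refine sum_congr rfl fun d _ => ?_
      split_ifs
      · rw [mul_comm]
      · rw [mul_zero]
    rw [sum_congr rfl e2, sum_comm]
    refine sum_congr rfl fun d _ => ?_
    rw [mul_sum, sum_filter]
  rw [e1]
  have hterm : ∀ d ∈ c.divisors, |(d : ℝ) * mu (c / d) *
      ∑ r ∈ (Ioc U V).filter (fun r => d / Nat.gcd d t ∣ r), x (w * r) / r| ≤
        Nat.gcd c t / Real.log X ^ k := by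
    intro d hd
    have hdc := Nat.divisor_le hd
    have hd0 : 0 < d := Nat.pos_of_mem_divisors hd
    have hg : 0 < Nat.gcd d t := Nat.gcd_pos_of_pos_left t hd0
    have hd' : 0 < d / Nat.gcd d t := Nat.div_pos (Nat.le_of_dvd hd0 (Nat.gcd_dvd_left d t)) hg
    set d' := d / Nat.gcd d t with hdd
    have hdd' : d' * Nat.gcd d t = d := Nat.div_mul_cancel (Nat.gcd_dvd_left d t)
    have hdr : (0 : ℝ) < d' := by exact_mod_cast hd'
    rw [la9_multiples _ hd' U V]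
    have e3 : ∑ r ∈ Ioc (U / d') (V / d'), x (w * (d' * r)) / ((d' * r : ℕ) : ℝ) =
        (d' : ℝ)⁻¹ * ∑ r ∈ Ioc (U / d') (V / d'), x (w * d' * r) / r := by
      rw [mul_sum]
      refine sum_congr rfl fun r _ => ?_
      rw [mul_assoc w d' r]
      push_cast
      rw [div_mul_eq_div_div, div_eq_inv_mul (x (w * (d' * r))) (d' : ℝ), mul_div_assoc]
    rw [e3]
    have h2 := hX₀ X hX1 (w * d') (Nat.mul_pos hw hd') (U / d') (V / d')
      (la9_size hX2 hd' ((Nat.div_le_self _ _).trans hdc) hcX hU)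
    have h3 : |(d : ℝ) * mu (c / d)| ≤ d := by
      rw [abs_mul, abs_of_nonneg (Nat.cast_nonneg d)]
      have := la9_mu (c / d)
      nlinarith [(Nat.cast_nonneg d : (0 : ℝ) ≤ d)]
    have h4 : (Nat.gcd d t : ℝ) ≤ Nat.gcd c t := by
      have : Nat.gcd d t ≤ Nat.gcd c t :=
        Nat.le_of_dvd (Nat.gcd_pos_of_pos_left t hc)
          (Nat.gcd_dvd_gcd_of_dvd_left t (Nat.dvd_of_mem_divisors hd))
      exact_mod_cast this
    have h5 : (d : ℝ) * (d' : ℝ)⁻¹ = Nat.gcd d t := by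
      rw [← hdd']
      push_cast
      field_simp
      rw [hdd']
    calc |(d : ℝ) * mu (c / d) * ((d' : ℝ)⁻¹ * ∑ r ∈ Ioc (U / d') (V / d'), x (w * d' * r) / r)|
        = |(d : ℝ) * mu (c / d)| * ((d' : ℝ)⁻¹ *
            |∑ r ∈ Ioc (U / d') (V / d'), x (w * d' * r) / r|) := by
          rw [abs_mul, abs_mul (d' : ℝ)⁻¹, abs_of_pos (inv_pos.2 hdr)]
      _ ≤ d * ((d' : ℝ)⁻¹ * (1 / Real.log X ^ k)) := by
          apply mul_le_mul h3 _ (by positivity) (Nat.cast_nonneg d)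
          exact mul_le_mul_of_nonneg_left h2 (inv_pos.2 hdr).le
      _ = (d * (d' : ℝ)⁻¹) / Real.log X ^ k := by ring
      _ ≤ Nat.gcd c t / Real.log X ^ k := by
          rw [h5]
          exact div_le_div_of_nonneg_right h4 (by positivity)
  calc |∑ d ∈ c.divisors, (d : ℝ) * mu (c / d) *
        ∑ r ∈ (Ioc U V).filter (fun r => d / Nat.gcd d t ∣ r), x (w * r) / r|
      ≤ ∑ d ∈ c.divisors, |(d : ℝ) * mu (c / d) *
        ∑ r ∈ (Ioc U V).filter (fun r => d / Nat.gcd d t ∣ r), x (w * r) / r| :=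
        abs_sum_le_sum_abs _ _
    _ ≤ ∑ d ∈ c.divisors, (Nat.gcd c t / Real.log X ^ k : ℝ) := sum_le_sum hterm
    _ = tau c * Nat.gcd c t / Real.log X ^ k := by
        rw [sum_const, nsmul_eq_mul]
        unfold tau
        ring

example : type_of% @cc_le := @cc_le
example : type_of% @cc_mul := @cc_mul
example : type_of% @xr_cc := @xr_cc

end Pool.Agent.LSP
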